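import Pool.Agent.H363R3.KF.Stm
import Pool.Agent.Helper876.PB.Corner

set_option autoImplicit false

noncomputable section

open MeasureTheory Filter Topology
open scoped BigOperators Matrix ENNReal

namespace H363KF

theorem A1 : S_A1 := by
  intro n y
  have hset : {z : Fin n → ℝ | ∃ a : Fin n → ℝ, (∀ i, 0 ≤ a i) ∧ ∑ i, a i ≤ 1 ∧
      z = ∑ i, a i • y i} =
      (Matrix.toLin' (Matrix.of y)ᵀ) '' (Pool.Agent.Helper876.PB.S n 1) := by
    ext z
    constructor
    · rintro ⟨a, h1, h2, rfl⟩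
      refine ⟨a, ⟨h1, h2⟩, ?_⟩
      rw [Matrix.toLin'_apply, Matrix.mulVec_transpose]
      ext j
      rw [Finset.sum_apply]
      simp [Matrix.vecMul, dotProduct]
    · rintro ⟨a, ⟨h1, h2⟩, rfl⟩
      refine ⟨a, h1, h2, ?_⟩
      rw [Matrix.toLin'_apply, Matrix.mulVec_transpose]
      ext j
      rw [Finset.sum_apply]
      simp [Matrix.vecMul, dotProduct]
  rw [hset, MeasureTheory.Measure.addHaar_image_linearMap, LinearMap.det_toLin',
    Matrix.det_transpose, Pool.Agent.Helper876.PB.vol_S n zero_le_one,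
    ← ENNReal.ofReal_mul (abs_nonneg _)]
  apply le_of_eq
  congr 1
  rw [one_pow, mul_one_div]

end H363KF
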