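import Pool.Agent.H363R3.KF.Stm

set_option autoImplicit false

noncomputable section

open MeasureTheory Filter Topology
open scoped BigOperators Matrix ENNReal

namespace H363KF

namespace A2aux

lemma cover {κ : Type} [Fintype κ] {n N : ℕ} {l : κ → Fin n → ℝ} {c : Fin N → Fin n → Fin n → ℝ}
    (hc : ∀ j i (x : Fin n → ℝ), (∀ k, |l k ⬝ᵥ x| ≤ 1) → c j i ⬝ᵥ x ≤ 1) (hcov : Cov l c)
    {r : ℝ} (hr : 0 < r) (hr1 : r < 1) {x : Fin n → ℝ} (hx : ∀ k, |l k ⬝ᵥ x| ≤ r) :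
    (∀ j i, 0 < 1 - c j i ⬝ᵥ x) ∧ PK l x ⊆ ⋃ j : Fin N, {z : Fin n → ℝ | ∃ a : Fin n → ℝ,
      (∀ i, 0 ≤ a i) ∧ ∑ i, a i ≤ 1 ∧ z = ∑ i, a i • ((1 - c j i ⬝ᵥ x)⁻¹ • c j i)} := by
  have hpos : ∀ j i, 0 < 1 - c j i ⬝ᵥ x := by
    intro j i
    have h1 := hc j i (r⁻¹ • x) (by
      intro k
      rw [dotProduct_smul, smul_eq_mul, abs_mul, abs_of_pos (inv_pos.mpr hr)]
      rw [inv_mul_le_iff₀ hr]
      simpa using hx k)
    rw [dotProduct_smul, smul_eq_mul, inv_mul_le_iff₀ hr] at h1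
    linarith
  refine ⟨hpos, ?_⟩
  intro y hy
  have hy' : ∀ v, (∀ k, |l k ⬝ᵥ v| ≤ 1) → (v - x) ⬝ᵥ y ≤ 1 := hy
  have h1 := hy' (-(r⁻¹) • x) (by
    intro k
    rw [dotProduct_smul, smul_eq_mul, abs_mul, abs_neg, abs_of_pos (inv_pos.mpr hr)]
    rw [inv_mul_le_iff₀ hr]
    simpa using hx k)
  rw [sub_dotProduct, smul_dotProduct, smul_eq_mul] at h1
  have hrinv : 1 < r⁻¹ := (one_lt_inv₀ hr).mpr hr1
  have hmu : 0 < 1 + x ⬝ᵥ y := by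
    by_contra hneg
    push Not at hneg
    nlinarith
  set μ := 1 + x ⬝ᵥ y with hμ
  have hz : ∀ v : Fin n → ℝ, (∀ k, |l k ⬝ᵥ v| ≤ 1) → (μ⁻¹ • y) ⬝ᵥ v ≤ 1 := by
    intro v hv
    have h2 := hy' v hv
    rw [sub_dotProduct] at h2
    rw [smul_dotProduct, smul_eq_mul, inv_mul_le_iff₀ hmu, dotProduct_comm]
    linarith
  obtain ⟨j, a, ha0, ha1, hz2⟩ := hcov _ hz
  rw [Set.mem_iUnion]
  refine ⟨j, fun i => μ * a i * (1 - c j i ⬝ᵥ x), ?_, ?_, ?_⟩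
  · intro i
    exact mul_nonneg (mul_nonneg hmu.le (ha0 i)) (hpos j i).le
  · have h3 : (μ⁻¹ • y) ⬝ᵥ x = ∑ i, a i * (c j i ⬝ᵥ x) := by
      rw [hz2, sum_dotProduct]
      apply Finset.sum_congr rfl
      intro i _
      rw [smul_dotProduct, smul_eq_mul]
    have h4 : (μ⁻¹ • y) ⬝ᵥ x = μ⁻¹ * (μ - 1) := by
      rw [smul_dotProduct, smul_eq_mul, dotProduct_comm, hμ]
      ring
    have h5 : ∑ i, μ * a i * (1 - c j i ⬝ᵥ x) = μ * (∑ i, a i) - μ * ∑ i, a i * (c j i ⬝ᵥ x) := by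
      rw [Finset.mul_sum, Finset.mul_sum, ← Finset.sum_sub_distrib]
      apply Finset.sum_congr rfl
      intro i _
      ring
    rw [h5, ← h3, h4, ← mul_assoc, mul_inv_cancel₀ hmu.ne', one_mul]
    nlinarith
  · have h6 : y = μ • (μ⁻¹ • y) := by
      rw [smul_smul, mul_inv_cancel₀ hmu.ne', one_smul]
    rw [h6, hz2, Finset.smul_sum]
    apply Finset.sum_congr rfl
    intro i _
    rw [smul_smul, smul_smul, mul_assoc (μ * a i), mul_inv_cancel₀ (hpos j i).ne', mul_one]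

end A2aux

theorem A2 (hA1 : S_A1) : S_A2 := by
  intro κ _ n N l c hc hcov r hr hr1 x hx
  obtain ⟨hpos, hcover⟩ := A2aux.cover hc hcov hr hr1 hx
  refine (measure_mono hcover).trans ((measure_iUnion_fintype_le _ _).trans ?_)
  apply Finset.sum_le_sum
  intro j _
  refine (hA1 n (fun i => (1 - c j i ⬝ᵥ x)⁻¹ • c j i)).trans ?_
  apply le_of_eq
  congr 1
  have h1 : Matrix.det (Matrix.of fun i => (1 - c j i ⬝ᵥ x)⁻¹ • c j i) =
      (∏ i, (1 - c j i ⬝ᵥ x)⁻¹) * Matrix.det (Matrix.of (c j)) := by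
    rw [← Matrix.det_mul_column]
    rfl
  have h2 : 0 ≤ ∏ i, (1 - c j i ⬝ᵥ x)⁻¹ :=
    Finset.prod_nonneg fun i _ => inv_nonneg.mpr (hpos j i).le
  rw [h1, abs_mul, abs_of_nonneg h2]
  ring

end H363KF
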