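import Pool.Agent.H363R3.KF.Stm

/-!
KALAI'S FLAG CONJECTURE, task A3 (helper96): the integral over one simplex.
-/

set_option autoImplicit false

noncomputable section

open MeasureTheory Filter Topology
open scoped BigOperators Matrix ENNReal

namespace H363KF

section A3

variable {n : ℕ} (c : Fin n → Fin n → ℝ)

/-- the linear map with rows `c i` -/
def a3A : (Fin n → ℝ) →L[ℝ] (Fin n → ℝ) :=
  LinearMap.toContinuousLinearMap (Matrix.toLin' (Matrix.of c))

theorem a3A_apply (x : Fin n → ℝ) (i : Fin n) : a3A c x i = c i ⬝ᵥ x := by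
  simp [a3A, Matrix.toLin'_apply, Matrix.mulVec]

/-- the logarithmic coordinates -/
def a3f (D : ℝ) (x : Fin n → ℝ) : Fin n → ℝ := fun i => -Real.log (1 - a3A c x i) - (i : ℕ) * D

/-- derivative of the logarithmic coordinates -/
def a3f' (x : Fin n → ℝ) : (Fin n → ℝ) →L[ℝ] (Fin n → ℝ) :=
  ContinuousLinearMap.pi fun i => (1 - a3A c x i)⁻¹ • ((ContinuousLinearMap.proj i).comp (a3A c))

theorem a3f_hasFDerivAt (D : ℝ) (x : Fin n → ℝ) (hx : ∀ i, 0 < 1 - a3A c x i) :
    HasFDerivAt (a3f c D) (a3f' c x) x := by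
  rw [hasFDerivAt_pi']
  intro i
  have h1 : HasFDerivAt (fun y : Fin n → ℝ => a3A c y i)
      ((ContinuousLinearMap.proj i).comp (a3A c)) x :=
    ((ContinuousLinearMap.proj i).comp (a3A c)).hasFDerivAt
  have h2 : HasFDerivAt (fun y : Fin n → ℝ => 1 - a3A c y i)
      (-((ContinuousLinearMap.proj i).comp (a3A c))) x := h1.const_sub 1
  have h3 := ((h2.log (hx i).ne').neg).sub_const ((i : ℕ) * D)
  refine h3.congr_fderiv ?_
  ext v
  simp [a3f']

theorem a3f'_det (x : Fin n → ℝ) :
    (a3f' c x).det = (∏ i, (1 - a3A c x i)⁻¹) * Matrix.det (Matrix.of c) := by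
  have h1 : ((a3f' c x : (Fin n → ℝ) →L[ℝ] (Fin n → ℝ)) : (Fin n → ℝ) →ₗ[ℝ] (Fin n → ℝ)) =
      Matrix.toLin' (Matrix.of fun i j => (1 - a3A c x i)⁻¹ * (Matrix.of c) i j) := by
    apply LinearMap.ext
    intro v
    funext i
    simp [a3f', a3A_apply, Matrix.toLin'_apply, Matrix.mulVec, dotProduct, Finset.mul_sum, mul_assoc]
  rw [ContinuousLinearMap.det, h1, LinearMap.det_toLin']
  exact Matrix.det_mul_column _ _

theorem a3_chain (t : Fin n → ℝ) (h : ∀ i i' : Fin n, (i : ℕ) + 1 = i' → t i' ≤ t i) :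
    ∀ i j : Fin n, i ≤ j → t j ≤ t i := by
  have key : ∀ (k : ℕ) (i j : Fin n), (j : ℕ) = i + k → t j ≤ t i := by
    intro k
    induction k with
    | zero =>
      intro i j hij
      have : j = i := Fin.ext hij
      rw [this]
    | succ k ih =>
      intro i j hij
      have hlt : (i : ℕ) + k < n := by
        have := j.2
        omega
      have h1 := ih i ⟨i + k, hlt⟩ rfl
      have h2 := h ⟨i + k, hlt⟩ j (by simp only; omega)
      exact h2.trans h1
  intro i j hij
  exact key (j - i) i j (by have : (i : ℕ) ≤ j := hij; omega)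

end A3

theorem A3 (h4 : S_A4) : S_A3 := by
  intro κ _ n l c p hp hc hcp
  set D : ℝ := max 0 (-Real.log p) with hD
  have hD0 : 0 ≤ D := le_max_left _ _
  have hDp : -Real.log p ≤ D := le_max_right _ _
  have hlog2 : 0 ≤ Real.log 2 := Real.log_nonneg (by norm_num)
  refine ⟨Real.log 2 + n * D, by positivity, ?_⟩
  intro r hr0 hr1
  have hL : 0 ≤ Real.log (1 / (1 - r)) := by
    apply Real.log_nonneg
    rw [le_div_iff₀ (by linarith)]
    linarith
  by_cases hdet : Matrix.det (Matrix.of c) = 0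
  · simp [hdet]
  -- bounds for `1 - c_i x`
  have hs1 : ∀ x : Fin n → ℝ, (∀ k, |l k ⬝ᵥ x| ≤ r) → ∀ i, 1 - r ≤ 1 - a3A c x i := by
    intro x hx i
    have h1 : c i ⬝ᵥ (r⁻¹ • x) ≤ 1 := by
      apply hc
      intro k
      rw [dotProduct_smul, smul_eq_mul, abs_mul, abs_of_pos (inv_pos.2 hr0)]
      calc r⁻¹ * |l k ⬝ᵥ x| ≤ r⁻¹ * r := by
            apply mul_le_mul_of_nonneg_left (hx k) (inv_pos.2 hr0).le
        _ = 1 := inv_mul_cancel₀ hr0.ne'
    rw [dotProduct_smul, smul_eq_mul, inv_mul_le_iff₀ hr0, mul_one] at h1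
    rw [a3A_apply]
    linarith
  have hs2 : ∀ x : Fin n → ℝ, (∀ k, |l k ⬝ᵥ x| ≤ r) → ∀ i, 1 - a3A c x i ≤ 2 := by
    intro x hx i
    have h1 : c i ⬝ᵥ (-x) ≤ 1 := by
      apply hc
      intro k
      rw [dotProduct_neg, abs_neg]
      exact (hx k).trans hr1.le
    rw [dotProduct_neg] at h1
    rw [a3A_apply]
    linarith
  have hs0 : ∀ x : Fin n → ℝ, (∀ k, |l k ⬝ᵥ x| ≤ r) → ∀ i, 0 < 1 - a3A c x i :=
    fun x hx i => lt_of_lt_of_le (by linarith) (hs1 x hx i)
  set U : Set (Fin n → ℝ) := {x : Fin n → ℝ | ∀ k, |l k ⬝ᵥ x| ≤ r} with hU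
  have hUm : MeasurableSet U := by
    rw [hU, Set.setOf_forall]
    refine MeasurableSet.iInter fun k => ?_
    refine measurableSet_le ?_ measurable_const
    have : Continuous fun x : Fin n → ℝ => |l k ⬝ᵥ x| := by
      unfold dotProduct
      fun_prop
    exact this.measurable
  have hinj : Set.InjOn (a3f c D) U := by
    intro x hx y hy hxy
    have h1 : ∀ i, a3A c x i = a3A c y i := by
      intro i
      have h2 := congrFun hxy i
      simp only [a3f] at h2
      have h3 : Real.log (1 - a3A c x i) = Real.log (1 - a3A c y i) := by linarith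
      have h4 := Real.log_injOn_pos (Set.mem_Ioi.2 (hs0 x hx i)) (Set.mem_Ioi.2 (hs0 y hy i)) h3
      linarith
    have h2 : (Matrix.of c).mulVec x = (Matrix.of c).mulVec y := by
      funext i
      have := h1 i
      rw [a3A_apply, a3A_apply] at this
      exact this
    have h3 : IsUnit (Matrix.of c).det := isUnit_iff_ne_zero.2 hdet
    exact Matrix.mulVec_injective_of_isUnit ((Matrix.isUnit_iff_isUnit_det _).2 h3) h2
  have hlin : ∫⁻ x in U, ENNReal.ofReal (|Matrix.det (Matrix.of c)| * ∏ i, (1 - c i ⬝ᵥ x)⁻¹) =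
      ∫⁻ x in U, ENNReal.ofReal |(a3f' c x).det| := by
    apply setLIntegral_congr_fun hUm
    intro x hx
    simp only
    rw [a3f'_det, abs_mul, mul_comm]
    congr 2
    rw [abs_of_pos (Finset.prod_pos fun i _ => inv_pos.2 (hs0 x hx i))]
    refine Finset.prod_congr rfl fun i _ => ?_
    rw [a3A_apply]
  rw [hlin, lintegral_abs_det_fderiv_eq_addHaar_image volume hUm
    (fun x hx => (a3f_hasFDerivAt c D x (hs0 x hx)).hasFDerivWithinAt) hinj]
  set a : ℝ := -Real.log 2 - n * D with ha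
  set b : ℝ := Real.log (1 / (1 - r)) with hb
  have hab : a ≤ b := by
    have : 0 ≤ (n : ℝ) * D := by positivity
    linarith
  have hsub : a3f c D '' U ⊆
      {t : Fin n → ℝ | (∀ i j, i ≤ j → t j ≤ t i) ∧ ∀ i, a ≤ t i ∧ t i ≤ b} := by
    rintro _ ⟨x, hx, rfl⟩
    refine ⟨?_, ?_⟩
    · apply a3_chain
      intro i i' hii
      have h1 := hcp x (fun k => (hx k).trans hr1.le) i i' hii
      rw [← a3A_apply, ← a3A_apply] at h1
      have h2 : Real.log p + Real.log (1 - a3A c x i) ≤ Real.log (1 - a3A c x i') := by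
        rw [← Real.log_mul hp.ne' (hs0 x hx i).ne']
        exact Real.log_le_log (mul_pos hp (hs0 x hx i)) h1
      simp only [a3f]
      rw [← hii]
      push_cast
      linarith
    · intro i
      simp only [a3f]
      have h1 : Real.log (1 - a3A c x i) ≤ Real.log 2 :=
        Real.log_le_log (hs0 x hx i) (hs2 x hx i)
      have h2 : Real.log (1 - r) ≤ Real.log (1 - a3A c x i) :=
        Real.log_le_log (by linarith) (hs1 x hx i)
      have h3 : b = -Real.log (1 - r) := by
        rw [hb, one_div, Real.log_inv]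
      have h4 : ((i : ℕ) : ℝ) * D ≤ n * D := by
        apply mul_le_mul_of_nonneg_right _ hD0
        exact_mod_cast i.2.le
      have h5 : 0 ≤ ((i : ℕ) : ℝ) * D := by positivity
      constructor
      · rw [ha]; linarith
      · rw [h3]; linarith
  refine (measure_mono hsub).trans ((h4 n a b hab).trans ?_)
  apply ENNReal.ofReal_le_ofReal
  have : b - a = b + (Real.log 2 + n * D) := by rw [ha]; ring
  rw [this]

end H363KF
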