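import Pool.Agent.H363R3.KF.Stm

/-!
KALAI'S FLAG CONJECTURE, task A4: volume of the set of monotone sequences (helper847).
-/

set_option autoImplicit false

noncomputable section

open MeasureTheory Filter Topology
open scoped BigOperators Matrix ENNReal

namespace H363KF

namespace A4aux

/-- decreasing sequences in `[a,b]` -/
def Ms (n : ℕ) (a b : ℝ) : Set (Fin n → ℝ) :=
  {t | (∀ i j, i ≤ j → t j ≤ t i) ∧ ∀ i, a ≤ t i ∧ t i ≤ b}

/-- the same set in product coordinates -/
def Sp (n : ℕ) (a b : ℝ) : Set (ℝ × (Fin n → ℝ)) :=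
  {p | (a ≤ p.1 ∧ p.1 ≤ b) ∧ (∀ i j, i ≤ j → p.2 j ≤ p.2 i) ∧ ∀ i, a ≤ p.2 i ∧ p.2 i ≤ p.1}

lemma closed_Sp (n : ℕ) (a b : ℝ) : IsClosed (Sp n a b) := by
  unfold Sp
  simp only [Set.ofPred_and, Set.ofPred_forall]
  refine IsClosed.inter (IsClosed.inter ?_ ?_) (IsClosed.inter ?_ ?_)
  · exact isClosed_le continuous_const continuous_fst
  · exact isClosed_le continuous_fst continuous_const
  · refine isClosed_iInter fun i => isClosed_iInter fun j => isClosed_iInter fun _ => ?_
    exact isClosed_le ((continuous_apply j).comp continuous_snd)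
      ((continuous_apply i).comp continuous_snd)
  · refine isClosed_iInter fun i => IsClosed.inter ?_ ?_
    · exact isClosed_le continuous_const ((continuous_apply i).comp continuous_snd)
    · exact isClosed_le ((continuous_apply i).comp continuous_snd) continuous_fst

lemma sub_pre (n : ℕ) (a b : ℝ) :
    Ms (n + 1) a b ⊆ (MeasurableEquiv.piFinSuccAbove (fun _ : Fin (n + 1) => ℝ) 0) ⁻¹' Sp n a b := by
  intro t ht
  have e : (MeasurableEquiv.piFinSuccAbove (fun _ : Fin (n + 1) => ℝ) 0) t =
      (t 0, fun i : Fin n => t i.succ) := by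
    rfl
  rw [Set.mem_preimage, e]
  refine ⟨ht.2 0, fun i j hij => ht.1 _ _ (Fin.succ_le_succ_iff.mpr hij), fun i => ⟨(ht.2 _).1, ?_⟩⟩
  exact ht.1 0 i.succ (Fin.zero_le _)

lemma int_eq (n : ℕ) (a b : ℝ) (hab : a ≤ b) :
    ∫⁻ t in Set.Icc a b, ENNReal.ofReal ((t - a) ^ n / n.factorial) =
      ENNReal.ofReal ((b - a) ^ (n + 1) / (n + 1).factorial) := by
  have hc : Continuous fun t : ℝ => (t - a) ^ n / (n.factorial : ℝ) := by fun_prop
  rw [← ofReal_integral_eq_lintegral_ofReal]
  · congr 1
    rw [integral_Icc_eq_integral_Ioc, ← intervalIntegral.integral_of_le hab,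
      intervalIntegral.integral_div,
      intervalIntegral.integral_comp_sub_right (fun x => x ^ n) a, integral_pow]
    rw [Nat.factorial_succ]
    have h1 : (n.factorial : ℝ) ≠ 0 := by positivity
    have h2 : ((n : ℝ) + 1) ≠ 0 := by positivity
    push_cast
    rw [sub_self, zero_pow (Nat.succ_ne_zero n), sub_zero]
    field_simp
  · exact hc.continuousOn.integrableOn_Icc
  · refine (ae_restrict_iff' measurableSet_Icc).mpr (ae_of_all _ fun t ht => ?_)
    have : 0 ≤ t - a := by linarith [ht.1]
    show (0 : ℝ) ≤ (t - a) ^ n / n.factorial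
    positivity

end A4aux

open A4aux in
theorem A4 : S_A4 := by
  intro n
  induction n with
  | zero =>
    intro a b _
    refine (measure_mono (Set.subset_univ _)).trans ?_
    rw [volume_pi, Measure.pi_univ]
    simp
  | succ n ih =>
    intro a b hab
    have hmp := volume_preserving_piFinSuccAbove (fun _ : Fin (n + 1) => ℝ) 0
    have hm := (closed_Sp n a b).measurableSet
    calc volume (Ms (n + 1) a b)
        ≤ volume ((MeasurableEquiv.piFinSuccAbove (fun _ : Fin (n + 1) => ℝ) 0) ⁻¹' Sp n a b) :=
          measure_mono (sub_pre n a b)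
      _ = volume (Sp n a b) := hmp.measure_preimage hm.nullMeasurableSet
      _ = ∫⁻ t, volume (Prod.mk t ⁻¹' Sp n a b) := by
          rw [Measure.volume_eq_prod, Measure.prod_apply hm]
      _ ≤ ∫⁻ t, (Set.Icc a b).indicator
            (fun t => ENNReal.ofReal ((t - a) ^ n / n.factorial)) t := by
          refine lintegral_mono fun t => ?_
          by_cases ht : t ∈ Set.Icc a b
          · rw [Set.indicator_of_mem ht]
            refine (measure_mono ?_).trans (ih a t ht.1)
            intro s hs
            exact hs.2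
          · rw [Set.indicator_of_notMem ht]
            have : Prod.mk t ⁻¹' Sp n a b = ∅ := by
              rw [Set.eq_empty_iff_forall_notMem]
              intro s hs
              exact ht hs.1
            rw [this, measure_empty]
      _ = ∫⁻ t in Set.Icc a b, ENNReal.ofReal ((t - a) ^ n / n.factorial) :=
          lintegral_indicator measurableSet_Icc _
      _ = _ := int_eq n a b hab

end H363KF
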