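import Pool.Agent.H363R3.KF.Stm

/-!
KALAI'S FLAG CONJECTURE, task A5: the limit `r → 1`.
-/

set_option autoImplicit false

noncomputable section

open MeasureTheory Filter Topology
open scoped BigOperators Matrix ENNReal

namespace H363KF

theorem A5 : S_A5 := by
  intro n N C hC h
  have key : ∀ L : ℝ, 0 < L → (2 : ℝ) ^ n * n.factorial ≤ N * (1 + C / L) ^ n := by
    intro L hL
    have hE1 : Real.exp (-L) < 1 := Real.exp_lt_one_iff.2 (by linarith)
    have hE0 := Real.exp_pos (-L)
    have h1 := h (1 - Real.exp (-L)) (by linarith) (by linarith)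
    have e1 : 1 - (1 - Real.exp (-L)) = Real.exp (-L) := by ring
    rw [e1] at h1
    have e2 : Real.log (1 / Real.exp (-L)) = L := by
      rw [one_div, ← Real.exp_neg, Real.log_exp, neg_neg]
    rw [e2] at h1
    have h2 : L ≤ Real.log ((1 + (1 - Real.exp (-L))) / Real.exp (-L)) := by
      calc L = Real.log (1 / Real.exp (-L)) := e2.symm
        _ ≤ _ := by
          apply Real.log_le_log (by positivity)
          gcongr
          linarith
    have h3 : (2 * L) ^ n ≤ N * ((L + C) ^ n / n.factorial) :=
      le_trans (pow_le_pow_left₀ (by positivity) (by linarith) n) h1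
    have hL' : 0 < L ^ n := by positivity
    have hf : (0 : ℝ) < n.factorial := by positivity
    have h4 : (2 : ℝ) ^ n * n.factorial * L ^ n ≤ N * (1 + C / L) ^ n * L ^ n := by
      have e : (1 + C / L) ^ n * L ^ n = (L + C) ^ n := by
        rw [← mul_pow]
        congr 1
        field_simp
      rw [mul_assoc (N : ℝ), e]
      rw [mul_pow, ← mul_div_assoc, le_div_iff₀ hf] at h3
      linarith
    exact le_of_mul_le_mul_right h4 hL'
  have lim : Tendsto (fun L : ℝ => (N : ℝ) * (1 + C / L) ^ n) atTop
      (𝓝 ((N : ℝ) * (1 + 0) ^ n)) :=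
    ((tendsto_const_nhds.add (tendsto_const_nhds.div_atTop tendsto_id)).pow n).const_mul _
  have h5 : (2 : ℝ) ^ n * n.factorial ≤ N * (1 + 0) ^ n :=
    ge_of_tendsto lim ((eventually_gt_atTop 0).mono key)
  rw [add_zero, one_pow, mul_one] at h5
  exact_mod_cast h5

end H363KF
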