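import Pool.Agent.H363R3.KF.Stm

/-!
KALAI'S FLAG CONJECTURE, task B: bipolar theorem in coordinates.
-/

set_option autoImplicit false

noncomputable section

open MeasureTheory Filter Topology
open scoped BigOperators Matrix ENNReal

namespace H363KF

/-- the span of `S` is everything if `conv S` has nonempty interior -/
theorem b_span {d : ℕ} (S : Finset (EE d)) (hi : (interior (PP S)).Nonempty) :
    Submodule.span ℝ (S : Set (EE d)) = ⊤ := by
  have h1 : PP S ⊆ (Submodule.span ℝ (S : Set (EE d)) : Set (EE d)) :=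
    convexHull_min Submodule.subset_span (Submodule.convex _)
  have h2 : (interior ((Submodule.span ℝ (S : Set (EE d)) : Submodule ℝ (EE d)) :
      Set (EE d))).Nonempty := hi.mono (interior_mono h1)
  exact Submodule.eq_top_of_nonempty_interior' _ h2

theorem b_zero {d : ℕ} (S : Finset (EE d)) (hi : (interior (PP S)).Nonempty)
    (hs : ∀ x ∈ PP S, -x ∈ PP S) : (0 : EE d) ∈ PP S := by
  obtain ⟨x, hx⟩ := hi
  have hx' := interior_subset hx
  have h := (convex_convexHull ℝ (S : Set (EE d))) hx' (hs x hx') (by norm_num : (0:ℝ) ≤ 1/2)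
    (by norm_num : (0:ℝ) ≤ 1/2) (by norm_num)
  have e : (1/2 : ℝ) • x + (1/2 : ℝ) • (-x) = 0 := by
    rw [smul_neg, add_neg_cancel]
  rw [e] at h
  exact h

theorem b_spans {d : ℕ} (S : Finset (EE d)) (hi : (interior (PP S)).Nonempty) :
    H712MA.Spans (fun s : {s // s ∈ S} => (s.1.ofLp : Fin d → ℝ)) := by
  have hsp := b_span S hi
  obtain ⟨f, hf, hspan, hli⟩ := Submodule.exists_fun_fin_finrank_span_eq ℝ (S : Set (EE d))
  have hd : Module.finrank ℝ (Submodule.span ℝ (S : Set (EE d))) = d := by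
    rw [hsp, finrank_top]
    simp
  let e : Fin d ≃ Fin (Module.finrank ℝ (Submodule.span ℝ (S : Set (EE d)))) :=
    finCongr hd.symm
  refine ⟨fun i => ⟨f (e i), hf (e i)⟩, ?_⟩
  have h1 : LinearIndependent ℝ (fun i => f (e i)) := hli.comp _ e.injective
  have h2 : LinearIndependent ℝ (fun i => (f (e i)).ofLp) :=
    h1.map' (WithLp.linearEquiv 2 ℝ (Fin d → ℝ)).toLinearMap (LinearEquiv.ker _)
  have h3 : IsUnit (Matrix.of fun i j => (f (e i)).ofLp j) :=
    Matrix.linearIndependent_rows_iff_isUnit.mp h2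
  have h4 := (Matrix.isUnit_iff_isUnit_det _).mp h3
  exact h4.ne_zero

theorem b_bipolar {d : ℕ} (S : Finset (EE d)) (h0 : (0 : EE d) ∈ PP S)
    (hs : ∀ x ∈ PP S, -x ∈ PP S) (z : EE d)
    (hz : ∀ x : Fin d → ℝ, (∀ s : {s // s ∈ S}, |(s.1.ofLp : Fin d → ℝ) ⬝ᵥ x| ≤ 1) →
      (z.ofLp : Fin d → ℝ) ⬝ᵥ x ≤ 1) : z ∈ PP S := by
  by_contra hnot
  have hcl : IsClosed (PP S) := (S.finite_toSet.isCompact_convexHull (𝕜 := ℝ)).isClosed
  obtain ⟨φ, u, h1, h2⟩ := geometric_hahn_banach_closed_point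
    (convex_convexHull ℝ (S : Set (EE d))) hcl hnot
  have hu : 0 < u := by simpa using h1 0 h0
  set v : EE d := (InnerProductSpace.toDual ℝ (EE d)).symm φ with hv
  have hφ : ∀ y : EE d, φ y = y.ofLp ⬝ᵥ v.ofLp := by
    intro y
    have := InnerProductSpace.toDual_symm_apply (𝕜 := ℝ) (x := y) (y := φ)
    rw [← this, EuclideanSpace.inner_eq_star_dotProduct]
    rfl
  have h3 := hz (u⁻¹ • v.ofLp) (fun s => by
    rw [dotProduct_smul, ← hφ, smul_eq_mul, abs_mul, abs_of_pos (inv_pos.mpr hu)]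
    have hsP : s.1 ∈ PP S := subset_convexHull ℝ _ s.2
    have a1 := h1 _ hsP
    have a2 := h1 _ (hs _ hsP)
    rw [map_neg] at a2
    have : |φ s.1| ≤ u := abs_le.mpr ⟨by linarith, a1.le⟩
    calc u⁻¹ * |φ s.1| ≤ u⁻¹ * u := by gcongr
      _ = 1 := inv_mul_cancel₀ hu.ne')
  rw [dotProduct_smul, ← hφ, smul_eq_mul] at h3
  have : u⁻¹ * u < u⁻¹ * φ z := by gcongr
  rw [inv_mul_cancel₀ hu.ne'] at this
  linarith

theorem b_polar {d : ℕ} (S : Finset (EE d)) (z : EE d) (hz : z ∈ PP S) (x : Fin d → ℝ)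
    (hx : ∀ s : {s // s ∈ S}, |(s.1.ofLp : Fin d → ℝ) ⬝ᵥ x| ≤ 1) :
    (z.ofLp : Fin d → ℝ) ⬝ᵥ x ≤ 1 := by
  have hlin : IsLinearMap ℝ (fun z : EE d => (z.ofLp : Fin d → ℝ) ⬝ᵥ x) :=
    ⟨fun a b => by simp [add_dotProduct], fun c a => by simp [smul_dotProduct]⟩
  have hconv : Convex ℝ {z : EE d | (z.ofLp : Fin d → ℝ) ⬝ᵥ x ≤ 1} := convex_halfSpace_le hlin 1
  have hsub : (S : Set (EE d)) ⊆ {z : EE d | (z.ofLp : Fin d → ℝ) ⬝ᵥ x ≤ 1} := fun s hs =>
    (le_abs_self _).trans (hx ⟨s, hs⟩)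
  exact convexHull_min hsub hconv hz

/-- task B -/
theorem B : S_B := fun _ S hi hs =>
  ⟨b_zero S hi hs, b_spans S hi, fun z hz => b_bipolar S (b_zero S hi hs) hs z hz,
    fun z hz x hx => b_polar S z hz x hx⟩

end H363KF
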