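import Pool.Agent.H363R3.KF.FStm

set_option autoImplicit false

noncomputable section

open MeasureTheory Filter Topology
open scoped BigOperators Matrix ENNReal

namespace H363KF

open H712MA (Lens gf gd af VV DS pk Spans E2 dt)

namespace TEF

lemma prod_le_aux {ι : Type} [DecidableEq ι] (s : Finset ι) (a b : ι → ℝ)
    (hb : ∀ i, 0 ≤ b i) (hab : ∀ i, b i ≤ a i) :
    ∏ i ∈ s, a i ≤ ∏ i ∈ s, b i + ∑ i ∈ s, ((a i - b i) * ∏ j ∈ s.erase i, a j) := by
  classical
  have ha : ∀ i, 0 ≤ a i := fun i => (hb i).trans (hab i)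
  induction s using Finset.induction_on with
  | empty => simp
  | insert i s hi ih =>
    have hS : 0 ≤ ∑ k ∈ s, ((a k - b k) * ∏ j ∈ s.erase k, a j) :=
      Finset.sum_nonneg fun k _ => mul_nonneg (sub_nonneg.2 (hab k))
        (Finset.prod_nonneg fun j _ => ha j)
    have h1 : ∑ k ∈ s, ((a k - b k) * ∏ j ∈ (insert i s).erase k, a j) =
        a i * ∑ k ∈ s, ((a k - b k) * ∏ j ∈ s.erase k, a j) := by
      rw [Finset.mul_sum]
      refine Finset.sum_congr rfl fun k hk => ?_
      have hne : i ≠ k := fun h => hi (h ▸ hk)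
      rw [Finset.erase_insert_of_ne hne, Finset.prod_insert (by simp [hi])]
      ring
    rw [Finset.prod_insert hi, Finset.prod_insert hi, Finset.sum_insert hi,
      Finset.erase_insert hi, h1]
    have h2 : b i * ∏ j ∈ s, a j ≤ b i * (∏ j ∈ s, b j +
        ∑ k ∈ s, ((a k - b k) * ∏ j ∈ s.erase k, a j)) := mul_le_mul_of_nonneg_left ih (hb i)
    have h3 : b i * ∑ k ∈ s, ((a k - b k) * ∏ j ∈ s.erase k, a j) ≤
        a i * ∑ k ∈ s, ((a k - b k) * ∏ j ∈ s.erase k, a j) :=
      mul_le_mul_of_nonneg_right (hab i) hS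
    nlinarith [h2, h3]

lemma prod_le {n : ℕ} (a b : Fin n → ℝ)
    (hb : ∀ i, 0 ≤ b i) (hab : ∀ i, b i ≤ a i) :
    ∏ i, a i ≤ ∏ i, b i + ∑ i, ∏ j, (if j = i then a j - b j else a j) := by
  refine (prod_le_aux Finset.univ a b hb hab).trans (le_of_eq ?_)
  congr 1
  refine Finset.sum_congr rfl fun i _ => ?_
  rw [← Finset.mul_prod_erase Finset.univ _ (Finset.mem_univ i)]
  rw [if_pos rfl]
  congr 1
  refine Finset.prod_congr rfl fun j hj => ?_
  rw [if_neg (Finset.ne_of_mem_erase hj)]

lemma continuous_pk {n : ℕ} (v : Fin n → ℝ) : Continuous (pk v) := by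
  have h : pk v = fun z => Complex.equivRealProdCLM.symm (v ⬝ᵥ z.1, v ⬝ᵥ z.2) := by
    funext z
    apply Complex.ext <;> simp [pk]
  rw [h]
  apply Complex.equivRealProdCLM.symm.continuous.comp
  unfold dotProduct
  fun_prop

lemma measurable_gd (L : Lens) (m : ℕ) (he : Measurable L.e) : Measurable (gd L m) := by
  classical
  have hW : MeasurableSet {p | p ∈ L.W} := L.isOpen.measurableSet
  unfold gd
  refine Measurable.ite hW ?_ measurable_const
  exact (measurable_const.mul (he.pow_const _)).mul (measurable_deriv _)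

lemma measurable_af (L : Lens) (m : ℕ) (he : Measurable L.e) : Measurable (af L m) := by
  unfold af
  exact (measurable_gd L m he).norm.pow_const _

end TEF

open TEF in
theorem EF (hF : H712MA.S_F) : S_EF := by
  classical
  intro ρ hρ0 hρ1 Λ κ _ r m hm l
  have hqm : Measurable Λ.q := Λ.meas_q
  have hem : Measurable Λ.L.e := Λ.meas_e
  have ham : Measurable (af Λ.L m) := measurable_af Λ.L m hem
  have ha0 : ∀ p, 0 ≤ af Λ.L m p := fun p => by unfold af; positivity
  have hq0 : ∀ p, 0 ≤ Λ.q p := Λ.q_nonneg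
  have hqa : ∀ p, Λ.q p * af Λ.L m p ≤ af Λ.L m p := by
    intro p
    by_cases hp : p ∈ Λ.L.W
    · have h1 : Λ.q p ≤ 1 := Λ.q_le p hp
      calc Λ.q p * af Λ.L m p ≤ 1 * af Λ.L m p := mul_le_mul_of_nonneg_right h1 (ha0 p)
        _ = af Λ.L m p := one_mul _
    · have h0 : af Λ.L m p = 0 := by
        unfold af gd
        rw [if_neg hp]
        simp
      rw [h0]; simp
  -- the functions
  set bb : Fin (r+1) → Fin (r+1) → ℂ → ℝ≥0∞ := fun i j p =>
    if j = i then ENNReal.ofReal (af Λ.L m p * (1 - Λ.q p)) else ENNReal.ofReal (af Λ.L m p) with hbb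
  have hbbm : ∀ i j, Measurable (bb i j) := by
    intro i j
    by_cases hij : j = i
    · simp only [hbb, if_pos hij]
      exact ENNReal.measurable_ofReal.comp (ham.mul (measurable_const.sub hqm))
    · simp only [hbb, if_neg hij]
      exact ENNReal.measurable_ofReal.comp ham
  have hpt : ∀ z : E2 (r+1), ENNReal.ofReal (DS l (fun k => af Λ.L m (pk (l k) z))) ≤
      ENNReal.ofReal (DS l (fun k => Λ.q (pk (l k) z) * af Λ.L m (pk (l k) z))) +
      ∑ f : Fin (r+1) → κ, ∑ i : Fin (r+1),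
        ENNReal.ofReal ((dt l f)^2) * ∏ j, bb i j (pk (l (f j)) z) := by
    intro z
    have e1 : ∀ (f : Fin (r+1) → κ) (i : Fin (r+1)),
        ENNReal.ofReal ((dt l f)^2) * ∏ j, bb i j (pk (l (f j)) z) =
        ENNReal.ofReal ((dt l f)^2 * ∏ j, (if j = i then
          af Λ.L m (pk (l (f j)) z) - Λ.q (pk (l (f j)) z) * af Λ.L m (pk (l (f j)) z)
          else af Λ.L m (pk (l (f j)) z))) := by
      intro f i
      rw [ENNReal.ofReal_mul (sq_nonneg _)]
      congr 1
      rw [ENNReal.ofReal_prod_of_nonneg]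
      · refine Finset.prod_congr rfl fun j _ => ?_
        by_cases hij : j = i
        · simp only [hbb, if_pos hij]
          congr 1
          ring
        · simp only [hbb, if_neg hij]
      · intro j _
        by_cases hij : j = i
        · rw [if_pos hij]
          exact sub_nonneg.2 (hqa _)
        · rw [if_neg hij]
          exact ha0 _
    have hnn : ∀ (f : Fin (r+1) → κ) (i : Fin (r+1)), 0 ≤ (dt l f)^2 * ∏ j, (if j = i then
          af Λ.L m (pk (l (f j)) z) - Λ.q (pk (l (f j)) z) * af Λ.L m (pk (l (f j)) z)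
          else af Λ.L m (pk (l (f j)) z)) := by
      intro f i
      refine mul_nonneg (sq_nonneg _) (Finset.prod_nonneg fun j _ => ?_)
      by_cases hij : j = i
      · rw [if_pos hij]
        exact sub_nonneg.2 (hqa _)
      · rw [if_neg hij]
        exact ha0 _
    have hD0 : 0 ≤ DS l (fun k => Λ.q (pk (l k) z) * af Λ.L m (pk (l k) z)) := by
      unfold DS
      exact Finset.sum_nonneg fun f _ => mul_nonneg
        (Finset.prod_nonneg fun j _ => mul_nonneg (hq0 _) (ha0 _)) (sq_nonneg _)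
    simp_rw [e1]
    rw [show (∑ f : Fin (r+1) → κ, ∑ i : Fin (r+1), ENNReal.ofReal ((dt l f)^2 * ∏ j,
          (if j = i then
          af Λ.L m (pk (l (f j)) z) - Λ.q (pk (l (f j)) z) * af Λ.L m (pk (l (f j)) z)
          else af Λ.L m (pk (l (f j)) z)))) =
        ENNReal.ofReal (∑ f : Fin (r+1) → κ, ∑ i : Fin (r+1), ((dt l f)^2 * ∏ j,
          (if j = i then
          af Λ.L m (pk (l (f j)) z) - Λ.q (pk (l (f j)) z) * af Λ.L m (pk (l (f j)) z)
          else af Λ.L m (pk (l (f j)) z)))) by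
      rw [ENNReal.ofReal_sum_of_nonneg (fun f _ => Finset.sum_nonneg fun i _ => hnn f i)]
      refine Finset.sum_congr rfl fun f _ => ?_
      rw [ENNReal.ofReal_sum_of_nonneg (fun i _ => hnn f i)]]
    rw [← ENNReal.ofReal_add hD0
      (Finset.sum_nonneg fun f _ => Finset.sum_nonneg fun i _ => hnn f i)]
    apply ENNReal.ofReal_le_ofReal
    unfold DS
    rw [← Finset.sum_add_distrib]
    refine Finset.sum_le_sum fun f _ => ?_
    have h := prod_le (fun j => af Λ.L m (pk (l (f j)) z))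
      (fun j => Λ.q (pk (l (f j)) z) * af Λ.L m (pk (l (f j)) z))
      (fun j => mul_nonneg (hq0 _) (ha0 _)) (fun j => hqa _)
    have h' := mul_le_mul_of_nonneg_left h (sq_nonneg (dt l f))
    rw [mul_add, Finset.mul_sum] at h'
    calc (∏ i, af Λ.L m (pk (l (f i)) z)) * dt l f ^ 2 =
        dt l f ^ 2 * ∏ i, af Λ.L m (pk (l (f i)) z) := by ring
      _ ≤ _ := h'
      _ = _ := by rw [mul_comm (dt l f ^ 2) (∏ i, Λ.q (pk (l (f i)) z) * af Λ.L m (pk (l (f i)) z))]
  have hmeas : ∀ (f : Fin (r+1) → κ) (i : Fin (r+1)), Measurable (fun z : E2 (r+1) =>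
      ENNReal.ofReal ((dt l f)^2) * ∏ j, bb i j (pk (l (f j)) z)) := by
    intro f i
    refine measurable_const.mul ?_
    exact Finset.measurable_prod _ fun j _ => (hbbm i j).comp (continuous_pk _).measurable
  have hterm : ∀ (f : Fin (r+1) → κ) (i : Fin (r+1)),
      ∫⁻ z : E2 (r+1), ENNReal.ofReal ((dt l f)^2) * ∏ j, bb i j (pk (l (f j)) z) ≤
      ENNReal.ofReal (m * Real.pi) ^ r * ∫⁻ p, ENNReal.ofReal (af Λ.L m p * (1 - Λ.q p)) := by
    intro f i
    refine (hF κ (r+1) l f (bb i) (hbbm i)).trans (le_of_eq ?_)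
    rw [← Finset.mul_prod_erase Finset.univ _ (Finset.mem_univ i)]
    have e1 : ∫⁻ p, bb i i p = ∫⁻ p, ENNReal.ofReal (af Λ.L m p * (1 - Λ.q p)) := by
      simp only [hbb, if_pos]
    have e2 : ∏ j ∈ Finset.univ.erase i, ∫⁻ p, bb i j p = ENNReal.ofReal (m * Real.pi) ^ r := by
      rw [Finset.prod_congr rfl (g := fun _ => ENNReal.ofReal (m * Real.pi))]
      · rw [Finset.prod_const, Finset.card_erase_of_mem (Finset.mem_univ i)]
        simp
      · intro j hj
        simp only [hbb, if_neg (Finset.ne_of_mem_erase hj)]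
        exact Λ.area m hm
    rw [e1, e2, mul_comm]
  calc ∫⁻ z in {z : E2 (r + 1) | VV Λ.L m l z < 1}, ENNReal.ofReal (DS l (fun k => af Λ.L m (pk (l k) z)))
      ≤ ∫⁻ z in {z : E2 (r + 1) | VV Λ.L m l z < 1},
        (ENNReal.ofReal (DS l (fun k => Λ.q (pk (l k) z) * af Λ.L m (pk (l k) z))) +
        ∑ f : Fin (r+1) → κ, ∑ i : Fin (r+1),
          ENNReal.ofReal ((dt l f)^2) * ∏ j, bb i j (pk (l (f j)) z)) :=
        lintegral_mono fun z => hpt z
    _ = (∫⁻ z in {z : E2 (r + 1) | VV Λ.L m l z < 1},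
        ENNReal.ofReal (DS l (fun k => Λ.q (pk (l k) z) * af Λ.L m (pk (l k) z)))) +
        ∫⁻ z in {z : E2 (r + 1) | VV Λ.L m l z < 1}, ∑ f : Fin (r+1) → κ, ∑ i : Fin (r+1),
          ENNReal.ofReal ((dt l f)^2) * ∏ j, bb i j (pk (l (f j)) z) := by
        refine lintegral_add_right _ ?_
        exact Finset.measurable_sum _ fun f _ => Finset.measurable_sum _ fun i _ => hmeas f i
    _ ≤ _ := by
        gcongr
        calc ∫⁻ z in {z : E2 (r + 1) | VV Λ.L m l z < 1}, ∑ f : Fin (r+1) → κ, ∑ i : Fin (r+1),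
              ENNReal.ofReal ((dt l f)^2) * ∏ j, bb i j (pk (l (f j)) z)
            ≤ ∫⁻ z : E2 (r+1), ∑ f : Fin (r+1) → κ, ∑ i : Fin (r+1),
              ENNReal.ofReal ((dt l f)^2) * ∏ j, bb i j (pk (l (f j)) z) :=
              setLIntegral_le_lintegral _ _
          _ = ∑ f : Fin (r+1) → κ, ∑ i : Fin (r+1), ∫⁻ z : E2 (r+1),
              ENNReal.ofReal ((dt l f)^2) * ∏ j, bb i j (pk (l (f j)) z) := by
              rw [lintegral_finsetSum _ fun f _ => Finset.measurable_sum _ fun i _ => hmeas f i]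
              refine Finset.sum_congr rfl fun f _ => ?_
              rw [lintegral_finsetSum _ fun i _ => hmeas f i]
          _ ≤ ∑ f : Fin (r+1) → κ, ∑ i : Fin (r+1), (ENNReal.ofReal (m * Real.pi) ^ r *
              ∫⁻ p, ENNReal.ofReal (af Λ.L m p * (1 - Λ.q p))) :=
              Finset.sum_le_sum fun f _ => Finset.sum_le_sum fun i _ => hterm f i
          _ = _ := by
              rw [Finset.sum_const, Finset.sum_const, Finset.card_univ, Finset.card_univ,
                Fintype.card_pi_const, Fintype.card_fin, nsmul_eq_mul, nsmul_eq_mul]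
              push_cast
              ring

end H363KF
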