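import Pool.Agent.H363R3.KF.FStm

set_option autoImplicit false

noncomputable section

open MeasureTheory Filter Topology
open scoped BigOperators Matrix ENNReal

namespace H363KF

open H712MA (Lens gf gd af VV DS pk Spans E2)

theorem FL_cc_pos {r : ℝ} (h0 : 0 < r) (h1 : r < 1) : 0 < cc r := by
  unfold cc
  refine div_pos (Real.log_pos ?_) Real.pi_pos
  rw [lt_div_iff₀ (by linarith)]
  linarith

theorem FL_q_le {L : Lens} {u : ℂ} {r : ℝ} (h1 : r < 1) (p : ℂ) (hp : p ∈ L.W) (hX : |p.re| < r)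
    (hA : |4 / Real.pi * (AT ((starRingEnd ℂ) u * L.e p)).im| < 1) : qF L u p ≤ 1 := by
  unfold qF
  rw [Set.indicator_of_mem hp]
  unfold wF
  obtain ⟨hX1, hX2⟩ := abs_lt.1 hX
  have hd : dF L u p = 4 / Real.pi * (AT ((starRingEnd ℂ) u * L.e p)).im - p.re := rfl
  generalize 4 / Real.pi * (AT ((starRingEnd ℂ) u * L.e p)).im = A at hA hd
  obtain ⟨hA1, hA2⟩ := abs_lt.1 hA
  by_cases h : 0 < dF L u p
  · rw [if_pos h, abs_of_pos h, abs_of_pos (by
      apply div_pos one_pos
      linarith), mul_one_div, div_le_one (by linarith)]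
    linarith
  · rw [if_neg h, abs_neg, abs_of_nonpos (not_lt.1 h), abs_of_pos (by
      apply div_pos one_pos
      linarith), mul_one_div, div_le_one (by linarith)]
    linarith

theorem FL (h8 : S_O8) (h10 : S_O10) (h11 : S_O11) : S_FL := by
  intro r h0 h1
  obtain ⟨L, u, hF⟩ := h8 (cc r) (FL_cc_pos h0 h1)
  obtain ⟨hre, hA, hmono, y0, hder⟩ := h10 r h0 h1 L u hF
  obtain ⟨hmq, harea, hconc⟩ := h11 r h0 h1 L u hF
  refine ⟨{
    L := L
    q := qF L u
    w := wF L u
    y0 := y0
    re_lt := hre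
    meas_e := hF.2.2.2.2.1
    meas_q := hmq
    cont := hF.2.2.2.2.2
    q_nonneg := ?_
    q_le := ?_
    w_eq := ?_
    mono := hmono
    der := hder
    area := harea
    conc := hconc }⟩
  · intro p
    unfold qF
    exact Set.indicator_nonneg (fun p _ => mul_nonneg (abs_nonneg _) (abs_nonneg _)) p
  · intro p hp
    exact FL_q_le h1 p hp (hre p hp) (hA p hp)
  · intro p _
    unfold wF
    split_ifs
    · exact Or.inl rfl
    · exact Or.inr rfl

end H363KF
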