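import Pool.Agent.H363R3.KF.FStm

/-!
SYMMETRIC FUNK-MAHLER INEQUALITY, task FMA: assembly (helper847, adapted from helper114's
`Pool.Agent.H712R2.MA.Z`).
-/

set_option autoImplicit false

noncomputable section

open MeasureTheory Filter Topology
open scoped BigOperators Matrix ENNReal

namespace H363KF

open H712MA (Lens gf gd af VV DS pk Spans E2)

namespace FMAaux

theorem DS_nonneg {κ : Type} [Fintype κ] {n : ℕ} (l : κ → Fin n → ℝ) (a : κ → ℝ)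
    (ha : ∀ k, 0 ≤ a k) : 0 ≤ DS l a := by
  unfold DS
  exact Finset.sum_nonneg fun f _ =>
    mul_nonneg (Finset.prod_nonneg fun i _ => ha (f i)) (sq_nonneg _)

theorem DS_smul {κ : Type} [Fintype κ] {n : ℕ} (l : κ → Fin n → ℝ) (a : κ → ℝ) (c : ℝ) :
    DS l (fun k => c * a k) = c ^ n * DS l a := by
  unfold DS
  rw [Finset.mul_sum]
  refine Finset.sum_congr rfl fun f _ => ?_
  rw [Finset.prod_mul_distrib, Finset.prod_const, Finset.card_univ, Fintype.card_fin]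
  ring

theorem af_nonneg (L : Lens) (m : ℕ) (p : ℂ) : 0 ≤ af L m p := sq_nonneg _

/-- the case of dimension zero -/
theorem dim0 {κ : Type} [Fintype κ] (l : κ → Fin 0 → ℝ) (r : ℝ) (hr : 0 < r) :
    ENNReal.ofReal ((2 * Real.log ((1 + r) / (1 - r))) ^ 0) ≤
      (Nat.factorial 0 : ℝ≥0∞) *
        ∫⁻ x in {x : Fin 0 → ℝ | ∀ k, |l k ⬝ᵥ x| ≤ r}, volume (PK l x) := by
  have h1 : {x : Fin 0 → ℝ | ∀ k, |l k ⬝ᵥ x| ≤ r} = Set.univ := by
    ext x
    simp [dotProduct, hr.le]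
  have h2 : ∀ x, PK l x = Set.univ := by
    intro x
    ext y
    simp [PK, dotProduct]
  have h3 : volume (Set.univ : Set (Fin 0 → ℝ)) = 1 := by
    rw [MeasureTheory.volume_pi, MeasureTheory.Measure.pi_of_empty]
    simp
  rw [h1]
  simp only [h2, h3]
  rw [lintegral_const, Measure.restrict_univ, h3]
  simp

theorem cc_pos (r : ℝ) (hr : 0 < r) (hr1 : r < 1) : 0 < cc r := by
  unfold cc
  refine div_pos (Real.log_pos ?_) Real.pi_pos
  rw [lt_div_iff₀ (by linarith)]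
  linarith

/-- the basic inequality for one `m` and one cut-off -/
theorem basic (hC6 : H712MA.S_C6) (hR2 : S_R2F) (hE : S_EF) (hS : H712MA.S_S)
    (ρ : ℝ) (hρ : 0 < ρ) (hρ1 : ρ < 1) (Λ : FLens ρ) {κ : Type} [Fintype κ] (r : ℕ)
    (l : κ → Fin (r + 1) → ℝ)
    (hl : Spans l) (m : ℕ) (hm : 1 ≤ m) (v0 : ℝ) (h0 : 0 < v0) (h1 : v0 < 1) :
    ENNReal.ofReal ((2 * Real.log ((1 + ρ) / (1 - ρ)) * v0) ^ (r + 1)) ≤
      ((r + 1).factorial : ℝ≥0∞) *
        (∫⁻ x in {x : Fin (r + 1) → ℝ | ∀ k, |l k ⬝ᵥ x| ≤ ρ}, volume (PK l x)) +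
      (ENNReal.ofReal ((2 * cc ρ) ^ (r + 1)) * ((Fintype.card κ : ℝ≥0∞) ^ (r + 1) *
        ((r + 1 : ℕ) : ℝ≥0∞)) * ENNReal.ofReal Real.pi ^ r) *
      ((∫⁻ p, ENNReal.ofReal (af Λ.L m p * (1 - Λ.q p))) / (m : ℝ≥0∞)) := by
  obtain ⟨ψ, v1, hcut, hψ1, hint⟩ := hS v0 h0 h1
  have hmr : (0 : ℝ) < m := by exact_mod_cast hm
  have hpi := Real.pi_pos
  have hcc := cc_pos ρ hρ hρ1
  have hlog : cc ρ * Real.pi = Real.log ((1 + ρ) / (1 - ρ)) := by
    unfold cc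
    field_simp
  have hlog0 : 0 < Real.log ((1 + ρ) / (1 - ρ)) := by
    rw [← hlog]
    positivity
  -- complex side
  have e1 : ((m : ℝ) * Real.pi * v0) ^ (r + 1) ≤
      ∫ z : E2 (r + 1), ψ (VV Λ.L m l z) * DS l (fun k => af Λ.L m (pk (l k) z)) := by
    refine le_trans ?_ (hC6 κ r Λ.L m hm l hl ψ v1 hcut)
    have h2 := hint (r + 1)
    have hf : (0 : ℝ) < ((r + 1).factorial : ℝ) := by
      exact_mod_cast Nat.factorial_pos _
    calc ((m : ℝ) * Real.pi * v0) ^ (r + 1) =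
        ((r + 1).factorial : ℝ) * (m * Real.pi) ^ (r + 1) *
          (v0 ^ (r + 1) / (r + 1).factorial) := by
          field_simp
          rw [← mul_pow]
      _ ≤ _ := mul_le_mul_of_nonneg_left h2 (by positivity)
  have e2 : ENNReal.ofReal (((m : ℝ) * Real.pi * v0) ^ (r + 1)) ≤
      ∫⁻ z in {z : E2 (r + 1) | VV Λ.L m l z < 1},
        ENNReal.ofReal (DS l (fun k => af Λ.L m (pk (l k) z))) := by
    calc ENNReal.ofReal (((m : ℝ) * Real.pi * v0) ^ (r + 1))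
        ≤ ENNReal.ofReal (∫ z : E2 (r + 1), ψ (VV Λ.L m l z) *
            DS l (fun k => af Λ.L m (pk (l k) z))) := ENNReal.ofReal_le_ofReal e1
      _ ≤ ‖∫ z : E2 (r + 1), ψ (VV Λ.L m l z) * DS l (fun k => af Λ.L m (pk (l k) z))‖ₑ := by
          rw [← ofReal_norm]
          exact ENNReal.ofReal_le_ofReal (le_abs_self _)
      _ ≤ ∫⁻ z : E2 (r + 1), ‖ψ (VV Λ.L m l z) * DS l (fun k => af Λ.L m (pk (l k) z))‖ₑ :=
          enorm_integral_le_lintegral_enorm _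
      _ ≤ ∫⁻ z : E2 (r + 1), ({z : E2 (r + 1) | VV Λ.L m l z < 1}).indicator
            (fun z => ENNReal.ofReal (DS l (fun k => af Λ.L m (pk (l k) z)))) z := by
          refine lintegral_mono fun z => ?_
          have hD : 0 ≤ DS l (fun k => af Λ.L m (pk (l k) z)) :=
            DS_nonneg l _ fun k => af_nonneg Λ.L m _
          by_cases hz : VV Λ.L m l z < 1
          · rw [Set.indicator_of_mem (by exact hz)]
            rw [← ofReal_norm]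
            refine ENNReal.ofReal_le_ofReal ?_
            rw [Real.norm_eq_abs, abs_mul, abs_of_nonneg (hcut.nonneg _), abs_of_nonneg hD]
            calc ψ (VV Λ.L m l z) * DS l (fun k => af Λ.L m (pk (l k) z)) ≤
                1 * DS l (fun k => af Λ.L m (pk (l k) z)) :=
                  mul_le_mul_of_nonneg_right (hψ1 _) hD
              _ = _ := one_mul _
          · have h3 : ψ (VV Λ.L m l z) = 0 := hcut.zero _ (by
              have := hcut.lt1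
              push Not at hz
              linarith)
            rw [h3, zero_mul, enorm_zero]
            exact zero_le
      _ ≤ _ := lintegral_indicator_le _ _
  -- error term
  have e3 := e2.trans (hE ρ hρ hρ1 Λ κ r m hm l)
  -- real side
  have e4 := hR2 ρ hρ hρ1 Λ κ (r + 1) m hm l hl
  have e5 : ENNReal.ofReal ((2 * cc ρ) ^ (r + 1)) *
      (∫⁻ z in {z : E2 (r + 1) | VV Λ.L m l z < 1},
        ENNReal.ofReal (DS l (fun k => Λ.q (pk (l k) z) * af Λ.L m (pk (l k) z)))) ≤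
      ((r + 1).factorial : ℝ≥0∞) * (m : ℝ≥0∞) ^ (r + 1) *
        ∫⁻ x in {x : Fin (r + 1) → ℝ | ∀ k, |l k ⬝ᵥ x| ≤ ρ}, volume (PK l x) := by
    refine le_trans (le_of_eq ?_) e4
    rw [← lintegral_const_mul' _ _ ENNReal.ofReal_ne_top]
    refine lintegral_congr fun z => ?_
    rw [← ENNReal.ofReal_mul (by positivity), ← DS_smul]
    congr 2
    funext k
    ring
  -- combine
  have e6 : ENNReal.ofReal ((2 * cc ρ) ^ (r + 1)) *
      ENNReal.ofReal (((m : ℝ) * Real.pi * v0) ^ (r + 1)) ≤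
      ((r + 1).factorial : ℝ≥0∞) * (m : ℝ≥0∞) ^ (r + 1) *
        (∫⁻ x in {x : Fin (r + 1) → ℝ | ∀ k, |l k ⬝ᵥ x| ≤ ρ}, volume (PK l x)) +
      ENNReal.ofReal ((2 * cc ρ) ^ (r + 1)) *
      (((Fintype.card κ : ℝ≥0∞) ^ (r + 1) * ((r + 1 : ℕ) : ℝ≥0∞)) *
        (ENNReal.ofReal (m * Real.pi) ^ r *
          ∫⁻ p, ENNReal.ofReal (af Λ.L m p * (1 - Λ.q p)))) := by
    refine (mul_le_mul_right e3 _).trans ?_
    rw [mul_add]
    exact add_le_add e5 le_rfl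
  have hm0 : (m : ℝ≥0∞) ≠ 0 := by
    have : m ≠ 0 := by omega
    exact_mod_cast this
  have hmt : (m : ℝ≥0∞) ≠ ∞ := ENNReal.natCast_ne_top m
  have hmp0 : (m : ℝ≥0∞) ^ (r + 1) ≠ 0 := pow_ne_zero _ hm0
  have hmpt : (m : ℝ≥0∞) ^ (r + 1) ≠ ∞ := ENNReal.pow_ne_top hmt
  have e7 : ENNReal.ofReal ((2 * cc ρ) ^ (r + 1)) *
      ENNReal.ofReal (((m : ℝ) * Real.pi * v0) ^ (r + 1)) =
      (m : ℝ≥0∞) ^ (r + 1) *
        ENNReal.ofReal ((2 * Real.log ((1 + ρ) / (1 - ρ)) * v0) ^ (r + 1)) := by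
    rw [← ENNReal.ofReal_mul (by positivity)]
    rw [← ENNReal.ofReal_natCast, ← ENNReal.ofReal_pow hmr.le, ← ENNReal.ofReal_mul (by positivity)]
    congr 1
    rw [← mul_pow, ← mul_pow, ← hlog]
    congr 1
    ring
  have e8 : ENNReal.ofReal ((2 * cc ρ) ^ (r + 1)) *
      (((Fintype.card κ : ℝ≥0∞) ^ (r + 1) * ((r + 1 : ℕ) : ℝ≥0∞)) *
        (ENNReal.ofReal (m * Real.pi) ^ r *
          ∫⁻ p, ENNReal.ofReal (af Λ.L m p * (1 - Λ.q p)))) =
      (m : ℝ≥0∞) ^ (r + 1) *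
      ((ENNReal.ofReal ((2 * cc ρ) ^ (r + 1)) * ((Fintype.card κ : ℝ≥0∞) ^ (r + 1) *
        ((r + 1 : ℕ) : ℝ≥0∞)) * ENNReal.ofReal Real.pi ^ r) *
      ((∫⁻ p, ENNReal.ofReal (af Λ.L m p * (1 - Λ.q p))) / (m : ℝ≥0∞))) := by
    have h5 : ENNReal.ofReal (m * Real.pi) = (m : ℝ≥0∞) * ENNReal.ofReal Real.pi := by
      rw [ENNReal.ofReal_mul hmr.le, ENNReal.ofReal_natCast]
    rw [h5, mul_pow]
    have h6 : ∀ X : ℝ≥0∞, X = (m : ℝ≥0∞) * (X / m) := fun X =>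
      (ENNReal.mul_div_cancel hm0 hmt).symm
    conv_lhs => rw [h6 (∫⁻ p, ENNReal.ofReal (af Λ.L m p * (1 - Λ.q p)))]
    rw [pow_succ (m : ℝ≥0∞) r]
    ring
  rw [e7, e8] at e6
  have e9 : ((r + 1).factorial : ℝ≥0∞) * (m : ℝ≥0∞) ^ (r + 1) *
      (∫⁻ x in {x : Fin (r + 1) → ℝ | ∀ k, |l k ⬝ᵥ x| ≤ ρ}, volume (PK l x)) =
      (m : ℝ≥0∞) ^ (r + 1) *
        (((r + 1).factorial : ℝ≥0∞) *
          (∫⁻ x in {x : Fin (r + 1) → ℝ | ∀ k, |l k ⬝ᵥ x| ≤ ρ}, volume (PK l x))) := by ring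
  rw [e9, ← mul_add] at e6
  exact (ENNReal.mul_le_mul_iff_right hmp0 hmpt).1 e6

end FMAaux

open FMAaux in
theorem FMA (hC6 : H712MA.S_C6) (hS : H712MA.S_S) (hR2 : S_R2F) (hE : S_EF) : S_FMA := by
  intro hFL κ _ n l hl ρ hρ hρ1
  obtain ⟨Λ⟩ := hFL ρ hρ hρ1
  cases n with
  | zero => exact dim0 l ρ hρ
  | succ r =>
    set C : ℝ≥0∞ := ENNReal.ofReal ((2 * cc ρ) ^ (r + 1)) * ((Fintype.card κ : ℝ≥0∞) ^ (r + 1) *
        ((r + 1 : ℕ) : ℝ≥0∞)) * ENNReal.ofReal Real.pi ^ r with hC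
    have hCt : C ≠ ∞ := by
      rw [hC]
      refine ENNReal.mul_ne_top (ENNReal.mul_ne_top ENNReal.ofReal_ne_top ?_)
        (ENNReal.pow_ne_top ENNReal.ofReal_ne_top)
      exact ENNReal.mul_ne_top (ENNReal.pow_ne_top (ENNReal.natCast_ne_top _))
        (ENNReal.natCast_ne_top _)
    set T : ℝ≥0∞ := ((r + 1).factorial : ℝ≥0∞) *
      (∫⁻ x in {x : Fin (r + 1) → ℝ | ∀ k, |l k ⬝ᵥ x| ≤ ρ}, volume (PK l x)) with hT
    have h1 : ∀ v0 : ℝ, 0 < v0 → v0 < 1 →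
        ENNReal.ofReal ((2 * Real.log ((1 + ρ) / (1 - ρ)) * v0) ^ (r + 1)) ≤ T := by
      intro v0 h0 h1
      have ht : Tendsto (fun m : ℕ => T + C *
          ((∫⁻ p, ENNReal.ofReal (af Λ.L m p * (1 - Λ.q p))) / (m : ℝ≥0∞))) atTop (𝓝 T) := by
        have h3 := ENNReal.Tendsto.const_mul (a := C) Λ.conc (Or.inr hCt)
        rw [mul_zero] at h3
        have h4 := (tendsto_const_nhds (x := T)).add h3
        rw [add_zero] at h4
        exact h4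
      refine ge_of_tendsto ht ?_
      filter_upwards [eventually_ge_atTop 1] with m hm
      exact basic hC6 hR2 hE hS ρ hρ hρ1 Λ r l hl m hm v0 h0 h1
    have hc : Tendsto (fun v0 : ℝ =>
        ENNReal.ofReal ((2 * Real.log ((1 + ρ) / (1 - ρ)) * v0) ^ (r + 1))) (𝓝[<] 1)
        (𝓝 (ENNReal.ofReal ((2 * Real.log ((1 + ρ) / (1 - ρ)) * 1) ^ (r + 1)))) := by
      have : Continuous (fun v0 : ℝ =>
          ENNReal.ofReal ((2 * Real.log ((1 + ρ) / (1 - ρ)) * v0) ^ (r + 1))) :=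
        ENNReal.continuous_ofReal.comp (by fun_prop)
      exact (this.tendsto 1).mono_left nhdsWithin_le_nhds
    rw [mul_one] at hc
    refine le_of_tendsto hc ?_
    have hev : ∀ᶠ v0 : ℝ in 𝓝[<] 1, v0 ∈ Set.Ioo (0 : ℝ) 1 :=
      Ioo_mem_nhdsLT (by norm_num)
    filter_upwards [hev] with v0 hv
    exact h1 v0 hv.1 hv.2

end H363KF
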