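import Pool.Agent.H363R3.KF.Stm

/-!
SYMMETRIC FUNK-MAHLER INEQUALITY (`S_FM` of `Pool.Agent.H363R3.KF.Stm`): definitions and statements
(as `Prop`s) of all tasks.  Complex side: `H712MA.S_C6` (finished, general `Lens`).
Task `X` proves `theorem X : S_X` (or `theorem X (h : S_Y) ... : S_X`) in
`Pool/Agent/H363R3/KF/X.lean`, importing this file only.
-/

set_option autoImplicit false

noncomputable section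

open MeasureTheory Filter Topology
open scoped BigOperators Matrix ENNReal

namespace H363KF

open H712MA (Lens gf gd af VV DS pk Spans E2)

/-- `c = log((1+r)/(1-r))/π` -/
def cc (r : ℝ) : ℝ := Real.log ((1 + r) / (1 - r)) / Real.pi

/-- a lens with the properties needed on the real side -/
structure FLens (r : ℝ) where
  L : Lens
  q : ℂ → ℝ
  w : ℂ → ℝ
  y0 : ℝ → ℝ
  re_lt : ∀ p ∈ L.W, |p.re| < r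
  meas_e : Measurable L.e
  meas_q : Measurable q
  cont : Continuous (fun p => ‖L.e p‖)
  q_nonneg : ∀ p, 0 ≤ q p
  q_le : ∀ p ∈ L.W, q p ≤ 1
  w_eq : ∀ p ∈ L.W, w p = 1 / (1 - p.re) ∨ w p = - (1 / (1 + p.re))
  mono : ∀ m : ℕ, 1 ≤ m → ∀ x y y' : ℝ, (⟨x, y⟩ : ℂ) ∈ L.W → (⟨x, y'⟩ : ℂ) ∈ L.W → y < y' →
    w ⟨x, y⟩ * ‖gf L m ⟨x, y⟩‖ ^ 2 < w ⟨x, y'⟩ * ‖gf L m ⟨x, y'⟩‖ ^ 2
  der : ∀ m : ℕ, 1 ≤ m → ∀ x y : ℝ, (⟨x, y⟩ : ℂ) ∈ L.W → y ≠ y0 x →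
    HasDerivAt (fun t : ℝ => w ⟨x, t⟩ * ‖gf L m ⟨x, t⟩‖ ^ 2)
      (2 / m * (cc r * q ⟨x, y⟩ * af L m ⟨x, y⟩)) y
  area : ∀ m : ℕ, 1 ≤ m → ∫⁻ p, ENNReal.ofReal (af L m p) = ENNReal.ofReal (m * Real.pi)
  conc : Tendsto (fun m : ℕ => (∫⁻ p, ENNReal.ofReal (af L m p * (1 - q p))) / (m : ℝ≥0∞))
    atTop (𝓝 0)

/-! ### real side -/

/-- R1F: for fixed `x` -/
def S_R1F : Prop :=
  ∀ (r : ℝ), 0 < r → r < 1 → ∀ (Λ : FLens r) (κ : Type) [Fintype κ] (n : ℕ) (m : ℕ), 1 ≤ m →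
    ∀ (l : κ → Fin n → ℝ), Spans l → ∀ x : Fin n → ℝ,
    ∫⁻ u in {u : Fin n → ℝ | VV Λ.L m l (x, u) < 1},
        ENNReal.ofReal (DS l (fun k => 2 * cc r * Λ.q (pk (l k) (x, u)) * af Λ.L m (pk (l k) (x, u)))) ≤
      (n.factorial : ℝ≥0∞) * (m : ℝ≥0∞) ^ n * volume (PK l x)

/-- R2F: integrated over `x` -/
def S_R2F : Prop :=
  ∀ (r : ℝ), 0 < r → r < 1 → ∀ (Λ : FLens r) (κ : Type) [Fintype κ] (n : ℕ) (m : ℕ), 1 ≤ m →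
    ∀ (l : κ → Fin n → ℝ), Spans l →
    ∫⁻ z in {z : E2 n | VV Λ.L m l z < 1},
        ENNReal.ofReal (DS l (fun k => 2 * cc r * Λ.q (pk (l k) z) * af Λ.L m (pk (l k) z))) ≤
      (n.factorial : ℝ≥0∞) * (m : ℝ≥0∞) ^ n *
        ∫⁻ x in {x : Fin n → ℝ | ∀ k, |l k ⬝ᵥ x| ≤ r}, volume (PK l x)

/-- EF: the error term -/
def S_EF : Prop :=
  ∀ (ρ : ℝ), 0 < ρ → ρ < 1 → ∀ (Λ : FLens ρ) (κ : Type) [Fintype κ] (r : ℕ) (m : ℕ), 1 ≤ m →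
    ∀ (l : κ → Fin (r + 1) → ℝ),
    ∫⁻ z in {z : E2 (r + 1) | VV Λ.L m l z < 1},
        ENNReal.ofReal (DS l (fun k => af Λ.L m (pk (l k) z))) ≤
      (∫⁻ z in {z : E2 (r + 1) | VV Λ.L m l z < 1},
        ENNReal.ofReal (DS l (fun k => Λ.q (pk (l k) z) * af Λ.L m (pk (l k) z)))) +
      ((Fintype.card κ : ℝ≥0∞) ^ (r + 1) * ((r + 1 : ℕ) : ℝ≥0∞)) *
        (ENNReal.ofReal (m * Real.pi) ^ r * ∫⁻ p, ENNReal.ofReal (af Λ.L m p * (1 - Λ.q p)))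

/-- FL: the Funk lens exists for every radius -/
def S_FL : Prop := ∀ r : ℝ, 0 < r → r < 1 → Nonempty (FLens r)

/-- FMA: assembly -/
def S_FMA : Prop := S_FL → S_FM

/-! ### one variable -/

/-- `artanh` -/
def AT (z : ℂ) : ℂ := (Complex.log (1 + z) - Complex.log (1 - z)) / 2

/-- the Funk lens map `h_c(z) = (4c/π) Σ_j z^(2j+1)/((2j+1)(2j+1+ic))` -/
def hc (c : ℝ) (z : ℂ) : ℂ :=
  (4 * (c : ℂ) / (Real.pi : ℂ)) *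
    ∑' j : ℕ, z ^ (2 * j + 1) / (((2 * j + 1 : ℕ) : ℂ) * (((2 * j + 1 : ℕ) : ℂ) + (c : ℂ) * Complex.I))

/-- its derivative -/
def hcd (c : ℝ) (z : ℂ) : ℂ :=
  (4 * (c : ℂ) / (Real.pi : ℂ)) *
    ∑' j : ℕ, z ^ (2 * j) / (((2 * j + 1 : ℕ) : ℂ) + (c : ℂ) * Complex.I)

/-- `r = (1 - e^(-cπ))/(1 + e^(-cπ))` -/
def rr (c : ℝ) : ℝ := (1 - Real.exp (-(c * Real.pi))) / (1 + Real.exp (-(c * Real.pi)))

/-- O1: power series facts -/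
def S_O1 : Prop :=
  ∀ c : ℝ, 0 < c →
    (∀ z : ℂ, ‖z‖ < 1 → HasDerivAt (hc c) (hcd c z) z) ∧
    DifferentiableOn ℂ (hcd c) (Metric.ball 0 1) ∧
    (∀ z : ℂ, ‖z‖ < 1 →
      z * hcd c z + (c : ℂ) * Complex.I * hc c z = (4 * (c : ℂ) / (Real.pi : ℂ)) * AT z) ∧
    (∃ C : ℝ, 0 < C ∧ ∀ z : ℂ, ‖z‖ < 1 → ‖hc c z‖ ≤ C * ‖z‖) ∧
    hcd c 0 ≠ 0 ∧ (∀ z : ℂ, hc c (-z) = - hc c z)

/-- O2: facts about `artanh` -/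
def S_O2 : Prop :=
  (∀ z : ℂ, ‖z‖ < 1 → HasDerivAt AT (1 / (1 - z ^ 2)) z) ∧
  (∀ z : ℂ, ‖z‖ < 1 → |(AT z).im| < Real.pi / 4) ∧
  (∀ z w : ℂ, ‖z‖ < 1 → ‖w‖ < 1 → AT z = AT w → z = w) ∧
  (∀ τ : ℂ, |τ.im| < Real.pi / 4 → ‖Complex.tanh τ‖ < 1 ∧ AT (Complex.tanh τ) = τ) ∧
  (∀ θ : ℝ, 0 < Real.sin θ → Tendsto (fun z : ℂ => (AT z).im)
    (𝓝[Metric.ball 0 1] (Complex.exp (θ * Complex.I))) (𝓝 (Real.pi / 4))) ∧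
  (∀ θ : ℝ, Real.sin θ < 0 → Tendsto (fun z : ℂ => (AT z).im)
    (𝓝[Metric.ball 0 1] (Complex.exp (θ * Complex.I))) (𝓝 (-(Real.pi / 4))))

/-- O3: integral representations -/
def S_O3 : Prop :=
  ∀ c : ℝ, 0 < c → ∀ z : ℂ, ‖z‖ < 1 →
    hc c z = (4 * c / Real.pi / (1 + Real.exp (-(c * Real.pi))) : ℝ) *
      (∫ φ in (0 : ℝ)..Real.pi, (Real.exp (-(c * φ)) : ℂ) * (-Complex.I) *
        AT (Complex.exp (φ * Complex.I) * z)) ∧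
    hcd c z = (4 * c / Real.pi / (1 + Real.exp (-(c * Real.pi))) : ℝ) *
      (∫ φ in (0 : ℝ)..Real.pi, (Real.exp (-(c * φ)) : ℂ) * (-Complex.I) *
        Complex.exp (φ * Complex.I) / (1 - Complex.exp (2 * φ * Complex.I) * z ^ 2))

/-- O4: positivity of `Re ((1-z²) h')` and lower bound of `|h'|` -/
def S_O4 : Prop :=
  ∀ c : ℝ, 0 < c →
    (∀ z : ℂ, ‖z‖ < 1 → 0 < ((1 - z ^ 2) * hcd c z).re) ∧
    ∃ b : ℝ, 0 < b ∧ ∀ z : ℂ, ‖z‖ < 1 → b ≤ ‖hcd c z‖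

/-- O5: bound of `Re h` and its limits at `±1` -/
def S_O5 : Prop :=
  ∀ c : ℝ, 0 < c →
    (∀ z : ℂ, ‖z‖ < 1 → |(hc c z).re| < rr c) ∧
    Tendsto (fun z : ℂ => (hc c z).re) (𝓝[Metric.ball 0 1] 1) (𝓝 (rr c)) ∧
    Tendsto (fun z : ℂ => (hc c z).re) (𝓝[Metric.ball 0 1] (-1)) (𝓝 (-(rr c)))

/-- O6: `h ∘ tanh` has difference quotients with positive real part -/
def S_O6 : Prop :=
  ∀ c : ℝ, 0 < c → ∀ z w : ℂ, ‖z‖ < 1 → ‖w‖ < 1 → z ≠ w →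
    0 < ((hc c w - hc c z) * (starRingEnd ℂ) (AT w - AT z)).re

/-- O7: every horizontal line of the strip meets every vertical slice -/
def S_O7 : Prop :=
  ∀ c : ℝ, 0 < c → ∀ x : ℝ, |x| < rr c → ∀ t : ℝ, |t| < Real.pi / 4 →
    ∃ z : ℂ, ‖z‖ < 1 ∧ (AT z).im = t ∧ (hc c z).re = x

/-- `L` is the lens of `h_c`: `L.e (h_c z) = u z` with a constant `|u| = 1` -/
def IsF (c : ℝ) (L : Lens) (u : ℂ) : Prop :=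
  L.W = hc c '' Metric.ball (0 : ℂ) 1 ∧ ‖u‖ = 1 ∧ (∀ z : ℂ, ‖z‖ < 1 → L.e (hc c z) = u * z) ∧
  (∀ z : ℂ, ‖z‖ < 1 → HasDerivAt L.e (u / hcd c z) (hc c z)) ∧
  Measurable L.e ∧ Continuous (fun p => ‖L.e p‖)

/-- O8: the inverse function and the lens -/
def S_O8 : Prop := ∀ c : ℝ, 0 < c → ∃ (L : Lens) (u : ℂ), IsF c L u

/-- O9: vertical slices are intervals, `Im artanh` increases along them -/
def S_O9 : Prop :=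
  ∀ c : ℝ, 0 < c → ∀ z w : ℂ, ‖z‖ < 1 → ‖w‖ < 1 → (hc c z).re = (hc c w).re →
    (hc c z).im < (hc c w).im →
    (AT z).im < (AT w).im ∧
    ∀ y : ℝ, (hc c z).im ≤ y → y ≤ (hc c w).im →
      ∃ ζ : ℂ, ‖ζ‖ < 1 ∧ hc c ζ = ⟨(hc c z).re, y⟩

/-- `A - X` with `A = (4/π) Im artanh η(p)`, `X = Re p`; `η = conj u · e` -/
def dF (L : Lens) (u : ℂ) (p : ℂ) : ℝ :=
  4 / Real.pi * (AT ((starRingEnd ℂ) u * L.e p)).im - p.re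

open Classical in
/-- the weight -/
def wF (L : Lens) (u : ℂ) (p : ℂ) : ℝ := if 0 < dF L u p then 1 / (1 - p.re) else - (1 / (1 + p.re))

/-- `q = |A - X| |w|` (zero off the lens) -/
def qF (L : Lens) (u : ℂ) (p : ℂ) : ℝ := Set.indicator L.W (fun p => |dF L u p| * |wF L u p|) p

/-- O10: monotonicity along the slices and derivative -/
def S_O10 : Prop :=
  ∀ r : ℝ, 0 < r → r < 1 → ∀ (L : Lens) (u : ℂ), IsF (cc r) L u →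
    (∀ p ∈ L.W, |p.re| < r) ∧
    (∀ p ∈ L.W, |4 / Real.pi * (AT ((starRingEnd ℂ) u * L.e p)).im| < 1) ∧
    (∀ m : ℕ, 1 ≤ m → ∀ x y y' : ℝ, (⟨x, y⟩ : ℂ) ∈ L.W → (⟨x, y'⟩ : ℂ) ∈ L.W → y < y' →
      wF L u ⟨x, y⟩ * ‖gf L m ⟨x, y⟩‖ ^ 2 < wF L u ⟨x, y'⟩ * ‖gf L m ⟨x, y'⟩‖ ^ 2) ∧
    ∃ y0 : ℝ → ℝ, ∀ m : ℕ, 1 ≤ m → ∀ x y : ℝ, (⟨x, y⟩ : ℂ) ∈ L.W → y ≠ y0 x →
      HasDerivAt (fun t : ℝ => wF L u ⟨x, t⟩ * ‖gf L m ⟨x, t⟩‖ ^ 2)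
        (2 / m * (cc r * qF L u ⟨x, y⟩ * af L m ⟨x, y⟩)) y

/-- O11: area and concentration -/
def S_O11 : Prop :=
  ∀ r : ℝ, 0 < r → r < 1 → ∀ (L : Lens) (u : ℂ), IsF (cc r) L u → Measurable (qF L u) ∧
    (∀ m : ℕ, 1 ≤ m → ∫⁻ p, ENNReal.ofReal (af L m p) = ENNReal.ofReal (m * Real.pi)) ∧
    Tendsto (fun m : ℕ => (∫⁻ p, ENNReal.ofReal (af L m p * (1 - qF L u p))) / (m : ℝ≥0∞))
      atTop (𝓝 0)

end H363KF
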