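import Pool.Agent.H363R3.KF.FStm

/-!
# Task O1: power series of `h_c` (helper455)
-/

set_option autoImplicit false

noncomputable section

open MeasureTheory Filter Topology
open scoped BigOperators Matrix ENNReal

namespace H363KF

namespace O1aux

lemma oddne (j : ℕ) : ((2 * j + 1 : ℕ) : ℂ) ≠ 0 := by
  exact_mod_cast (by omega : 2 * j + 1 ≠ 0)

/-- the denominators -/
def dn (c : ℝ) (j : ℕ) : ℂ := ((2 * j + 1 : ℕ) : ℂ) + (c : ℂ) * Complex.I

lemma dn_re (c : ℝ) (j : ℕ) : (dn c j).re = (2 * j + 1 : ℕ) := by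
  unfold dn
  rw [Complex.add_re, Complex.natCast_re]
  simp

lemma dn_norm (c : ℝ) (j : ℕ) : ((2 * j + 1 : ℕ) : ℝ) ≤ ‖dn c j‖ := by
  have h := Complex.abs_re_le_norm (dn c j)
  rw [dn_re] at h
  exact (le_abs_self _).trans h

lemma one_le_dn (c : ℝ) (j : ℕ) : 1 ≤ ‖dn c j‖ := by
  refine le_trans ?_ (dn_norm c j)
  exact_mod_cast (by omega : 1 ≤ 2 * j + 1)

lemma dn_ne (c : ℝ) (j : ℕ) : dn c j ≠ 0 := by
  intro h
  have := one_le_dn c j
  rw [h, norm_zero] at this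
  linarith

/-- bound of the terms of the derivative series -/
lemma term_le (c : ℝ) (z : ℂ) (ρ : ℝ) (hz : ‖z‖ ≤ ρ) (j : ℕ) :
    ‖z ^ (2 * j) / dn c j‖ ≤ (ρ ^ 2) ^ j := by
  rw [norm_div, norm_pow]
  calc ‖z‖ ^ (2 * j) / ‖dn c j‖ ≤ ‖z‖ ^ (2 * j) / 1 :=
        div_le_div_of_nonneg_left (by positivity) one_pos (one_le_dn c j)
    _ = (‖z‖ ^ 2) ^ j := by rw [div_one, pow_mul]
    _ ≤ (ρ ^ 2) ^ j := by gcongr

lemma geo (ρ : ℝ) (h0 : 0 ≤ ρ) (h1 : ρ < 1) : Summable fun j : ℕ => (ρ ^ 2) ^ j :=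
  summable_geometric_of_lt_one (by positivity) (by nlinarith)

/-- the undivided series of `h` -/
def S0 (c : ℝ) (z : ℂ) : ℂ := ∑' j : ℕ, z ^ (2 * j + 1) / (((2 * j + 1 : ℕ) : ℂ) * dn c j)

/-- the undivided series of `h'` -/
def S1 (c : ℝ) (z : ℂ) : ℂ := ∑' j : ℕ, z ^ (2 * j) / dn c j

lemma hc_eq (c : ℝ) (z : ℂ) : hc c z = (4 * (c : ℂ) / (Real.pi : ℂ)) * S0 c z := rfl

lemma hcd_eq (c : ℝ) (z : ℂ) : hcd c z = (4 * (c : ℂ) / (Real.pi : ℂ)) * S1 c z := rfl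

lemma exists_between' (z : ℂ) (hz : ‖z‖ < 1) : ∃ ρ : ℝ, 0 < ρ ∧ ‖z‖ < ρ ∧ ρ < 1 := by
  obtain ⟨ρ, h1, h2⟩ := exists_between hz
  exact ⟨ρ, lt_of_le_of_lt (norm_nonneg z) h1, h1, h2⟩

lemma deriv_S0 (c : ℝ) (z : ℂ) (hz : ‖z‖ < 1) : HasDerivAt (S0 c) (S1 c z) z := by
  obtain ⟨ρ, hρ0, hzρ, hρ1⟩ := exists_between' z hz
  refine hasDerivAt_tsum_of_isPreconnected (u := fun j : ℕ => (ρ ^ 2) ^ j)
    (t := Metric.ball (0 : ℂ) ρ)
    (g := fun (j : ℕ) (z : ℂ) => z ^ (2 * j + 1) / (((2 * j + 1 : ℕ) : ℂ) * dn c j))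
    (g' := fun (j : ℕ) (z : ℂ) => z ^ (2 * j) / dn c j) (y₀ := 0) (y := z)
    (geo ρ hρ0.le hρ1) Metric.isOpen_ball (convex_ball (0 : ℂ) ρ).isPreconnected ?_ ?_ ?_ ?_ ?_
  · intro j y _
    have h := (hasDerivAt_pow (2 * j + 1) y).div_const (((2 * j + 1 : ℕ) : ℂ) * dn c j)
    refine h.congr_deriv ?_
    have := oddne j
    have := dn_ne c j
    rw [Nat.add_sub_cancel]
    field_simp
  · intro j y hy
    exact term_le c y ρ (by simpa using (mem_ball_zero_iff.1 hy).le) j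
  · simpa using hρ0
  · have : (fun n : ℕ => (0 : ℂ) ^ (2 * n + 1) / (((2 * n + 1 : ℕ) : ℂ) * dn c n)) = fun _ => 0 := by
      funext n
      rw [zero_pow (by omega), zero_div]
    rw [this]
    exact summable_zero
  · simpa using hzρ

lemma diff_S1 (c : ℝ) : DifferentiableOn ℂ (S1 c) (Metric.ball 0 1) := by
  intro z hz
  have hz' : ‖z‖ < 1 := by simpa using hz
  obtain ⟨ρ, hρ0, hzρ, hρ1⟩ := exists_between' z hz'
  have h : DifferentiableOn ℂ (S1 c) (Metric.ball (0 : ℂ) ρ) := by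
    refine Complex.differentiableOn_tsum_of_summable_norm (u := fun j : ℕ => (ρ ^ 2) ^ j)
      (F := fun (j : ℕ) (z : ℂ) => z ^ (2 * j) / dn c j)
      (geo ρ hρ0.le hρ1) ?_ Metric.isOpen_ball ?_
    · intro j
      exact ((differentiable_id.pow (2 * j)).div_const _).differentiableOn
    · intro j y hy
      exact term_le c y ρ (by simpa using (mem_ball_zero_iff.1 hy).le) j
  exact (h.differentiableAt (Metric.isOpen_ball.mem_nhds (by simpa using hzρ))).differentiableWithinAt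

lemma summable_S1 (c : ℝ) (z : ℂ) (hz : ‖z‖ < 1) : Summable fun j : ℕ => z ^ (2 * j) / dn c j :=
  Summable.of_norm_bounded (geo ‖z‖ (norm_nonneg z) hz) fun j => term_le c z ‖z‖ le_rfl j

lemma term0_le (c : ℝ) (z : ℂ) (hz : ‖z‖ < 1) (j : ℕ) :
    ‖z ^ (2 * j + 1) / (((2 * j + 1 : ℕ) : ℂ) * dn c j)‖ ≤ ‖z‖ * (1 / ((2 * j + 1 : ℕ) : ℝ) ^ 2) := by
  have h0 : (0 : ℝ) < ((2 * j + 1 : ℕ) : ℝ) := by exact_mod_cast (by omega : 0 < 2 * j + 1)
  rw [norm_div, norm_pow, norm_mul, Complex.norm_natCast, pow_succ, mul_one_div]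
  have h1 : ‖z‖ ^ (2 * j) * ‖z‖ ≤ ‖z‖ := by
    have := pow_le_one₀ (n := 2 * j) (norm_nonneg z) hz.le
    nlinarith [norm_nonneg z]
  have h2 : ((2 * j + 1 : ℕ) : ℝ) ^ 2 ≤ ((2 * j + 1 : ℕ) : ℝ) * ‖dn c j‖ := by
    rw [sq]
    exact mul_le_mul_of_nonneg_left (dn_norm c j) h0.le
  exact div_le_div₀ (norm_nonneg z) h1 (by positivity) h2

lemma odd_sq_summable : Summable fun j : ℕ => 1 / ((2 * j + 1 : ℕ) : ℝ) ^ 2 := by
  have hs : Summable fun n : ℕ => 1 / (n : ℝ) ^ 2 := hasSum_zeta_two.summable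
  refine hs.comp_injective (i := fun j : ℕ => 2 * j + 1) ?_
  intro a b hab
  simp only at hab
  omega

lemma summable_S0 (c : ℝ) (z : ℂ) (hz : ‖z‖ < 1) :
    Summable fun j : ℕ => z ^ (2 * j + 1) / (((2 * j + 1 : ℕ) : ℂ) * dn c j) :=
  Summable.of_norm_bounded (odd_sq_summable.mul_left ‖z‖) fun j => term0_le c z hz j

lemma norm_S0 (c : ℝ) (z : ℂ) (hz : ‖z‖ < 1) :
    ‖S0 c z‖ ≤ ‖z‖ * ∑' j : ℕ, 1 / ((2 * j + 1 : ℕ) : ℝ) ^ 2 :=
  tsum_of_norm_bounded (odd_sq_summable.hasSum.mul_left ‖z‖) (term0_le c z hz)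

lemma AT_series (z : ℂ) (hz : ‖z‖ < 1) :
    HasSum (fun j : ℕ => z ^ (2 * j + 1) / ((2 * j + 1 : ℕ) : ℂ)) (AT z) := by
  have h1 := Complex.hasSum_taylorSeries_log hz
  have h2 := Complex.hasSum_taylorSeries_neg_log hz
  have h3 := (h1.add h2).div_const 2
  have e1 : (Complex.log (1 + z) + -Complex.log (1 - z)) / 2 = AT z := by
    unfold AT; ring
  rw [e1] at h3
  have hinj : Function.Injective (fun j : ℕ => 2 * j + 1) := by
    intro a b hab
    simp only at hab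
    omega
  rw [← hinj.hasSum_iff] at h3
  · have e2 : ((fun n : ℕ => ((-1 : ℂ) ^ (n + 1) * z ^ n / (n : ℂ) + z ^ n / (n : ℂ)) / 2) ∘
        fun j : ℕ => 2 * j + 1) = fun j : ℕ => z ^ (2 * j + 1) / ((2 * j + 1 : ℕ) : ℂ) := by
      funext j
      have : (-1 : ℂ) ^ (2 * j + 1 + 1) = 1 := Even.neg_one_pow ⟨j + 1, by ring⟩
      simp only [Function.comp_apply]
      rw [this]
      ring
    rw [e2] at h3
    exact h3
  · intro n hn
    have hev : Even n := by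
      by_contra hodd
      rw [Nat.not_even_iff_odd] at hodd
      obtain ⟨k, hk⟩ := hodd
      exact hn ⟨k, hk.symm⟩
    have : (-1 : ℂ) ^ (n + 1) = -1 := (Even.add_one hev).neg_one_pow
    rw [this]
    ring

end O1aux

open O1aux in
/-- O1 -/
theorem O1 : S_O1 := by
  intro c hc0
  have hpi : (Real.pi : ℂ) ≠ 0 := by exact_mod_cast Real.pi_ne_zero
  have hcc : (c : ℂ) ≠ 0 := by exact_mod_cast hc0.ne'
  refine ⟨fun z hz => (deriv_S0 c z hz).const_mul _, (diff_S1 c).const_mul _, ?_, ?_, ?_, ?_⟩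
  · intro z hz
    rw [hc_eq, hcd_eq]
    have h1 := (summable_S1 c z hz).hasSum
    have h2 := (summable_S0 c z hz).hasSum
    have h3 := (h1.mul_left z).add (h2.mul_left ((c : ℂ) * Complex.I))
    have h4 := AT_series z hz
    have e : (fun j : ℕ => z * (z ^ (2 * j) / dn c j) +
        (c : ℂ) * Complex.I * (z ^ (2 * j + 1) / (((2 * j + 1 : ℕ) : ℂ) * dn c j))) =
        fun j : ℕ => z ^ (2 * j + 1) / ((2 * j + 1 : ℕ) : ℂ) := by
      funext j
      have a1 := oddne j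
      have a2 := dn_ne c j
      have a3 : (c : ℂ) * Complex.I = dn c j - ((2 * j + 1 : ℕ) : ℂ) := by unfold dn; ring
      rw [a3]
      field_simp
      ring
    rw [e] at h3
    have h5 := h3.unique h4
    calc z * (4 * (c : ℂ) / (Real.pi : ℂ) * S1 c z) +
          (c : ℂ) * Complex.I * (4 * (c : ℂ) / (Real.pi : ℂ) * S0 c z)
        = 4 * (c : ℂ) / (Real.pi : ℂ) * (z * S1 c z + (c : ℂ) * Complex.I * S0 c z) := by ring
      _ = _ := by
        unfold S1 S0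
        rw [h5]
  · refine ⟨‖4 * (c : ℂ) / (Real.pi : ℂ)‖ * (∑' j : ℕ, 1 / ((2 * j + 1 : ℕ) : ℝ) ^ 2) + 1, ?_, ?_⟩
    · have : 0 ≤ ∑' j : ℕ, 1 / ((2 * j + 1 : ℕ) : ℝ) ^ 2 := tsum_nonneg fun j => by positivity
      positivity
    · intro z hz
      rw [hc_eq, norm_mul]
      have h1 := mul_le_mul_of_nonneg_left (norm_S0 c z hz) (norm_nonneg (4 * (c : ℂ) / (Real.pi : ℂ)))
      calc _ ≤ _ := h1
        _ ≤ _ := by nlinarith [norm_nonneg z]
  · rw [hcd_eq]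
    refine mul_ne_zero (div_ne_zero (mul_ne_zero (by norm_num) hcc) hpi) ?_
    unfold S1
    rw [tsum_eq_single 0]
    · simp only [mul_zero, pow_zero]
      exact div_ne_zero one_ne_zero (dn_ne c 0)
    · intro j hj
      have : 2 * j ≠ 0 := by omega
      rw [zero_pow this, zero_div]
  · intro z
    rw [hc_eq, hc_eq, ← mul_neg]
    congr 1
    unfold S0
    rw [← tsum_neg]
    refine tsum_congr fun j => ?_
    rw [Odd.neg_pow ⟨j, rfl⟩, neg_div]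

end H363KF
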