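import Pool.Agent.H363R3.KF.FStm

/-! Task O10 of `h363k_tasks` (helper97): monotonicity and derivative along vertical slices. -/

set_option autoImplicit false

noncomputable section

open MeasureTheory Filter Topology
open scoped BigOperators Matrix ENNReal

namespace H363KF

open H712MA (Lens gf gd af VV DS pk Spans E2)

lemma O10_cc {r : ℝ} (hr : 0 < r) (hr1 : r < 1) : 0 < cc r ∧ rr (cc r) = r := by
  have h1 : 0 < 1 - r := by linarith
  have h2 : 1 < (1 + r) / (1 - r) := by rw [lt_div_iff₀ h1]; linarith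
  have h3 : 0 < (1 + r) / (1 - r) := by linarith
  refine ⟨div_pos (Real.log_pos h2) Real.pi_pos, ?_⟩
  have h4 : cc r * Real.pi = Real.log ((1 + r) / (1 - r)) := by
    unfold cc
    field_simp
  unfold rr
  rw [h4, Real.exp_neg, Real.exp_log h3]
  have h5 : (0 : ℝ) < 1 + r := by linarith
  field_simp
  ring

lemma O10_path (x y : ℝ) : HasDerivAt (fun t : ℝ => (⟨x, t⟩ : ℂ)) Complex.I y := by
  have h0 : (fun t : ℝ => (⟨x, t⟩ : ℂ)) = fun t : ℝ => (x : ℂ) + (t : ℂ) * Complex.I := by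
    funext t
    exact Complex.mk_eq_add_mul_I x t
  rw [h0]
  have := ((Complex.ofRealCLM.hasDerivAt (x := y)).mul_const Complex.I).const_add (x : ℂ)
  simpa using this

lemma O10_deriv {e : ℂ → ℂ} {u z d : ℂ} {x y : ℝ} (hu : ‖u‖ = 1)
    (hd : HasDerivAt e (u / d) ⟨x, y⟩) (he : e ⟨x, y⟩ = u * z) :
    HasDerivAt (fun t : ℝ => ‖e ⟨x, t⟩‖ ^ 2) (2 * (z * d).im / ‖d‖ ^ 2) y := by
  have hcomp : HasDerivAt (fun t : ℝ => e ⟨x, t⟩) (u / d * Complex.I) y := by
    have h := HasDerivAt.scomp y (h := fun t : ℝ => (⟨x, t⟩ : ℂ)) (g₁ := e) (h' := Complex.I)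
      (g₁' := u / d) hd (O10_path x y)
    have e1 : (Complex.I • (u / d)) = u / d * Complex.I := by rw [smul_eq_mul, mul_comm]
    rw [e1] at h
    exact h
  have hre : HasDerivAt (fun t : ℝ => (e ⟨x, t⟩).re) (u / d * Complex.I).re y := by
    exact (Complex.reCLM.hasFDerivAt (x := e ⟨x, y⟩)).comp_hasDerivAt y hcomp
  have him : HasDerivAt (fun t : ℝ => (e ⟨x, t⟩).im) (u / d * Complex.I).im y := by
    exact (Complex.imCLM.hasFDerivAt (x := e ⟨x, y⟩)).comp_hasDerivAt y hcomp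
  have hsum := (hre.mul hre).add (him.mul him)
  have hfun : (fun t : ℝ => ‖e ⟨x, t⟩‖ ^ 2) =
      (fun t : ℝ => (e ⟨x, t⟩).re) * (fun t : ℝ => (e ⟨x, t⟩).re) +
      (fun t : ℝ => (e ⟨x, t⟩).im) * (fun t : ℝ => (e ⟨x, t⟩).im) := by
    funext t
    simp only [Pi.add_apply, Pi.mul_apply]
    rw [← Complex.normSq_eq_norm_sq, Complex.normSq_apply]
  rw [hfun]
  refine hsum.congr_deriv ?_
  rw [he]
  have h1 : u.re * u.re + u.im * u.im = 1 := by
    have := Complex.normSq_eq_norm_sq u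
    rw [hu, Complex.normSq_apply] at this
    simpa using this
  by_cases h0 : d = 0
  · simp [h0]
  have hn : Complex.normSq d ≠ 0 := by simpa using h0
  rw [← Complex.normSq_eq_norm_sq]
  simp only [div_eq_mul_inv, Complex.mul_re, Complex.mul_im, Complex.inv_re, Complex.inv_im,
    Complex.I_re, Complex.I_im]
  field_simp
  linear_combination (2 * (z.re * d.im + z.im * d.re)) * h1

theorem O10 (h1 : S_O1) (h2 : S_O2) (h4 : S_O4) (h5 : S_O5) (h9 : S_O9) : S_O10 := by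
  classical
  intro r hr hr1 L u hL
  obtain ⟨hc0, hrr⟩ := O10_cc hr hr1
  obtain ⟨hW, hu, he, hder, -, hcont⟩ := hL
  obtain ⟨-, -, hode, ⟨C, hC, hCb⟩, -, -⟩ := h1 (cc r) hc0
  obtain ⟨hATd, hATb, -⟩ := h2
  obtain ⟨-, b, hb, hbd⟩ := h4 (cc r) hc0
  obtain ⟨hre, -, -⟩ := h5 (cc r) hc0
  rw [hrr] at hre
  -- conj u * u = 1
  have huu : (starRingEnd ℂ) u * u = 1 := by
    rw [mul_comm, Complex.mul_conj, Complex.normSq_eq_norm_sq, hu]
    norm_num
  have heta : ∀ z : ℂ, ‖z‖ < 1 → (starRingEnd ℂ) u * L.e (hc (cc r) z) = z := by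
    intro z hz
    rw [he z hz, ← mul_assoc, huu, one_mul]
  have hpre : ∀ p ∈ L.W, ∃ z : ℂ, ‖z‖ < 1 ∧ hc (cc r) z = p := by
    intro p hp
    rw [hW] at hp
    obtain ⟨z, hz, rfl⟩ := hp
    exact ⟨z, by simpa using hz, rfl⟩
  have hmem : ∀ z : ℂ, ‖z‖ < 1 → hc (cc r) z ∈ L.W := by
    intro z hz
    rw [hW]
    exact ⟨z, by simpa using hz, rfl⟩
  have hdF : ∀ z : ℂ, ‖z‖ < 1 → dF L u (hc (cc r) z) =
      4 / Real.pi * (AT z).im - (hc (cc r) z).re := by
    intro z hz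
    unfold dF
    rw [heta z hz]
  have hlt : ∀ p ∈ L.W, |p.re| < r := by
    intro p hp
    obtain ⟨z, hz, rfl⟩ := hpre p hp
    exact hre z hz
  -- imaginary part of z h'
  have him : ∀ z : ℂ, ‖z‖ < 1 → (z * hcd (cc r) z).im = cc r * dF L u (hc (cc r) z) := by
    intro z hz
    have h := congrArg Complex.im (hode z hz)
    rw [hdF z hz]
    have e1 : ((4 * (cc r : ℂ) / (Real.pi : ℂ)) * AT z).im = 4 * cc r / Real.pi * (AT z).im := by
      have : (4 * (cc r : ℂ) / (Real.pi : ℂ)) = ((4 * cc r / Real.pi : ℝ) : ℂ) := by push_cast; ring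
      rw [this, Complex.im_ofReal_mul]
    have e2 : ((cc r : ℂ) * Complex.I * hc (cc r) z).im = cc r * (hc (cc r) z).re := by
      rw [mul_assoc, Complex.im_ofReal_mul]
      simp
    rw [Complex.add_im, e1, e2] at h
    have e3 : 4 * cc r / Real.pi * (AT z).im = cc r * (4 / Real.pi * (AT z).im) := by ring
    rw [e3] at h
    linarith
  have hh0 : ∀ z : ℂ, ‖z‖ < 1 → 0 < ‖hcd (cc r) z‖ := fun z hz => lt_of_lt_of_le hb (hbd z hz)
  -- derivative of |e|^2
  have hN : ∀ x y : ℝ, ∀ z : ℂ, ‖z‖ < 1 → hc (cc r) z = ⟨x, y⟩ →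
      HasDerivAt (fun t : ℝ => ‖L.e ⟨x, t⟩‖ ^ 2)
        (2 * (cc r * dF L u ⟨x, y⟩) / ‖hcd (cc r) z‖ ^ 2) y := by
    intro x y z hz hzp
    have hd := hder z hz
    rw [hzp] at hd
    have hee := he z hz
    rw [hzp] at hee
    have h := O10_deriv hu hd hee
    rw [him z hz, hzp] at h
    exact h
  -- dF is strictly increasing along the slices
  have hmonoF : ∀ x y y' : ℝ, (⟨x, y⟩ : ℂ) ∈ L.W → (⟨x, y'⟩ : ℂ) ∈ L.W → y < y' →
      dF L u ⟨x, y⟩ < dF L u ⟨x, y'⟩ := by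
    intro x y y' hp hp' hyy
    obtain ⟨z, hz, hzp⟩ := hpre _ hp
    obtain ⟨w, hw, hwp⟩ := hpre _ hp'
    have h := (h9 (cc r) hc0 z w hz hw (by rw [hzp, hwp]) (by rw [hzp, hwp]; exact hyy)).1
    rw [← hzp, ← hwp, hdF z hz, hdF w hw]
    have e1 : (hc (cc r) z).re = (hc (cc r) w).re := by rw [hzp, hwp]
    rw [e1]
    have : 0 < 4 / Real.pi := by positivity
    have := mul_lt_mul_of_pos_left h this
    linarith
  have hslice : ∀ x y y' t : ℝ, (⟨x, y⟩ : ℂ) ∈ L.W → (⟨x, y'⟩ : ℂ) ∈ L.W → y ≤ t → t ≤ y' →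
      (⟨x, t⟩ : ℂ) ∈ L.W := by
    intro x y y' t hp hp' h1 h2
    rcases eq_or_lt_of_le (h1.trans h2) with h | h
    · have : t = y := le_antisymm (h ▸ h2) h1
      rw [this]; exact hp
    obtain ⟨z, hz, hzp⟩ := hpre _ hp
    obtain ⟨w, hw, hwp⟩ := hpre _ hp'
    obtain ⟨ζ, hζ, hζp⟩ := (h9 (cc r) hc0 z w hz hw (by rw [hzp, hwp])
      (by rw [hzp, hwp]; exact h)).2 t (by rw [hzp]; exact h1) (by rw [hwp]; exact h2)
    have e1 : (hc (cc r) z).re = x := by rw [hzp]
    rw [e1] at hζp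
    rw [← hζp]
    exact hmem ζ hζ
  -- continuity of N
  have hNc : ∀ x : ℝ, Continuous (fun t : ℝ => ‖L.e ⟨x, t⟩‖ ^ 2) := by
    intro x
    have hpath : Continuous (fun t : ℝ => (⟨x, t⟩ : ℂ)) :=
      continuous_iff_continuousAt.2 fun y => (O10_path x y).continuousAt
    exact (hcont.comp hpath).pow 2
  have hgf : ∀ (m : ℕ) (p : ℂ), ‖gf L m p‖ ^ 2 = (‖L.e p‖ ^ 2) ^ m := by
    intro m p
    unfold gf
    rw [norm_pow]
    ring
  -- the zero of e
  have hezero : ∀ z : ℂ, ‖z‖ < 1 → 0 < dF L u (hc (cc r) z) → 0 < ‖L.e (hc (cc r) z)‖ := by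
    intro z hz hpos
    rw [he z hz, norm_mul, hu, one_mul, norm_pos_iff]
    intro h0
    subst h0
    have h3 : hc (cc r) 0 = 0 := by
      have := hCb 0 hz
      simpa using this
    rw [hdF 0 hz, h3] at hpos
    simp [AT] at hpos
  refine ⟨hlt, ?_, ?_, ?_⟩
  · intro p hp
    obtain ⟨z, hz, rfl⟩ := hpre p hp
    rw [heta z hz, abs_mul, abs_of_pos (by positivity : (0:ℝ) < 4 / Real.pi)]
    have := mul_lt_mul_of_pos_left (hATb z hz) (by positivity : (0:ℝ) < 4 / Real.pi)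
    calc 4 / Real.pi * |(AT z).im| < 4 / Real.pi * (Real.pi / 4) := this
      _ = 1 := by field_simp
  · intro m hm x y y' hp hp' hyy
    have hx := hlt _ hp
    have hx' : |x| < r := hx
    rw [abs_lt] at hx'
    have hx1 : 0 < 1 - x := by linarith [hx'.2]
    have hx2 : 0 < 1 + x := by linarith [hx'.1]
    have hF := hmonoF x y y' hp hp' hyy
    have hint : ∀ t, t ∈ interior (Set.Icc y y') → (⟨x, t⟩ : ℂ) ∈ L.W ∧ y < t ∧ t < y' := by
      intro t ht
      rw [interior_Icc] at ht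
      exact ⟨hslice x y y' t hp hp' ht.1.le ht.2.le, ht.1, ht.2⟩
    rw [hgf, hgf]
    rcases lt_or_ge 0 (dF L u ⟨x, y'⟩) with hpos' | hneg'
    · rcases lt_or_ge 0 (dF L u ⟨x, y⟩) with hpos | hneg
      · -- both positive
        have hmono : StrictMonoOn (fun t : ℝ => ‖L.e ⟨x, t⟩‖ ^ 2) (Set.Icc y y') := by
          refine strictMonoOn_of_deriv_pos (convex_Icc _ _) (hNc x).continuousOn ?_
          intro t ht
          obtain ⟨htW, hyt, -⟩ := hint t ht
          obtain ⟨z, hz, hzp⟩ := hpre _ htW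
          rw [(hN x t z hz hzp).deriv]
          have h3 := hmonoF x y t hp htW hyt
          have h4 := hh0 z hz
          have h6 : 0 < dF L u ⟨x, t⟩ := by linarith
          positivity
        have h3 := hmono (Set.left_mem_Icc.2 hyy.le) (Set.right_mem_Icc.2 hyy.le) hyy
        simp only [] at h3
        have w1 : wF L u ⟨x, y⟩ = 1 / (1 - x) := by unfold wF; rw [if_pos hpos]
        have w2 : wF L u ⟨x, y'⟩ = 1 / (1 - x) := by unfold wF; rw [if_pos hpos']
        rw [w1, w2]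
        apply mul_lt_mul_of_pos_left _ (by positivity)
        exact pow_lt_pow_left₀ h3 (by positivity) (by omega)
      · -- sign change
        have w1 : wF L u ⟨x, y⟩ = -(1 / (1 + x)) := by
          unfold wF; rw [if_neg (not_lt.2 hneg)]
        have w2 : wF L u ⟨x, y'⟩ = 1 / (1 - x) := by unfold wF; rw [if_pos hpos']
        rw [w1, w2]
        obtain ⟨z, hz, hzp⟩ := hpre _ hp'
        have h3 := hezero z hz (by rw [hzp]; exact hpos')
        rw [hzp] at h3
        have h4 : 0 < 1 / (1 - x) * (‖L.e ⟨x, y'⟩‖ ^ 2) ^ m := by positivity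
        have h6 : 0 ≤ 1 / (1 + x) * (‖L.e ⟨x, y⟩‖ ^ 2) ^ m := by positivity
        linarith
    · -- both nonpositive
      have hneg : dF L u ⟨x, y⟩ < 0 := by linarith
      have hanti : StrictAntiOn (fun t : ℝ => ‖L.e ⟨x, t⟩‖ ^ 2) (Set.Icc y y') := by
        refine strictAntiOn_of_deriv_neg (convex_Icc _ _) (hNc x).continuousOn ?_
        intro t ht
        obtain ⟨htW, -, hty⟩ := hint t ht
        obtain ⟨z, hz, hzp⟩ := hpre _ htW
        rw [(hN x t z hz hzp).deriv]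
        have h3 := hmonoF x t y' htW hp' hty
        have h4 := hh0 z hz
        have h6 : dF L u ⟨x, t⟩ < 0 := by linarith
        apply div_neg_of_neg_of_pos _ (by positivity)
        nlinarith
      have h3 := hanti (Set.left_mem_Icc.2 hyy.le) (Set.right_mem_Icc.2 hyy.le) hyy
      simp only [] at h3
      have w1 : wF L u ⟨x, y⟩ = -(1 / (1 + x)) := by
        unfold wF; rw [if_neg (not_lt.2 hneg.le)]
      have w2 : wF L u ⟨x, y'⟩ = -(1 / (1 + x)) := by
        unfold wF; rw [if_neg (not_lt.2 hneg')]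
      rw [w1, w2]
      have h6 : (‖L.e ⟨x, y'⟩‖ ^ 2) ^ m < (‖L.e ⟨x, y⟩‖ ^ 2) ^ m :=
        pow_lt_pow_left₀ h3 (by positivity) (by omega)
      have h7 : 0 < 1 / (1 + x) := by positivity
      have h8 := mul_lt_mul_of_pos_left h6 h7
      linarith
  · refine ⟨fun x => if h : ∃ y : ℝ, (⟨x, y⟩ : ℂ) ∈ L.W ∧ dF L u ⟨x, y⟩ = 0 then h.choose else 0,
      ?_⟩
    intro m hm x y hp hy
    have hne : dF L u ⟨x, y⟩ ≠ 0 := by
      intro h0
      have hex : ∃ y : ℝ, (⟨x, y⟩ : ℂ) ∈ L.W ∧ dF L u ⟨x, y⟩ = 0 := ⟨y, hp, h0⟩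
      have hs := hex.choose_spec
      apply hy
      simp only [dif_pos hex]
      rcases lt_trichotomy y hex.choose with h | h | h
      · have := hmonoF x _ _ hp hs.1 h
        rw [h0, hs.2] at this
        exact absurd this (lt_irrefl _)
      · exact h
      · have := hmonoF x _ _ hs.1 hp h
        rw [h0, hs.2] at this
        exact absurd this (lt_irrefl _)
    obtain ⟨z, hz, hzp⟩ := hpre _ hp
    have hx' : |x| < r := hlt _ hp
    rw [abs_lt] at hx'
    have hx1 : 0 < 1 - x := by linarith [hx'.2]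
    have hx2 : 0 < 1 + x := by linarith [hx'.1]
    -- continuity of dF along the slice
    have hcF : ContinuousAt (fun t : ℝ => dF L u ⟨x, t⟩) y := by
      have c1 : ContinuousAt (fun t : ℝ => (⟨x, t⟩ : ℂ)) y := (O10_path x y).continuousAt
      have c2 : ContinuousAt L.e (⟨x, y⟩ : ℂ) := by
        have := (hder z hz).continuousAt
        rwa [hzp] at this
      have c3 : ContinuousAt (fun t : ℝ => (starRingEnd ℂ) u * L.e ⟨x, t⟩) y :=
        continuousAt_const.mul (ContinuousAt.comp (f := fun t : ℝ => (⟨x, t⟩ : ℂ)) c2 c1)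
      have c4 : ContinuousAt AT ((starRingEnd ℂ) u * L.e ⟨x, y⟩) := by
        rw [← hzp, heta z hz]
        exact (hATd z hz).continuousAt
      have c5 : ContinuousAt (fun t : ℝ => AT ((starRingEnd ℂ) u * L.e ⟨x, t⟩)) y :=
        ContinuousAt.comp (f := fun t : ℝ => (starRingEnd ℂ) u * L.e ⟨x, t⟩) c4 c3
      have c6 : ContinuousAt (fun t : ℝ => (AT ((starRingEnd ℂ) u * L.e ⟨x, t⟩)).im) y :=
        Complex.continuous_im.continuousAt.comp c5
      unfold dF
      exact (continuousAt_const.mul c6).sub continuousAt_const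
    have hwloc : ∀ᶠ t in 𝓝 y, wF L u ⟨x, t⟩ = wF L u ⟨x, y⟩ := by
      rcases lt_or_gt_of_ne hne with hneg | hpos
      · filter_upwards [hcF.eventually (gt_mem_nhds hneg)] with t ht
        unfold wF
        rw [if_neg (not_lt.2 ht.le), if_neg (not_lt.2 hneg.le)]
      · filter_upwards [hcF.eventually (lt_mem_nhds hpos)] with t ht
        unfold wF
        rw [if_pos ht, if_pos hpos]
    have hd1 := ((hN x y z hz hzp).pow m).const_mul (wF L u ⟨x, y⟩)
    have hev : (fun t : ℝ => wF L u ⟨x, t⟩ * ‖gf L m ⟨x, t⟩‖ ^ 2) =ᶠ[𝓝 y]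
        (fun t : ℝ => wF L u ⟨x, y⟩ * (((fun t : ℝ => ‖L.e ⟨x, t⟩‖ ^ 2) ^ m) t)) := by
      filter_upwards [hwloc] with t ht
      rw [ht, hgf]
      rfl
    refine (HasDerivAt.congr_of_eventuallyEq hd1 hev).congr_deriv ?_
    have hq : qF L u ⟨x, y⟩ = wF L u ⟨x, y⟩ * dF L u ⟨x, y⟩ := by
      unfold qF
      rw [Set.indicator_of_mem hp]
      rcases lt_or_gt_of_ne hne with hneg | hpos
      · have w1 : wF L u ⟨x, y⟩ = -(1 / (1 + x)) := by
          unfold wF; rw [if_neg (not_lt.2 hneg.le)]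
        rw [w1, abs_of_neg hneg, abs_neg, abs_of_pos (by positivity)]
        ring
      · have w1 : wF L u ⟨x, y⟩ = 1 / (1 - x) := by unfold wF; rw [if_pos hpos]
        rw [w1, abs_of_pos hpos, abs_of_pos (by positivity)]
        ring
    have hdv : deriv L.e ⟨x, y⟩ = u / hcd (cc r) z := by
      have := (hder z hz).deriv
      rwa [hzp] at this
    have haf : af L m ⟨x, y⟩ = (m : ℝ) ^ 2 * (‖L.e ⟨x, y⟩‖ ^ 2) ^ (m - 1) /
        ‖hcd (cc r) z‖ ^ 2 := by
      unfold af gd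
      rw [if_pos hp, hdv]
      simp only [norm_mul, norm_pow, norm_div, Complex.norm_natCast, hu]
      rw [mul_pow, mul_pow, div_pow, one_pow, ← pow_mul, ← pow_mul, mul_comm 2 (m - 1)]
      ring
    rw [hq, haf]
    have hm0 : (m : ℝ) ≠ 0 := by
      have : (0 : ℝ) < m := by exact_mod_cast hm
      exact this.ne'
    have h7 := (hh0 z hz).ne'
    field_simp

end H363KF
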