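import Pool.Agent.H363R3.KF.FStm
import Pool.Agent.H712R2.MA.H5

/-!
Task O11 (helper215): area and concentration for the Funk lens (adapted from H5 of helper28).
-/

set_option autoImplicit false

noncomputable section

open MeasureTheory Filter Topology Set
open scoped BigOperators ENNReal

namespace H363KF

open H712MA (Lens gf gd af VV DS pk Spans E2)

namespace TO11

theorem rr_lt_one (c : ℝ) : rr c < 1 := by
  unfold rr
  have h := Real.exp_pos (-(c * Real.pi))
  rw [div_lt_one (by linarith)]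
  linarith

/-- change of variables `p = h(z)` -/
theorem cov (hO1 : S_O1) (hO6 : S_O6) (c : ℝ) (hc0 : 0 < c) (g : ℂ → ℝ≥0∞) :
    ∫⁻ p in hc c '' Metric.ball (0 : ℂ) 1, g p =
      ∫⁻ z in Metric.ball (0 : ℂ) 1, ENNReal.ofReal (‖hcd c z‖ ^ 2) * g (hc c z) := by
  have hinj' : InjOn (hc c) (Metric.ball (0 : ℂ) 1) := by
    intro z hz w hw e
    rw [Metric.mem_ball, dist_zero_right] at hz hw
    by_contra hne
    have h := hO6 c hc0 z w hz hw hne
    rw [e, sub_self, zero_mul, Complex.zero_re] at h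
    exact lt_irrefl _ h
  have h := lintegral_image_eq_lintegral_abs_det_fderiv_mul (volume : Measure ℂ)
    (s := Metric.ball (0 : ℂ) 1) (f := hc c)
    (f' := fun z => (ContinuousLinearMap.toSpanSingleton ℂ (hcd c z)).restrictScalars ℝ)
    measurableSet_ball (fun z hz => by
      rw [Metric.mem_ball, dist_zero_right] at hz
      exact (((hO1 c hc0).1 z hz).hasFDerivAt.restrictScalars ℝ).hasFDerivWithinAt) hinj' g
  simp only [H712MA.H5_det] at h
  rw [h]
  refine lintegral_congr fun z => ?_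
  rw [abs_of_nonneg (by positivity)]

/-- the coefficient in the disc -/
theorem af_eq (hO4 : S_O4) (c : ℝ) (hc0 : 0 < c) (L : Lens) (u : ℂ) (hL : IsF c L u) (m : ℕ)
    (z : ℂ) (hz : ‖z‖ < 1) :
    ‖hcd c z‖ ^ 2 * af L m (hc c z) = (m : ℝ) ^ 2 * ‖z‖ ^ (2 * (m - 1)) := by
  obtain ⟨hW, hu, hinv, hder, -, -⟩ := hL
  have hmem : hc c z ∈ L.W := by
    rw [hW]
    exact ⟨z, by rw [Metric.mem_ball, dist_zero_right]; exact hz, rfl⟩
  have hne : ‖hcd c z‖ ≠ 0 := by
    intro h
    have h3 := (hO4 c hc0).1 z hz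
    rw [norm_eq_zero.1 h, mul_zero, Complex.zero_re] at h3
    exact lt_irrefl _ h3
  have hd1 : deriv L.e (hc c z) = u / hcd c z := (hder z hz).deriv
  unfold af gd
  rw [if_pos hmem, hd1, hinv z hz, norm_mul, norm_mul, norm_pow, norm_mul, hu,
    Complex.norm_natCast, norm_div, hu, one_mul]
  field_simp
  rw [← pow_mul, mul_comm (m - 1) 2]

theorem off (L : Lens) (m : ℕ) (p : ℂ) (hp : p ∉ L.W) : af L m p = 0 := by
  unfold af gd
  rw [if_neg hp]
  simp

/-- integrals against `a` are integrals over the disc -/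
theorem int_eq (hO1 : S_O1) (hO4 : S_O4) (hO6 : S_O6) (c : ℝ) (hc0 : 0 < c) (L : Lens) (u : ℂ)
    (hL : IsF c L u) (m : ℕ) (G : ℂ → ℝ) :
    ∫⁻ p, ENNReal.ofReal (af L m p * G p) =
      ∫⁻ z in Metric.ball (0 : ℂ) 1,
        ENNReal.ofReal ((m : ℝ) ^ 2 * ‖z‖ ^ (2 * (m - 1)) * G (hc c z)) := by
  have e1 : ∫⁻ p, ENNReal.ofReal (af L m p * G p) =
      ∫⁻ p in L.W, ENNReal.ofReal (af L m p * G p) := by
    rw [← lintegral_indicator L.isOpen.measurableSet]
    refine lintegral_congr fun p => ?_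
    by_cases hp : p ∈ L.W
    · rw [indicator_of_mem hp]
    · rw [indicator_of_notMem hp, off L m p hp, zero_mul, ENNReal.ofReal_zero]
  rw [e1, hL.1, cov hO1 hO6 c hc0]
  refine setLIntegral_congr_fun measurableSet_ball fun z hz => ?_
  rw [Metric.mem_ball, dist_zero_right] at hz
  rw [← ENNReal.ofReal_mul (by positivity), ← mul_assoc, af_eq hO4 c hc0 L u hL m z hz]

theorem one (hO1 : S_O1) (hO4 : S_O4) (hO6 : S_O6) (c : ℝ) (hc0 : 0 < c) (L : Lens) (u : ℂ)
    (hL : IsF c L u) (m : ℕ) (hm : 1 ≤ m) :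
    ∫⁻ p, ENNReal.ofReal (af L m p) = ENNReal.ofReal (m * Real.pi) := by
  have hm0 : (0 : ℝ) < m := by exact_mod_cast hm
  have e0 : ∫⁻ p, ENNReal.ofReal (af L m p) =
      ∫⁻ p, ENNReal.ofReal (af L m p * (fun _ => (1 : ℝ)) p) :=
    lintegral_congr fun p => by simp
  rw [e0, int_eq hO1 hO4 hO6 c hc0 L u hL m (fun _ => 1), H712MA.H5_polar _ (by fun_prop)]
  have e1 : ∀ θ : ℝ, ∫⁻ r in Ioo (0 : ℝ) 1, ENNReal.ofReal (r * ((m : ℝ) ^ 2 *
      ‖(r : ℂ) * Complex.exp (θ * Complex.I)‖ ^ (2 * (m - 1)) * 1)) =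
      ENNReal.ofReal ((m : ℝ) / 2) := by
    intro θ
    have := H712MA.H5_pow m hm 1 zero_le_one
    rw [one_pow, mul_one] at this
    rw [← this]
    refine setLIntegral_congr_fun measurableSet_Ioo fun r hr => ?_
    rw [H712MA.H5_normexp r θ hr.1.le]
    congr 1
    have e2 : 2 * m - 1 = 2 * (m - 1) + 1 := by omega
    rw [e2, pow_succ]
    ring
  simp only [e1]
  rw [setLIntegral_const, H712MA.H5_vol, ← ENNReal.ofReal_mul (by positivity)]
  congr 1
  ring

/-- `A` on the disc -/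
def A (z : ℂ) : ℝ := 4 / Real.pi * (AT z).im

/-- the function `q` on the disc -/
def Q (c : ℝ) (z : ℂ) : ℝ :=
  max ((A z - (hc c z).re) / (1 - (hc c z).re)) (((hc c z).re - A z) / (1 + (hc c z).re))

theorem abs_A (hO2 : S_O2) (z : ℂ) (hz : ‖z‖ < 1) : |A z| < 1 := by
  unfold A
  have h := hO2.2.1 z hz
  have hpi := Real.pi_pos
  rw [abs_mul, abs_of_pos (by positivity), div_mul_eq_mul_div, div_lt_one hpi]
  linarith

theorem abs_X (hO5 : S_O5) (c : ℝ) (hc0 : 0 < c) (z : ℂ) (hz : ‖z‖ < 1) :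
    |(hc c z).re| < 1 := ((hO5 c hc0).1 z hz).trans (rr_lt_one c)

theorem Q_nonneg (hO5 : S_O5) (c : ℝ) (hc0 : 0 < c) (z : ℂ) (hz : ‖z‖ < 1) : 0 ≤ Q c z := by
  unfold Q
  obtain ⟨h1, h2⟩ := abs_lt.1 (abs_X hO5 c hc0 z hz)
  rcases le_total (hc c z).re (A z) with h | h
  · exact le_max_of_le_left (div_nonneg (by linarith) (by linarith))
  · exact le_max_of_le_right (div_nonneg (by linarith) (by linarith))

theorem q_eq (hO5 : S_O5) (c : ℝ) (hc0 : 0 < c) (L : Lens) (u : ℂ)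
    (hL : IsF c L u) (z : ℂ) (hz : ‖z‖ < 1) : qF L u (hc c z) = Q c z := by
  obtain ⟨hW, hu, hinv, -, -, -⟩ := hL
  have hmem : hc c z ∈ L.W := by
    rw [hW]
    exact ⟨z, by rw [Metric.mem_ball, dist_zero_right]; exact hz, rfl⟩
  have hcu : (starRingEnd ℂ) u * (u * z) = z := by
    rw [← mul_assoc, mul_comm ((starRingEnd ℂ) u) u, Complex.mul_conj, Complex.normSq_eq_norm_sq,
      hu]
    simp
  have hd : dF L u (hc c z) = A z - (hc c z).re := by
    unfold dF A
    rw [hinv z hz, hcu]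
  obtain ⟨h1, h2⟩ := abs_lt.1 (abs_X hO5 c hc0 z hz)
  have h3 : 0 < 1 - (hc c z).re := by linarith
  have h4 : 0 < 1 + (hc c z).re := by linarith
  unfold qF
  rw [indicator_of_mem hmem]
  unfold wF
  rw [hd]
  unfold Q
  split_ifs with h
  · rw [abs_of_pos h, abs_of_pos (by positivity), mul_one_div, max_eq_left]
    exact (div_nonpos_of_nonpos_of_nonneg (by linarith) h4.le).trans (div_nonneg h.le h3.le)
  · rw [not_lt] at h
    rw [abs_of_nonpos h, abs_neg, abs_of_pos (by positivity), mul_one_div, neg_sub, max_eq_right]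
    exact (div_nonpos_of_nonpos_of_nonneg h h3.le).trans (div_nonneg (by linarith) h4.le)

theorem inner_le (hO5 : S_O5) (c : ℝ) (hc0 : 0 < c) (m : ℕ) (hm : 1 ≤ m) (θ : ℝ) (t ε : ℝ)
    (ht0 : 0 ≤ t) (hε : 0 ≤ ε)
    (hQ : ∀ r : ℝ, t ≤ r → 0 < r → r < 1 →
      1 - Q c ((r : ℂ) * Complex.exp (θ * Complex.I)) ≤ ε) :
    ∫⁻ r in Ioo (0 : ℝ) 1, ENNReal.ofReal (r * ((m : ℝ) ^ 2 *
      ‖(r : ℂ) * Complex.exp (θ * Complex.I)‖ ^ (2 * (m - 1)) *
        (1 - Q c ((r : ℂ) * Complex.exp (θ * Complex.I))))) ≤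
      ENNReal.ofReal ((m : ℝ) / 2 * (ε + t ^ (2 * m))) := by
  have hm0 : (0 : ℝ) < m := by exact_mod_cast hm
  have hQ1 : ∀ r : ℝ, 0 < r → r < 1 → 1 - Q c ((r : ℂ) * Complex.exp (θ * Complex.I)) ≤ 1 := by
    intro r h0 h1
    have : 0 ≤ Q c ((r : ℂ) * Complex.exp (θ * Complex.I)) :=
      Q_nonneg hO5 c hc0 _ (by rw [H712MA.H5_normexp r θ h0.le]; exact h1)
    linarith
  have hle : ∀ r ∈ Ioo (0 : ℝ) 1, ENNReal.ofReal (r * ((m : ℝ) ^ 2 *
      ‖(r : ℂ) * Complex.exp (θ * Complex.I)‖ ^ (2 * (m - 1)) *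
        (1 - Q c ((r : ℂ) * Complex.exp (θ * Complex.I))))) ≤
      ENNReal.ofReal ε * ENNReal.ofReal ((m : ℝ) ^ 2 * r ^ (2 * m - 1)) +
        (Ioo (0 : ℝ) t).indicator (fun r => ENNReal.ofReal ((m : ℝ) ^ 2 * r ^ (2 * m - 1))) r := by
    intro r hr
    rw [H712MA.H5_normexp r θ hr.1.le]
    have e2 : 2 * m - 1 = 2 * (m - 1) + 1 := by omega
    have e3 : r * ((m : ℝ) ^ 2 * r ^ (2 * (m - 1)) *
        (1 - Q c ((r : ℂ) * Complex.exp (θ * Complex.I)))) =
        ((m : ℝ) ^ 2 * r ^ (2 * m - 1)) *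
          (1 - Q c ((r : ℂ) * Complex.exp (θ * Complex.I))) := by
      rw [e2, pow_succ]; ring
    rw [e3]
    have hp : 0 ≤ (m : ℝ) ^ 2 * r ^ (2 * m - 1) := by
      have := hr.1
      positivity
    by_cases hrt : r < t
    · rw [indicator_of_mem (show r ∈ Ioo (0 : ℝ) t from ⟨hr.1, hrt⟩)]
      refine le_trans ?_ le_add_self
      exact ENNReal.ofReal_le_ofReal (by
        calc _ ≤ (m : ℝ) ^ 2 * r ^ (2 * m - 1) * 1 :=
              mul_le_mul_of_nonneg_left (hQ1 r hr.1 hr.2) hp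
          _ = _ := mul_one _)
    · rw [indicator_of_notMem (show r ∉ Ioo (0 : ℝ) t from fun h => hrt h.2), add_zero,
        ← ENNReal.ofReal_mul hε]
      exact ENNReal.ofReal_le_ofReal (by
        rw [mul_comm ε]
        exact mul_le_mul_of_nonneg_left (hQ r (not_lt.1 hrt) hr.1 hr.2) hp)
  have hmeas : Measurable fun r : ℝ => ENNReal.ofReal ((m : ℝ) ^ 2 * r ^ (2 * m - 1)) := by
    fun_prop
  calc _ ≤ ∫⁻ r in Ioo (0 : ℝ) 1, (ENNReal.ofReal ε * ENNReal.ofReal ((m : ℝ) ^ 2 *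
          r ^ (2 * m - 1)) + (Ioo (0 : ℝ) t).indicator (fun r => ENNReal.ofReal ((m : ℝ) ^ 2 *
          r ^ (2 * m - 1))) r) := setLIntegral_mono' measurableSet_Ioo hle
    _ = ENNReal.ofReal ε * ENNReal.ofReal ((m : ℝ) / 2) +
        ∫⁻ r in Ioo (0 : ℝ) 1, (Ioo (0 : ℝ) t).indicator (fun r => ENNReal.ofReal ((m : ℝ) ^ 2 *
          r ^ (2 * m - 1))) r := by
        rw [lintegral_add_left (hmeas.const_mul _), lintegral_const_mul _ hmeas,
          H712MA.H5_pow m hm 1 zero_le_one, one_pow, mul_one]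
    _ ≤ ENNReal.ofReal ε * ENNReal.ofReal ((m : ℝ) / 2) +
        ∫⁻ r in Ioo (0 : ℝ) t, ENNReal.ofReal ((m : ℝ) ^ 2 * r ^ (2 * m - 1)) := by
        refine add_le_add le_rfl ?_
        exact (setLIntegral_le_lintegral _ _).trans
          (le_of_eq (lintegral_indicator measurableSet_Ioo _))
    _ = ENNReal.ofReal ((m : ℝ) / 2 * (ε + t ^ (2 * m))) := by
        rw [H712MA.H5_pow m hm t ht0, ← ENNReal.ofReal_mul hε, ← ENNReal.ofReal_add (by positivity)
          (by positivity)]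
        congr 1
        ring

/-- radial limits of `1 - q` -/
theorem radial (hO2 : S_O2) (hO5 : S_O5) (c : ℝ) (hc0 : 0 < c) (θ : ℝ) (hθ : Real.sin θ ≠ 0)
    (δ : ℝ) (hδ : 0 < δ) :
    ∀ᶠ r : ℝ in 𝓝[<] 1, 0 < r → 1 - δ < Q c ((r : ℂ) * Complex.exp (θ * Complex.I)) := by
  have hrr := rr_lt_one c
  -- the path tends to the boundary point inside the disc
  have hpath : Tendsto (fun r : ℝ => (r : ℂ) * Complex.exp (θ * Complex.I)) (𝓝[<] 1)
      (𝓝[Metric.ball 0 1] (Complex.exp (θ * Complex.I))) := by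
    rw [tendsto_nhdsWithin_iff]
    constructor
    · have h6 : Continuous (fun r : ℝ => (r : ℂ) * Complex.exp (θ * Complex.I)) := by fun_prop
      have h7 := (h6.tendsto 1).mono_left (nhdsWithin_le_nhds (s := Set.Iio (1 : ℝ)))
      simpa using h7
    · have h8 : ∀ᶠ r : ℝ in 𝓝[<] 1, 0 < r :=
        (eventually_gt_nhds (show (0 : ℝ) < 1 by norm_num)).filter_mono nhdsWithin_le_nhds
      filter_upwards [h8, self_mem_nhdsWithin] with r h9 h10
      rw [Metric.mem_ball, dist_zero_right, H712MA.H5_normexp r θ h9.le]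
      exact h10
  have hpi := Real.pi_pos
  have hpos : 0 < δ * (1 - rr c) := mul_pos hδ (by linarith)
  have hin : ∀ᶠ r : ℝ in 𝓝[<] 1, r < 1 := self_mem_nhdsWithin
  rcases lt_or_gt_of_ne hθ with hs | hs
  · have h1 := (hO2.2.2.2.2.2 θ hs).comp hpath
    have h2 : Tendsto (fun r : ℝ => A ((r : ℂ) * Complex.exp (θ * Complex.I))) (𝓝[<] 1)
        (𝓝 (-1)) := by
      have h3 := h1.const_mul (4 / Real.pi)
      have e : 4 / Real.pi * -(Real.pi / 4) = -1 := by field_simp
      rw [e] at h3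
      exact h3
    have h4 : ∀ᶠ r : ℝ in 𝓝[<] 1, A ((r : ℂ) * Complex.exp (θ * Complex.I)) <
        -1 + δ * (1 - rr c) := (tendsto_order.1 h2).2 _ (by linarith)
    filter_upwards [h4, hin] with r h5 h6 h7
    have hz : ‖(r : ℂ) * Complex.exp (θ * Complex.I)‖ < 1 := by
      rw [H712MA.H5_normexp r θ h7.le]; exact h6
    have hX := (hO5 c hc0).1 _ hz
    obtain ⟨hX1, hX2⟩ := abs_lt.1 hX
    unfold Q
    refine lt_of_lt_of_le ?_ (le_max_right _ _)
    rw [lt_div_iff₀ (by linarith)]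
    nlinarith
  · have h1 := (hO2.2.2.2.2.1 θ hs).comp hpath
    have h2 : Tendsto (fun r : ℝ => A ((r : ℂ) * Complex.exp (θ * Complex.I))) (𝓝[<] 1)
        (𝓝 1) := by
      have h3 := h1.const_mul (4 / Real.pi)
      have e : 4 / Real.pi * (Real.pi / 4) = 1 := by field_simp
      rw [e] at h3
      exact h3
    have h4 : ∀ᶠ r : ℝ in 𝓝[<] 1, 1 - δ * (1 - rr c) <
        A ((r : ℂ) * Complex.exp (θ * Complex.I)) := (tendsto_order.1 h2).1 _ (by linarith)
    filter_upwards [h4, hin] with r h5 h6 h7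
    have hz : ‖(r : ℂ) * Complex.exp (θ * Complex.I)‖ < 1 := by
      rw [H712MA.H5_normexp r θ h7.le]; exact h6
    have hX := (hO5 c hc0).1 _ hz
    obtain ⟨hX1, hX2⟩ := abs_lt.1 hX
    unfold Q
    refine lt_of_lt_of_le ?_ (le_max_left _ _)
    rw [lt_div_iff₀ (by linarith)]
    nlinarith

theorem two (hO1 : S_O1) (hO2 : S_O2) (hO4 : S_O4) (hO5 : S_O5) (hO6 : S_O6) (c : ℝ)
    (hc0 : 0 < c) (L : Lens) (u : ℂ) (hL : IsF c L u) :
    Tendsto (fun m : ℕ => (∫⁻ p, ENNReal.ofReal (af L m p * (1 - qF L u p))) / (m : ℝ≥0∞))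
      atTop (𝓝 0) := by
  have hAc : ContinuousOn A (Metric.ball 0 1) := by
    unfold A
    refine continuousOn_const.mul (Complex.continuous_im.comp_continuousOn ?_)
    intro z hz
    rw [Metric.mem_ball, dist_zero_right] at hz
    exact (hO2.1 z hz).continuousAt.continuousWithinAt
  have hXc : ContinuousOn (fun z => (hc c z).re) (Metric.ball 0 1) := by
    refine Complex.continuous_re.comp_continuousOn ?_
    intro z hz
    rw [Metric.mem_ball, dist_zero_right] at hz
    exact ((hO1 c hc0).1 z hz).continuousAt.continuousWithinAt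
  have hQc : ContinuousOn (Q c) (Metric.ball 0 1) := by
    unfold Q
    apply ContinuousOn.sup
    · refine (hAc.sub hXc).div (continuousOn_const.sub hXc) fun z hz => ?_
      rw [Metric.mem_ball, dist_zero_right] at hz
      obtain ⟨h1, h2⟩ := abs_lt.1 (abs_X hO5 c hc0 z hz)
      linarith
    · refine (hXc.sub hAc).div (continuousOn_const.add hXc) fun z hz => ?_
      rw [Metric.mem_ball, dist_zero_right] at hz
      obtain ⟨h1, h2⟩ := abs_lt.1 (abs_X hO5 c hc0 z hz)
      linarith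
  -- the inner function
  set H : ℕ → ℝ → ℝ≥0∞ := fun m θ => (∫⁻ r in Ioo (0 : ℝ) 1, ENNReal.ofReal (r * ((m : ℝ) ^ 2 *
      ‖(r : ℂ) * Complex.exp (θ * Complex.I)‖ ^ (2 * (m - 1)) *
        (1 - Q c ((r : ℂ) * Complex.exp (θ * Complex.I)))))) / (m : ℝ≥0∞) with hH
  have hFc : ∀ m : ℕ, ContinuousOn (fun z : ℂ => (m : ℝ) ^ 2 * ‖z‖ ^ (2 * (m - 1)) *
      (1 - Q c z)) (Metric.ball 0 1) := by
    intro m
    exact (by fun_prop : Continuous fun z : ℂ => (m : ℝ) ^ 2 * ‖z‖ ^ (2 * (m - 1))).continuousOn.mul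
      (continuousOn_const.sub hQc)
  -- measurability of the inner function
  have hmeas : ∀ m, Measurable (H m) := by
    intro m
    classical
    set f : ℂ → ℝ≥0∞ := (Metric.ball (0 : ℂ) 1).indicator fun z => ENNReal.ofReal
      ((m : ℝ) ^ 2 * ‖z‖ ^ (2 * (m - 1)) * (1 - Q c z)) with hf
    have hfm : Measurable f := by
      rw [hf, ← piecewise_eq_indicator]
      exact ContinuousOn.measurable_piecewise (ENNReal.continuous_ofReal.comp_continuousOn (hFc m))
        continuousOn_const measurableSet_ball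
    have e : H m = fun θ : ℝ => (∫⁻ r in Ioo (0 : ℝ) 1, ENNReal.ofReal r *
        f ((r : ℂ) * Complex.exp (θ * Complex.I))) / (m : ℝ≥0∞) := by
      funext θ
      simp only [hH]
      congr 1
      refine setLIntegral_congr_fun measurableSet_Ioo fun r hr => ?_
      rw [hf, indicator_of_mem (by
        rw [Metric.mem_ball, dist_zero_right, H712MA.H5_normexp r θ hr.1.le]; exact hr.2),
        ← ENNReal.ofReal_mul hr.1.le]
    rw [e]
    refine Measurable.div_const ?_ _
    have hj : Measurable fun q : ℝ × ℝ => ENNReal.ofReal q.2 *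
        f ((q.2 : ℂ) * Complex.exp (q.1 * Complex.I)) := by
      refine (ENNReal.measurable_ofReal.comp measurable_snd).mul (hfm.comp ?_)
      fun_prop
    exact hj.lintegral_prod_right'
  -- the integral in polar coordinates
  have hint : ∀ m : ℕ, (∫⁻ p, ENNReal.ofReal (af L m p * (1 - qF L u p))) / (m : ℝ≥0∞) =
      ∫⁻ θ in Ioo (-Real.pi) Real.pi, H m θ := by
    intro m
    have e1 : ∫⁻ p, ENNReal.ofReal (af L m p * (1 - qF L u p)) =
        ∫⁻ z in Metric.ball (0 : ℂ) 1,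
          ENNReal.ofReal ((m : ℝ) ^ 2 * ‖z‖ ^ (2 * (m - 1)) * (1 - Q c z)) := by
      rw [int_eq hO1 hO4 hO6 c hc0 L u hL m (fun p => 1 - qF L u p)]
      refine setLIntegral_congr_fun measurableSet_ball fun z hz => ?_
      rw [Metric.mem_ball, dist_zero_right] at hz
      rw [q_eq hO5 c hc0 L u hL z hz]
    rw [e1, H712MA.H5_polar _ (hFc m)]
    simp only [hH, div_eq_mul_inv]
    rw [← lintegral_mul_const _ ?_]
    have := (hmeas m)
    simp only [hH] at this
    by_cases hm : m = 0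
    · subst hm
      simp
    · have h4 : (fun θ : ℝ => ∫⁻ r in Ioo (0 : ℝ) 1, ENNReal.ofReal (r * ((m : ℝ) ^ 2 *
          ‖(r : ℂ) * Complex.exp (θ * Complex.I)‖ ^ (2 * (m - 1)) *
          (1 - Q c ((r : ℂ) * Complex.exp (θ * Complex.I)))))) = fun θ : ℝ =>
          ((∫⁻ r in Ioo (0 : ℝ) 1, ENNReal.ofReal (r * ((m : ℝ) ^ 2 *
          ‖(r : ℂ) * Complex.exp (θ * Complex.I)‖ ^ (2 * (m - 1)) *
          (1 - Q c ((r : ℂ) * Complex.exp (θ * Complex.I)))))) / (m : ℝ≥0∞)) * (m : ℝ≥0∞) := by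
        funext θ
        rw [ENNReal.div_mul_cancel (by exact_mod_cast hm) (ENNReal.natCast_ne_top m)]
      rw [h4]
      exact this.mul_const _
  simp only [hint]
  have hbound : ∀ m θ, H m θ ≤ 1 := by
    intro m θ
    simp only [hH]
    by_cases hm : m = 0
    · subst hm; simp
    · have hm1 : 1 ≤ m := Nat.one_le_iff_ne_zero.2 hm
      have h4 := inner_le hO5 c hc0 m hm1 θ 0 1 le_rfl zero_le_one (fun r _ hr0 hr1 => by
        have : 0 ≤ Q c ((r : ℂ) * Complex.exp (θ * Complex.I)) :=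
          Q_nonneg hO5 c hc0 _ (by rw [H712MA.H5_normexp r θ hr0.le]; exact hr1)
        linarith)
      rw [zero_pow (by omega), add_zero, mul_one] at h4
      refine ENNReal.div_le_of_le_mul (h4.trans ?_)
      rw [one_mul, ← ENNReal.ofReal_natCast]
      exact ENNReal.ofReal_le_ofReal (by
        have : (0 : ℝ) ≤ m := Nat.cast_nonneg m
        linarith)
  have h0 : (0 : ℝ≥0∞) = ∫⁻ θ in Ioo (-Real.pi) Real.pi, (fun _ : ℝ => (0 : ℝ≥0∞)) θ := by simp
  rw [h0]
  refine tendsto_lintegral_of_dominated_convergence (fun _ => 1) hmeas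
    (fun m => Eventually.of_forall fun θ => hbound m θ) ?_ ?_
  · rw [lintegral_const, one_mul, Measure.restrict_apply_univ, H712MA.H5_vol]
    exact ENNReal.ofReal_ne_top
  · -- pointwise limit
    have hae : ∀ᵐ θ : ℝ ∂(volume.restrict (Ioo (-Real.pi) Real.pi)), Real.sin θ ≠ 0 := by
      have hcount : ({θ : ℝ | Real.sin θ = 0}).Countable := by
        have : {θ : ℝ | Real.sin θ = 0} ⊆ Set.range fun n : ℤ => (n : ℝ) * Real.pi := by
          intro θ hθ
          obtain ⟨n, hn⟩ := Real.sin_eq_zero_iff.1 hθ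
          exact ⟨n, hn⟩
        exact (countable_range _).mono this
      refine ae_restrict_of_ae ?_
      rw [ae_iff]
      simpa using hcount.measure_zero volume
    filter_upwards [hae] with θ hθ
    rw [ENNReal.tendsto_nhds_zero]
    intro ε hε
    -- choose a real number below ε
    obtain ⟨δ, hδ0, hδ⟩ : ∃ δ : ℝ, 0 < δ ∧ ENNReal.ofReal δ ≤ ε := by
      rcases eq_or_ne ε ⊤ with h | h
      · exact ⟨1, one_pos, by rw [h]; exact le_top⟩
      · refine ⟨ε.toReal, ENNReal.toReal_pos hε.ne' h, ?_⟩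
        rw [ENNReal.ofReal_toReal h]
    have hev := radial hO2 hO5 c hc0 θ hθ δ hδ0
    obtain ⟨a, ha1, hball⟩ := (mem_nhdsLT_iff_exists_Ioo_subset' (zero_lt_one' ℝ)).1 hev
    set t : ℝ := max 0 ((a + 1) / 2) with ht
    have ha1' : a < 1 := ha1
    have ht0 : 0 ≤ t := le_max_left _ _
    have ht1 : t < 1 := by
      rw [ht]; exact max_lt one_pos (by linarith)
    have hta : a < t := lt_of_lt_of_le (by linarith) (le_max_right 0 ((a + 1) / 2))
    have hpow : Tendsto (fun m : ℕ => t ^ (2 * m)) atTop (𝓝 0) := by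
      have h5 : Tendsto (fun m : ℕ => (t ^ 2) ^ m) atTop (𝓝 0) :=
        tendsto_pow_atTop_nhds_zero_of_lt_one (by positivity) (by nlinarith)
      simpa only [pow_mul] using h5
    have hev2 : ∀ᶠ m : ℕ in atTop, t ^ (2 * m) < δ := (tendsto_order.1 hpow).2 δ hδ0
    filter_upwards [hev2, eventually_ge_atTop 1] with m hm hm1
    have h6 := inner_le hO5 c hc0 m hm1 θ t δ ht0 hδ0.le (fun r hr0 hrp hr1 => by
      have h7 : r ∈ Ioo a 1 := ⟨lt_of_lt_of_le hta hr0, hr1⟩
      have h8 := hball h7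
      have h9 : 1 - δ < Q c ((r : ℂ) * Complex.exp (θ * Complex.I)) := h8 hrp
      linarith)
    simp only [hH]
    refine ENNReal.div_le_of_le_mul (h6.trans ?_)
    calc ENNReal.ofReal ((m : ℝ) / 2 * (δ + t ^ (2 * m))) ≤ ENNReal.ofReal (δ * m) := by
          refine ENNReal.ofReal_le_ofReal ?_
          have hm0 : (0 : ℝ) ≤ m := Nat.cast_nonneg m
          have : (m : ℝ) / 2 * (δ + t ^ (2 * m)) ≤ (m : ℝ) / 2 * (δ + δ) :=
            mul_le_mul_of_nonneg_left (by linarith) (by linarith)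
          linarith
      _ = ENNReal.ofReal δ * (m : ℝ≥0∞) := by
          rw [ENNReal.ofReal_mul hδ0.le, ENNReal.ofReal_natCast]
      _ ≤ ε * (m : ℝ≥0∞) := mul_le_mul_left hδ _

theorem meas_AT : Measurable AT := by
  unfold AT
  have h1 : Measurable fun z : ℂ => Complex.log (1 + z) :=
    Complex.measurable_log.comp (measurable_const.add measurable_id)
  have h2 : Measurable fun z : ℂ => Complex.log (1 - z) :=
    Complex.measurable_log.comp (measurable_const.sub measurable_id)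
  exact (h1.sub h2).div_const _

theorem meas_q (L : Lens) (u : ℂ) (he : Measurable L.e) : Measurable (qF L u) := by
  classical
  have hd : Measurable (dF L u) := by
    unfold dF
    have h1 : Measurable fun p => (AT ((starRingEnd ℂ) u * L.e p)).im :=
      Complex.measurable_im.comp (meas_AT.comp (he.const_mul _))
    exact (h1.const_mul _).sub Complex.measurable_re
  have hw : Measurable (wF L u) := by
    unfold wF
    apply Measurable.ite (measurableSet_lt measurable_const hd)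
    · exact (measurable_const.sub Complex.measurable_re).const_div _
    · exact ((measurable_const.add Complex.measurable_re).const_div _).neg
  unfold qF
  exact (hd.abs.mul hw.abs).indicator L.isOpen.measurableSet

end TO11

open TO11 in
/-- **Task O11** -/
theorem O11 (hO1 : S_O1) (hO2 : S_O2) (hO4 : S_O4) (hO5 : S_O5) (hO6 : S_O6) : S_O11 := by
  intro r hr0 hr1 L u hL
  have hc0 : 0 < cc r := by
    unfold cc
    apply div_pos _ Real.pi_pos
    apply Real.log_pos
    rw [one_lt_div (by linarith)]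
    linarith
  exact ⟨meas_q L u hL.2.2.2.2.1, fun m hm => one hO1 hO4 hO6 _ hc0 L u hL m hm,
    two hO1 hO2 hO4 hO5 hO6 _ hc0 L u hL⟩

end H363KF
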