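import Pool.Agent.H363R3.KF.FStm

set_option autoImplicit false

noncomputable section

open MeasureTheory Filter Topology
open scoped BigOperators Matrix ENNReal

namespace H363KF

namespace O2aux

lemma slit_add {z : ℂ} (hz : ‖z‖ < 1) : 0 < (1 + z).re := by
  have h := Complex.abs_re_le_norm z
  have h2 := neg_abs_le z.re
  simp only [Complex.add_re, Complex.one_re]
  linarith

lemma slit_sub {z : ℂ} (hz : ‖z‖ < 1) : 0 < (1 - z).re := by
  have h := Complex.abs_re_le_norm z
  have h2 := le_abs_self z.re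
  simp only [Complex.sub_re, Complex.one_re]
  linarith

lemma AT_im (z : ℂ) : (AT z).im = (Complex.arg (1 + z) - Complex.arg (1 - z)) / 2 := by
  unfold AT
  have : (2 : ℂ) = ((2 : ℝ) : ℂ) := by norm_num
  rw [this, Complex.div_ofReal_im, Complex.sub_im, Complex.log_im, Complex.log_im]

lemma key_cos (z : ℂ) : ‖1 + z‖ * ‖1 - z‖ *
    Real.cos (Complex.arg (1 + z) - Complex.arg (1 - z)) = 1 - ‖z‖ ^ 2 := by
  have h1 := Complex.norm_mul_cos_arg (1 + z)
  have h2 := Complex.norm_mul_sin_arg (1 + z)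
  have h3 := Complex.norm_mul_cos_arg (1 - z)
  have h4 := Complex.norm_mul_sin_arg (1 - z)
  rw [Real.cos_sub]
  have : ‖1 + z‖ * ‖1 - z‖ * (Real.cos (Complex.arg (1 + z)) * Real.cos (Complex.arg (1 - z)) +
      Real.sin (Complex.arg (1 + z)) * Real.sin (Complex.arg (1 - z))) =
      (‖1 + z‖ * Real.cos (Complex.arg (1 + z))) * (‖1 - z‖ * Real.cos (Complex.arg (1 - z))) +
      (‖1 + z‖ * Real.sin (Complex.arg (1 + z))) * (‖1 - z‖ * Real.sin (Complex.arg (1 - z))) := by
    ring
  rw [this, h1, h2, h3, h4, Complex.sq_norm, Complex.normSq_apply]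
  simp only [Complex.add_re, Complex.one_re, Complex.sub_re, Complex.add_im, Complex.one_im,
    Complex.sub_im]
  ring

lemma arg_bounds {w : ℂ} (h : 0 < w.re) :
    -(Real.pi / 2) < Complex.arg w ∧ Complex.arg w < Real.pi / 2 := by
  have := Complex.abs_arg_lt_pi_div_two_iff.mpr (Or.inl h)
  exact abs_lt.mp this

lemma AT_im_lt {z : ℂ} (hz : ‖z‖ < 1) : |(AT z).im| < Real.pi / 4 := by
  rw [AT_im]
  obtain ⟨a1, a2⟩ := arg_bounds (slit_add hz)
  obtain ⟨b1, b2⟩ := arg_bounds (slit_sub hz)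
  have hk := key_cos z
  have hpos : 0 < 1 - ‖z‖ ^ 2 := by
    have := norm_nonneg z
    nlinarith
  have hn : 0 ≤ ‖1 + z‖ * ‖1 - z‖ := by positivity
  have hc : 0 < Real.cos (Complex.arg (1 + z) - Complex.arg (1 - z)) := by
    rw [← hk] at hpos
    exact (pos_iff_pos_of_mul_pos hpos).mp (lt_of_le_of_ne hn (by
      intro h0
      rw [← h0, zero_mul] at hpos
      exact lt_irrefl _ hpos))
  set t := Complex.arg (1 + z) - Complex.arg (1 - z) with ht
  have h1 : |t| < Real.pi / 2 := by
    by_contra hcon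
    push Not at hcon
    have h2 : Real.cos |t| ≤ 0 := by
      apply Real.cos_nonpos_of_pi_div_two_le_of_le hcon
      have : |t| < Real.pi := abs_lt.mpr ⟨by linarith, by linarith⟩
      linarith
    rw [Real.cos_abs] at h2
    linarith
  rw [abs_div, abs_of_pos (by norm_num : (0 : ℝ) < 2)]
  linarith

lemma exp_AT {z : ℂ} (h1 : 1 + z ≠ 0) (h2 : 1 - z ≠ 0) :
    Complex.exp (2 * AT z) = (1 + z) / (1 - z) := by
  unfold AT
  rw [mul_div_cancel₀ _ (two_ne_zero), Complex.exp_sub, Complex.exp_log h1, Complex.exp_log h2]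

lemma ne_of_re {w : ℂ} (h : 0 < w.re) : w ≠ 0 := by
  rintro rfl
  simp at h

lemma deriv_AT {z : ℂ} (hz : ‖z‖ < 1) : HasDerivAt AT (1 / (1 - z ^ 2)) z := by
  have h1 : HasDerivAt (fun w : ℂ => Complex.log (1 + w)) (1 / (1 + z)) z := by
    have := (hasDerivAt_id z).const_add (1 : ℂ)
    exact this.clog (Or.inl (slit_add hz))
  have h2 : HasDerivAt (fun w : ℂ => Complex.log (1 - w)) (-1 / (1 - z)) z := by
    have := (hasDerivAt_id z).const_sub (1 : ℂ)
    exact this.clog (Or.inl (slit_sub hz))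
  have h3 := (h1.sub h2).div_const 2
  refine h3.congr_deriv ?_
  have n1 := ne_of_re (slit_add hz)
  have n2 := ne_of_re (slit_sub hz)
  have n3 : (1 : ℂ) - z ^ 2 ≠ 0 := by
    have : (1 : ℂ) - z ^ 2 = (1 + z) * (1 - z) := by ring
    rw [this]
    exact mul_ne_zero n1 n2
  field_simp
  ring

lemma cont_AT {z : ℂ} (h : z.im ≠ 0) : ContinuousAt AT z := by
  unfold AT
  have h1 : (1 + z) ∈ Complex.slitPlane := Or.inr (by simpa using h)
  have h2 : (1 - z) ∈ Complex.slitPlane := Or.inr (by simpa using h)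
  have c1 : ContinuousAt (fun w : ℂ => Complex.log (1 + w)) z :=
    (continuousAt_const.add continuousAt_id).clog h1
  have c2 : ContinuousAt (fun w : ℂ => Complex.log (1 - w)) z :=
    (continuousAt_const.sub continuousAt_id).clog h2
  exact (c1.sub c2).div_const 2

lemma exp_data (θ : ℝ) : (Complex.exp (θ * Complex.I)).re = Real.cos θ ∧
    (Complex.exp (θ * Complex.I)).im = Real.sin θ ∧ ‖Complex.exp (θ * Complex.I)‖ = 1 := by
  refine ⟨?_, ?_, Complex.norm_exp_ofReal_mul_I θ⟩
  · exact Complex.exp_ofReal_mul_I_re θ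
  · exact Complex.exp_ofReal_mul_I_im θ

lemma cos_bd {θ : ℝ} (h : Real.sin θ ≠ 0) : -1 < Real.cos θ ∧ Real.cos θ < 1 := by
  have h1 := Real.sin_sq_add_cos_sq θ
  have h2 : 0 < Real.sin θ ^ 2 := by positivity
  constructor <;> nlinarith

lemma cos_zero {θ : ℝ} (h : Real.sin θ ≠ 0) :
    Real.cos (Complex.arg (1 + Complex.exp (θ * Complex.I)) -
      Complex.arg (1 - Complex.exp (θ * Complex.I))) = 0 := by
  obtain ⟨e1, e2, e3⟩ := exp_data θ
  obtain ⟨c1, c2⟩ := cos_bd h
  have hk := key_cos (Complex.exp (θ * Complex.I))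
  rw [e3] at hk
  have n1 : 1 + Complex.exp (θ * Complex.I) ≠ 0 := by
    apply ne_of_re
    rw [Complex.add_re, Complex.one_re, e1]
    linarith
  have n2 : 1 - Complex.exp (θ * Complex.I) ≠ 0 := by
    apply ne_of_re
    rw [Complex.sub_re, Complex.one_re, e1]
    linarith
  have hn : ‖1 + Complex.exp (θ * Complex.I)‖ * ‖1 - Complex.exp (θ * Complex.I)‖ ≠ 0 :=
    mul_ne_zero (norm_ne_zero_iff.mpr n1) (norm_ne_zero_iff.mpr n2)
  have h0 : ‖1 + Complex.exp (θ * Complex.I)‖ * ‖1 - Complex.exp (θ * Complex.I)‖ *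
      Real.cos (Complex.arg (1 + Complex.exp (θ * Complex.I)) -
      Complex.arg (1 - Complex.exp (θ * Complex.I))) = 0 := by
    rw [hk]
    norm_num
  exact (mul_eq_zero.mp h0).resolve_left hn

lemma half_pi {t : ℝ} (h0 : 0 < t) (h1 : t < Real.pi) (h : Real.cos t = 0) : t = Real.pi / 2 := by
  apply Real.injOn_cos ⟨h0.le, h1.le⟩ ⟨by positivity, by linarith [Real.pi_pos]⟩
  rw [h, Real.cos_pi_div_two]

lemma im_AT_pos {θ : ℝ} (h : 0 < Real.sin θ) :
    (AT (Complex.exp (θ * Complex.I))).im = Real.pi / 4 := by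
  obtain ⟨e1, e2, e3⟩ := exp_data θ
  obtain ⟨c1, c2⟩ := cos_bd h.ne'
  rw [AT_im]
  have r1 : 0 < (1 + Complex.exp (θ * Complex.I)).re := by
    rw [Complex.add_re, Complex.one_re, e1]; linarith
  have r2 : 0 < (1 - Complex.exp (θ * Complex.I)).re := by
    rw [Complex.sub_re, Complex.one_re, e1]; linarith
  have i1 : 0 < (1 + Complex.exp (θ * Complex.I)).im := by
    rw [Complex.add_im, Complex.one_im, e2]; linarith
  have i2 : (1 - Complex.exp (θ * Complex.I)).im < 0 := by
    rw [Complex.sub_im, Complex.one_im, e2]; linarith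
  obtain ⟨a1, a2⟩ := arg_bounds r1
  obtain ⟨b1, b2⟩ := arg_bounds r2
  have a3 := Complex.arg_nonneg_iff.mpr i1.le
  have b3 := Complex.arg_neg_iff.mpr i2
  have := half_pi (t := Complex.arg (1 + Complex.exp (θ * Complex.I)) -
      Complex.arg (1 - Complex.exp (θ * Complex.I))) (by linarith) (by linarith) (cos_zero h.ne')
  rw [this]
  ring

lemma im_AT_neg {θ : ℝ} (h : Real.sin θ < 0) :
    (AT (Complex.exp (θ * Complex.I))).im = -(Real.pi / 4) := by
  obtain ⟨e1, e2, e3⟩ := exp_data θ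
  obtain ⟨c1, c2⟩ := cos_bd h.ne
  rw [AT_im]
  have r1 : 0 < (1 + Complex.exp (θ * Complex.I)).re := by
    rw [Complex.add_re, Complex.one_re, e1]; linarith
  have r2 : 0 < (1 - Complex.exp (θ * Complex.I)).re := by
    rw [Complex.sub_re, Complex.one_re, e1]; linarith
  have i1 : (1 + Complex.exp (θ * Complex.I)).im < 0 := by
    rw [Complex.add_im, Complex.one_im, e2]; linarith
  have i2 : 0 < (1 - Complex.exp (θ * Complex.I)).im := by
    rw [Complex.sub_im, Complex.one_im, e2]; linarith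
  obtain ⟨a1, a2⟩ := arg_bounds r1
  obtain ⟨b1, b2⟩ := arg_bounds r2
  have a3 := Complex.arg_neg_iff.mpr i1
  have b3 := Complex.arg_nonneg_iff.mpr i2.le
  have h0 := cos_zero h.ne
  rw [← Real.cos_neg, neg_sub] at h0
  have := half_pi (t := Complex.arg (1 - Complex.exp (θ * Complex.I)) -
      Complex.arg (1 + Complex.exp (θ * Complex.I))) (by linarith) (by linarith) h0
  linarith

lemma tanh_fact {τ : ℂ} (hτ : |τ.im| < Real.pi / 4) :
    ‖Complex.tanh τ‖ < 1 ∧ AT (Complex.tanh τ) = τ := by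
  set E := Complex.exp (2 * τ) with hE
  have hre : 0 < E.re := by
    rw [hE, Complex.exp_re]
    apply mul_pos (Real.exp_pos _)
    apply Real.cos_pos_of_mem_Ioo
    have h := abs_lt.mp hτ
    have h2 : (2 * τ).im = 2 * τ.im := by simp
    rw [h2]
    constructor <;> linarith
  have hE1 : E + 1 ≠ 0 := by
    apply ne_of_re
    simp only [Complex.add_re, Complex.one_re]
    linarith
  have hexp : Complex.exp τ ≠ 0 := Complex.exp_ne_zero τ
  have hEsq : E = Complex.exp τ * Complex.exp τ := by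
    rw [hE, ← Complex.exp_add]
    ring_nf
  have htanh : Complex.tanh τ = (E - 1) / (E + 1) := by
    have hneg : Complex.exp (-τ) = (Complex.exp τ)⁻¹ := Complex.exp_neg τ
    have hd : Complex.exp τ + Complex.exp (-τ) ≠ 0 := by
      intro h0
      apply hE1
      have : (Complex.exp τ + Complex.exp (-τ)) * Complex.exp τ = E + 1 := by
        rw [hneg, hEsq, add_mul, inv_mul_cancel₀ hexp]
      rw [← this, h0, zero_mul]
    rw [Complex.tanh_eq_sinh_div_cosh, Complex.sinh, Complex.cosh]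
    rw [div_div_div_cancel_right₀ (two_ne_zero), div_eq_div_iff hd hE1, hneg, hEsq]
    field_simp
  have hnorm : ‖Complex.tanh τ‖ < 1 := by
    rw [htanh, norm_div, div_lt_one (norm_pos_iff.mpr hE1)]
    have h1 : ‖E - 1‖ ^ 2 < ‖E + 1‖ ^ 2 := by
      rw [Complex.sq_norm, Complex.sq_norm, Complex.normSq_apply, Complex.normSq_apply]
      simp only [Complex.sub_re, Complex.one_re, Complex.sub_im, Complex.one_im, Complex.add_re,
        Complex.add_im]
      nlinarith
    exact lt_of_pow_lt_pow_left₀ 2 (norm_nonneg _) h1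
  refine ⟨hnorm, ?_⟩
  have n1 := ne_of_re (slit_add hnorm)
  have n2 := ne_of_re (slit_sub hnorm)
  have hq : (1 + Complex.tanh τ) / (1 - Complex.tanh τ) = E := by
    rw [div_eq_iff n2, htanh]
    field_simp
    ring
  have hEE : Complex.exp (2 * AT (Complex.tanh τ)) = Complex.exp (2 * τ) := by
    rw [exp_AT n1 n2, hq]
  have hAT := abs_lt.mp (AT_im_lt hnorm)
  have hτ' := abs_lt.mp hτ
  have i1 : (2 * AT (Complex.tanh τ)).im = 2 * (AT (Complex.tanh τ)).im := by simp
  have i2 : (2 * τ).im = 2 * τ.im := by simp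
  have hpi := Real.pi_pos
  have := Complex.exp_inj_of_neg_pi_lt_of_le_pi (by rw [i1]; linarith) (by rw [i1]; linarith)
    (by rw [i2]; linarith) (by rw [i2]; linarith) hEE
  exact mul_left_cancel₀ two_ne_zero this

end O2aux

open O2aux in
theorem O2 : S_O2 := by
  refine ⟨fun z hz => deriv_AT hz, fun z hz => AT_im_lt hz, ?_, fun τ hτ => tanh_fact hτ, ?_, ?_⟩
  · intro z w hz hw h
    have h1 := exp_AT (ne_of_re (slit_add hz)) (ne_of_re (slit_sub hz))
    have h2 := exp_AT (ne_of_re (slit_add hw)) (ne_of_re (slit_sub hw))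
    rw [h, h2, div_eq_div_iff (ne_of_re (slit_sub hw)) (ne_of_re (slit_sub hz))] at h1
    have h3 : (2 : ℂ) * (w - z) = 0 := by linear_combination h1
    have h4 : w - z = 0 := by simpa using h3
    exact (sub_eq_zero.mp h4).symm
  · intro θ hθ
    have hc : ContinuousAt (fun z : ℂ => (AT z).im) (Complex.exp (θ * Complex.I)) :=
      Complex.continuous_im.continuousAt.comp (cont_AT (by
        rw [(exp_data θ).2.1]
        exact hθ.ne'))
    have := hc.tendsto
    rw [im_AT_pos hθ] at this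
    exact this.mono_left nhdsWithin_le_nhds
  · intro θ hθ
    have hc : ContinuousAt (fun z : ℂ => (AT z).im) (Complex.exp (θ * Complex.I)) :=
      Complex.continuous_im.continuousAt.comp (cont_AT (by
        rw [(exp_data θ).2.1]
        exact hθ.ne))
    have := hc.tendsto
    rw [im_AT_neg hθ] at this
    exact this.mono_left nhdsWithin_le_nhds

end H363KF
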