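import Pool.Agent.H363R3.KF.FStm

/-! Task O3 (helper204): integral representations of the Funk lens map. -/

set_option autoImplicit false

noncomputable section

open MeasureTheory Filter Topology
open scoped BigOperators

namespace H363KF

namespace O3

/-- the Taylor series of `artanh` -/
theorem hasSum_AT (z : ℂ) (hz : ‖z‖ < 1) :
    HasSum (fun j : ℕ => z ^ (2 * j + 1) / ((2 * j + 1 : ℕ) : ℂ)) (AT z) := by
  have h1 := Complex.hasSum_taylorSeries_log hz
  have h2 := Complex.hasSum_taylorSeries_neg_log hz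
  have h3 := (h1.add h2).div_const 2
  have hval : (Complex.log (1 + z) + -Complex.log (1 - z)) / 2 = AT z := by
    unfold AT; ring
  rw [hval] at h3
  have hinj : Function.Injective (fun j : ℕ => 2 * j + 1) := fun a b h => by
    simpa using h
  have h4 := (hinj.hasSum_iff (f := fun n : ℕ => ((-1) ^ (n + 1) * z ^ n / n + z ^ n / n) / 2)
    (a := AT z) (by
      intro n hn
      have heven : Even n := by
        rcases Nat.even_or_odd n with h | ⟨k, hk⟩
        · exact h
        · exact absurd ⟨k, hk.symm⟩ hn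
      have : (-1 : ℂ) ^ (n + 1) = -1 := by
        rw [pow_succ, heven.neg_one_pow]; ring
      show ((-1) ^ (n + 1) * z ^ n / n + z ^ n / n) / 2 = 0
      rw [this]; ring)).2 h3
  convert h4 using 1
  funext j
  show z ^ (2 * j + 1) / ((2 * j + 1 : ℕ) : ℂ) = ((-1) ^ (2 * j + 1 + 1) * z ^ (2 * j + 1) /
    ((2 * j + 1 : ℕ) : ℂ) + z ^ (2 * j + 1) / ((2 * j + 1 : ℕ) : ℂ)) / 2
  have : (-1 : ℂ) ^ (2 * j + 1 + 1) = 1 := by
    rw [show 2 * j + 1 + 1 = 2 * (j + 1) by ring, pow_mul]; simp
  rw [this]; ring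

/-- the elementary integral -/
theorem int_exp (c : ℝ) (hc : 0 < c) (j : ℕ) :
    (∫ φ in (0 : ℝ)..Real.pi, (Real.exp (-(c * φ)) : ℂ) * (-Complex.I) *
      Complex.exp (((2 * j + 1 : ℕ) : ℂ) * (φ * Complex.I))) =
      ((1 + Real.exp (-(c * Real.pi)) : ℝ) : ℂ) / (((2 * j + 1 : ℕ) : ℂ) + (c : ℂ) * Complex.I) := by
  set a : ℂ := -(c : ℂ) + ((2 * j + 1 : ℕ) : ℂ) * Complex.I with ha
  have ha0 : a ≠ 0 := by
    intro h
    have := congrArg Complex.re h
    rw [ha] at this
    simp at this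
    exact hc.ne' this
  have h1 : ∀ φ : ℝ, (Real.exp (-(c * φ)) : ℂ) * (-Complex.I) *
      Complex.exp (((2 * j + 1 : ℕ) : ℂ) * (φ * Complex.I)) = (-Complex.I) * Complex.exp (a * φ) := by
    intro φ
    rw [Complex.ofReal_exp, mul_comm (Complex.exp _) (-Complex.I), mul_assoc, ← Complex.exp_add]
    congr 2
    rw [ha]; push_cast; ring
  simp only [h1]
  rw [intervalIntegral.integral_const_mul, integral_exp_mul_complex ha0]
  have h2 : Complex.exp (a * (Real.pi : ℝ)) = -((Real.exp (-(c * Real.pi)) : ℝ) : ℂ) := by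
    have h3 : a * ((Real.pi : ℝ) : ℂ) = ((-(c * Real.pi) : ℝ) : ℂ) +
        (j * (2 * Real.pi * Complex.I) + Real.pi * Complex.I) := by
      rw [ha]; push_cast; ring
    rw [h3, Complex.exp_add, Complex.exp_add, Complex.exp_nat_mul_two_pi_mul_I, Complex.exp_pi_mul_I,
      Complex.ofReal_exp]
    ring
  rw [h2]
  have h4 : a = Complex.I * (((2 * j + 1 : ℕ) : ℂ) + (c : ℂ) * Complex.I) := by
    rw [ha]
    have : Complex.I * ((c : ℂ) * Complex.I) = -(c : ℂ) := by
      rw [mul_comm (c : ℂ) Complex.I, ← mul_assoc, Complex.I_mul_I]; ring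
    rw [mul_add, this]; ring
  have hb0 : ((2 * j + 1 : ℕ) : ℂ) + (c : ℂ) * Complex.I ≠ 0 := by
    intro h
    apply ha0
    rw [h4, h, mul_zero]
  rw [h4]
  simp only [Complex.ofReal_zero, mul_zero, Complex.exp_zero]
  have hI := Complex.I_ne_zero
  have h5 : ∀ D : ℂ, D ≠ 0 → -Complex.I * ((-((Real.exp (-(c * Real.pi)) : ℝ) : ℂ) - 1) /
      (Complex.I * D)) = ((1 + Real.exp (-(c * Real.pi)) : ℝ) : ℂ) / D := by
    intro D hD
    field_simp
    push_cast
    ring
  exact h5 _ hb0

/-- interchange of sum and integral -/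
theorem key (c : ℝ) (hc : 0 < c) (a : ℕ → ℂ) (ρ : ℝ) (h0 : 0 ≤ ρ) (h1 : ρ < 1)
    (ha : ∀ j, ‖a j‖ ≤ ρ ^ j) (f : ℝ → ℂ)
    (hf : ∀ φ : ℝ, HasSum (fun j : ℕ => a j * Complex.exp (((2 * j + 1 : ℕ) : ℂ) * (φ * Complex.I)))
      (f φ)) :
    (∫ φ in (0 : ℝ)..Real.pi, (Real.exp (-(c * φ)) : ℂ) * (-Complex.I) * f φ) =
      ((1 + Real.exp (-(c * Real.pi)) : ℝ) : ℂ) *
        ∑' j : ℕ, a j / (((2 * j + 1 : ℕ) : ℂ) + (c : ℂ) * Complex.I) := by
  have hS : HasSum (fun j : ℕ => ∫ φ in (0 : ℝ)..Real.pi, a j * ((Real.exp (-(c * φ)) : ℂ) *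
      (-Complex.I) * Complex.exp (((2 * j + 1 : ℕ) : ℂ) * (φ * Complex.I))))
      (∫ φ in (0 : ℝ)..Real.pi, (Real.exp (-(c * φ)) : ℂ) * (-Complex.I) * f φ) := by
    apply intervalIntegral.hasSum_integral_of_dominated_convergence (fun j _ => ρ ^ j)
    · intro j
      apply Continuous.aestronglyMeasurable
      fun_prop
    · intro j
      refine Filter.Eventually.of_forall fun φ hφ => ?_
      rw [Set.uIoc_of_le Real.pi_pos.le, Set.mem_Ioc] at hφ
      rw [norm_mul, norm_mul, norm_mul, norm_neg, Complex.norm_I, mul_one]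
      have e1 : ‖Complex.exp (((2 * j + 1 : ℕ) : ℂ) * (φ * Complex.I))‖ = 1 := by
        rw [show ((2 * j + 1 : ℕ) : ℂ) * (φ * Complex.I) = (((2 * j + 1 : ℕ) * φ : ℝ) : ℂ) * Complex.I by
          push_cast; ring]
        exact Complex.norm_exp_ofReal_mul_I _
      have e2 : ‖((Real.exp (-(c * φ)) : ℝ) : ℂ)‖ ≤ 1 := by
        rw [Complex.norm_real, Real.norm_eq_abs, abs_of_pos (Real.exp_pos _), Real.exp_le_one_iff]
        have := mul_pos hc hφ.1
        linarith
      rw [e1, mul_one]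
      calc ‖a j‖ * ‖((Real.exp (-(c * φ)) : ℝ) : ℂ)‖ ≤ ρ ^ j * 1 :=
            mul_le_mul (ha j) e2 (norm_nonneg _) (by positivity)
        _ = ρ ^ j := mul_one _
    · exact Filter.Eventually.of_forall fun φ _ => summable_geometric_of_lt_one h0 h1
    · exact intervalIntegrable_const
    · refine Filter.Eventually.of_forall fun φ _ => ?_
      have h3 := (hf φ).mul_left ((Real.exp (-(c * φ)) : ℂ) * (-Complex.I))
      have e : (fun j : ℕ => a j * ((Real.exp (-(c * φ)) : ℂ) *
          (-Complex.I) * Complex.exp (((2 * j + 1 : ℕ) : ℂ) * (φ * Complex.I)))) =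
          fun j : ℕ => (Real.exp (-(c * φ)) : ℂ) * (-Complex.I) *
            (a j * Complex.exp (((2 * j + 1 : ℕ) : ℂ) * (φ * Complex.I))) := by
        funext j; ring
      rw [e]
      exact h3
  rw [← hS.tsum_eq, ← tsum_mul_left]
  refine tsum_congr fun j => ?_
  rw [intervalIntegral.integral_const_mul, int_exp c hc j]
  ring

end O3

theorem O3 : S_O3 := by
  intro c hc0 z hz
  have hE : (0 : ℝ) < 1 + Real.exp (-(c * Real.pi)) := by positivity
  have hEc : ((1 + Real.exp (-(c * Real.pi)) : ℝ) : ℂ) ≠ 0 := by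
    exact_mod_cast hE.ne'
  have hρ : ‖z‖ ^ 2 < 1 := by
    rw [sq_lt_one_iff₀ (norm_nonneg _)]; exact hz
  have hexp : ∀ φ : ℝ, ‖Complex.exp (φ * Complex.I)‖ = 1 := fun φ => Complex.norm_exp_ofReal_mul_I φ
  constructor
  · have h := O3.key c hc0 (fun j => z ^ (2 * j + 1) / ((2 * j + 1 : ℕ) : ℂ)) (‖z‖ ^ 2)
      (sq_nonneg _) hρ (by
        intro j
        rw [norm_div, norm_pow, Complex.norm_natCast, div_le_iff₀ (by positivity)]
        have h1 : (1 : ℝ) ≤ ((2 * j + 1 : ℕ) : ℝ) := by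
          push_cast; have : (0 : ℝ) ≤ j := Nat.cast_nonneg j; linarith
        calc ‖z‖ ^ (2 * j + 1) = (‖z‖ ^ 2) ^ j * ‖z‖ := by rw [pow_succ, pow_mul]
          _ ≤ (‖z‖ ^ 2) ^ j * ((2 * j + 1 : ℕ) : ℝ) :=
            mul_le_mul_of_nonneg_left (by linarith) (by positivity))
      (fun φ => AT (Complex.exp (φ * Complex.I) * z)) (by
        intro φ
        have h1 := O3.hasSum_AT (Complex.exp (φ * Complex.I) * z) (by
          rw [norm_mul, hexp, one_mul]; exact hz)
        convert h1 using 1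
        funext j
        rw [mul_pow, ← Complex.exp_nat_mul]
        ring)
    rw [h]
    unfold hc
    rw [← mul_assoc]
    congr 1
    · push_cast
      have : (1 + Complex.exp (-((c : ℂ) * Real.pi))) ≠ 0 := by
        have := hEc; push_cast at this; exact this
      field_simp
    · refine tsum_congr fun j => ?_
      rw [div_div]
  · have h := O3.key c hc0 (fun j => z ^ (2 * j)) (‖z‖ ^ 2)
      (sq_nonneg _) hρ (by
        intro j
        rw [norm_pow, pow_mul])
      (fun φ => Complex.exp (φ * Complex.I) / (1 - Complex.exp (2 * φ * Complex.I) * z ^ 2)) (by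
        intro φ
        have h2 : ‖Complex.exp (2 * φ * Complex.I) * z ^ 2‖ < 1 := by
          rw [norm_mul, norm_pow, show (2 * (φ : ℂ) * Complex.I) = ((2 * φ : ℝ) : ℂ) * Complex.I by
            push_cast; ring, Complex.norm_exp_ofReal_mul_I, one_mul]
          exact hρ
        have h1 := (hasSum_geometric_of_norm_lt_one h2).mul_left (Complex.exp (φ * Complex.I))
        rw [div_eq_mul_inv]
        have e : (fun j : ℕ => z ^ (2 * j) * Complex.exp (((2 * j + 1 : ℕ) : ℂ) * (φ * Complex.I))) =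
            fun j : ℕ => Complex.exp (φ * Complex.I) *
              (Complex.exp (2 * φ * Complex.I) * z ^ 2) ^ j := by
          funext j
          have e2 : Complex.exp (((2 * j + 1 : ℕ) : ℂ) * (φ * Complex.I)) =
              Complex.exp (φ * Complex.I) * Complex.exp (j * (2 * φ * Complex.I)) := by
            rw [← Complex.exp_add]
            congr 1
            push_cast; ring
          rw [mul_pow, ← Complex.exp_nat_mul, ← pow_mul, e2]
          ring
        rw [e]
        exact h1)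
    have h' : (∫ φ in (0 : ℝ)..Real.pi, (Real.exp (-(c * φ)) : ℂ) * (-Complex.I) *
        Complex.exp (φ * Complex.I) / (1 - Complex.exp (2 * φ * Complex.I) * z ^ 2)) =
        ∫ φ in (0 : ℝ)..Real.pi, (Real.exp (-(c * φ)) : ℂ) * (-Complex.I) *
        (Complex.exp (φ * Complex.I) / (1 - Complex.exp (2 * φ * Complex.I) * z ^ 2)) := by
      congr 1
      funext φ
      rw [mul_div_assoc]
    rw [h', h]
    unfold hcd
    rw [← mul_assoc]
    congr 1
    push_cast
    have : (1 + Complex.exp (-((c : ℂ) * Real.pi))) ≠ 0 := by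
      have := hEc; push_cast at this; exact this
    field_simp

end H363KF
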