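import Pool.Agent.H363R3.KF.FStm

/-!
O4: positivity of `Re ((1-z²) h')` and a lower bound of `|h'|` (helper968).
-/

set_option autoImplicit false

noncomputable section

open MeasureTheory Filter Topology

namespace H363KF

namespace O4

/-- the integrand of the second formula of O3 -/
def G (c : ℝ) (z : ℂ) (φ : ℝ) : ℂ :=
  (Real.exp (-(c * φ)) : ℂ) * (-Complex.I) *
        Complex.exp (φ * Complex.I) / (1 - Complex.exp (2 * φ * Complex.I) * z ^ 2)

/-- Poisson kernel -/
def P (w : ℂ) (φ : ℝ) : ℝ := (1 - ‖w‖ ^ 2) / ‖1 - Complex.exp (2 * φ * Complex.I) * w‖ ^ 2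

theorem norm_e (φ : ℝ) : ‖Complex.exp (2 * φ * Complex.I)‖ = 1 := by
  have : (2 * φ * Complex.I : ℂ) = ((2 * φ : ℝ) : ℂ) * Complex.I := by push_cast; ring
  rw [this, Complex.norm_exp_ofReal_mul_I]

theorem den_ne {w : ℂ} (hw : ‖w‖ < 1) (e : ℂ) (he : ‖e‖ ≤ 1) : 1 - e * w ≠ 0 := by
  intro h
  have h1 : e * w = 1 := by linear_combination -h
  have h2 : ‖e * w‖ = 1 := by rw [h1]; simp
  rw [norm_mul] at h2
  have h3 : ‖e‖ * ‖w‖ ≤ 1 * ‖w‖ := mul_le_mul_of_nonneg_right he (norm_nonneg _)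
  linarith

theorem P_pos {w : ℂ} (hw : ‖w‖ < 1) (φ : ℝ) : 0 < P w φ := by
  unfold P
  apply div_pos
  · have := norm_nonneg w
    nlinarith
  · have := norm_pos_iff.2 (den_ne hw _ (norm_e φ).le)
    positivity

theorem P_cont {w : ℂ} (hw : ‖w‖ < 1) : Continuous (P w) := by
  unfold P
  apply Continuous.div
  · fun_prop
  · fun_prop
  · intro φ
    have := norm_pos_iff.2 (den_ne hw _ (norm_e φ).le)
    positivity

theorem G_cont (c : ℝ) {z : ℂ} (hz : ‖z ^ 2‖ < 1) : Continuous (G c z) := by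
  unfold G
  apply Continuous.div
  · fun_prop
  · fun_prop
  · intro φ
    exact den_ne hz _ (norm_e φ).le

theorem re_G (c : ℝ) {z : ℂ} (hz : ‖z ^ 2‖ < 1) (φ : ℝ) :
    ((1 - z ^ 2) * G c z φ).re = Real.exp (-(c * φ)) * Real.sin φ * P (z ^ 2) φ := by
  set w := z ^ 2 with hw
  have hd : 1 - Complex.exp (2 * φ * Complex.I) * w ≠ 0 := den_ne hz _ (norm_e φ).le
  have hn : 0 < ‖1 - Complex.exp (2 * φ * Complex.I) * w‖ ^ 2 := by
    have := norm_pos_iff.2 hd
    positivity
  have h1 : (1 - w) * G c z φ = (Real.exp (-(c * φ)) : ℂ) *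
      ((-Complex.I) * Complex.exp (φ * Complex.I) * (1 - w) /
        (1 - Complex.exp (2 * φ * Complex.I) * w)) := by
    unfold G
    rw [← hw]
    ring
  rw [h1, Complex.re_ofReal_mul, mul_assoc (Real.exp _) (Real.sin _) (P _ _)]
  congr 1
  have he : Complex.exp (2 * φ * Complex.I) = Complex.exp (φ * Complex.I) ^ 2 := by
    rw [← Complex.exp_nat_mul]
    congr 1
    push_cast
    ring
  have hcs : Complex.exp (φ * Complex.I) = ⟨Real.cos φ, Real.sin φ⟩ := by
    rw [Complex.exp_mul_I]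
    apply Complex.ext
    · simp [← Complex.ofReal_cos, ← Complex.ofReal_sin]
    · simp [← Complex.ofReal_cos, ← Complex.ofReal_sin]
  unfold P
  rw [Complex.div_re]
  have hns : Complex.normSq (1 - Complex.exp (2 * φ * Complex.I) * w) =
      ‖1 - Complex.exp (2 * φ * Complex.I) * w‖ ^ 2 := Complex.normSq_eq_norm_sq _
  rw [hns, ← add_div]
  rw [← mul_div_assoc]
  congr 1
  have hww : ‖w‖ ^ 2 = w.re * w.re + w.im * w.im := by
    rw [← Complex.normSq_eq_norm_sq, Complex.normSq_apply]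
  rw [hww, he, hcs]
  have hsc := Real.sin_sq_add_cos_sq φ
  simp only [pow_two, Complex.mul_re, Complex.mul_im, Complex.sub_re, Complex.sub_im,
    Complex.one_re, Complex.one_im, Complex.neg_re, Complex.neg_im, Complex.I_re, Complex.I_im]
  generalize Real.cos φ = C at hsc ⊢
  generalize Real.sin φ = S at hsc ⊢
  generalize w.re = a
  generalize w.im = b
  have hC : C ^ 2 = 1 - S ^ 2 := by linarith
  ring_nf
  have hC3 : C ^ 3 = C * (1 - S ^ 2) := by rw [← hC]; ring
  rw [hC, hC3]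
  ring

theorem mean_exp {f : ℂ → ℂ} (hf : DiffContOnCl ℂ f (Metric.ball 0 |(1 : ℝ)|)) :
    ∫ φ in (0 : ℝ)..Real.pi, f (Complex.exp (2 * φ * Complex.I)) = Real.pi * f 0 := by
  have h := hf.circleAverage
  rw [Real.circleAverage_def] at h
  have h2 : ∫ φ in (0 : ℝ)..Real.pi, (fun θ : ℝ => f (circleMap 0 1 θ)) (2 * φ) =
      (2 : ℝ)⁻¹ • ∫ θ in (2 * 0 : ℝ)..(2 * Real.pi), f (circleMap 0 1 θ) :=
    intervalIntegral.integral_comp_mul_left (fun θ : ℝ => f (circleMap 0 1 θ)) two_ne_zero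
  have h3 : (fun φ : ℝ => f (Complex.exp (2 * φ * Complex.I))) =
      (fun φ : ℝ => (fun θ : ℝ => f (circleMap 0 1 θ)) (2 * φ)) := by
    funext φ
    simp [circleMap]
  rw [h3, h2, ← h]
  rw [mul_zero]
  have hpi : (Real.pi : ℂ) ≠ 0 := by exact_mod_cast Real.pi_ne_zero
  rw [Complex.real_smul, Complex.real_smul]
  push_cast
  field_simp

/-- `P` as a sum of an analytic and an antianalytic function of `e` -/
theorem P_eq {w : ℂ} (hw : ‖w‖ < 1) (φ : ℝ) (e : ℂ) (he : e = Complex.exp (2 * φ * Complex.I)) :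
    ((P w φ : ℝ) : ℂ) = 1 / (1 - e * w) + (starRingEnd ℂ) (e * w / (1 - e * w)) := by
  have hne : ‖e‖ = 1 := by rw [he]; exact norm_e φ
  have hd : 1 - e * w ≠ 0 := den_ne hw _ hne.le
  have hd' : 1 - (starRingEnd ℂ) e * (starRingEnd ℂ) w ≠ 0 := by
    have := (map_ne_zero (starRingEnd ℂ)).2 hd
    simpa using this
  have hee : e * (starRingEnd ℂ) e = 1 := by
    rw [Complex.mul_conj, Complex.normSq_eq_norm_sq, hne]; simp
  have hww : w * (starRingEnd ℂ) w = ((‖w‖ ^ 2 : ℝ) : ℂ) := by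
    rw [Complex.mul_conj, Complex.normSq_eq_norm_sq]
  have hdd : (1 - e * w) * (1 - (starRingEnd ℂ) e * (starRingEnd ℂ) w) =
      ((‖1 - e * w‖ ^ 2 : ℝ) : ℂ) := by
    rw [← Complex.normSq_eq_norm_sq, ← Complex.mul_conj]
    simp
  unfold P
  rw [← he]
  push_cast
  simp only [map_div₀, map_mul, map_sub, map_one]
  push_cast at hdd hww
  rw [← hdd, ← hww, div_add_div _ _ hd hd']
  congr 1
  linear_combination (w * (starRingEnd ℂ) w) * hee

/-- the key identity `∫ (1 - e⁻¹) P = π (1 - w)` -/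
theorem int_P {w : ℂ} (hw : ‖w‖ < 1) :
    ∫ φ in (0 : ℝ)..Real.pi, (1 - (starRingEnd ℂ) (Complex.exp (2 * φ * Complex.I))) *
      ((P w φ : ℝ) : ℂ) = Real.pi * (1 - w) := by
  have hdiff : ∀ {f : ℂ → ℂ}, (∀ e : ℂ, ‖e‖ ≤ 1 → DifferentiableAt ℂ f e) →
      DiffContOnCl ℂ f (Metric.ball 0 |(1 : ℝ)|) := by
    intro f hf
    apply DifferentiableOn.diffContOnCl
    intro e he
    apply (hf e _).differentiableWithinAt
    have : e ∈ Metric.closedBall (0 : ℂ) |(1 : ℝ)| := Metric.closure_ball_subset_closedBall he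
    simpa using this
  have hA := mean_exp (f := fun e => (1 - w) / (1 - e * w)) (hdiff (by
    intro e he
    have := den_ne hw e he
    fun_prop (disch := assumption)))
  have hB := mean_exp (f := fun e => - e + (1 - e) * (e * w / (1 - e * w))) (hdiff (by
    intro e he
    have := den_ne hw e he
    fun_prop (disch := assumption)))
  have hcA : Continuous (fun φ : ℝ => (1 - w) / (1 - Complex.exp (2 * φ * Complex.I) * w)) := by
    apply Continuous.div
    · fun_prop
    · fun_prop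
    · intro φ; exact den_ne hw _ (norm_e φ).le
  have hcB : Continuous (fun φ : ℝ => - Complex.exp (2 * φ * Complex.I) +
      (1 - Complex.exp (2 * φ * Complex.I)) * (Complex.exp (2 * φ * Complex.I) * w /
        (1 - Complex.exp (2 * φ * Complex.I) * w))) := by
    apply Continuous.add
    · fun_prop
    · apply Continuous.mul
      · fun_prop
      · apply Continuous.div
        · fun_prop
        · fun_prop
        · intro φ; exact den_ne hw _ (norm_e φ).le
  have hpt : ∀ φ : ℝ, (1 - (starRingEnd ℂ) (Complex.exp (2 * φ * Complex.I))) * ((P w φ : ℝ) : ℂ) =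
      (1 - w) / (1 - Complex.exp (2 * φ * Complex.I) * w) +
      (starRingEnd ℂ) (- Complex.exp (2 * φ * Complex.I) +
      (1 - Complex.exp (2 * φ * Complex.I)) * (Complex.exp (2 * φ * Complex.I) * w /
        (1 - Complex.exp (2 * φ * Complex.I) * w))) := by
    intro φ
    rw [P_eq hw φ _ rfl]
    have hne := norm_e φ
    generalize Complex.exp (2 * φ * Complex.I) = e at hne ⊢
    have hd : 1 - e * w ≠ 0 := den_ne hw _ hne.le
    have hd' : 1 - (starRingEnd ℂ) e * (starRingEnd ℂ) w ≠ 0 := by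
      have := (map_ne_zero (starRingEnd ℂ)).2 hd
      simpa using this
    have hee : e * (starRingEnd ℂ) e = 1 := by
      rw [Complex.mul_conj, Complex.normSq_eq_norm_sq, hne]; simp
    simp only [map_div₀, map_mul, map_sub, map_one, map_add, map_neg]
    have h1 : (1 - (starRingEnd ℂ) e) * (1 / (1 - e * w)) = (1 - w) / (1 - e * w) -
        (starRingEnd ℂ) e := by
      rw [mul_one_div, div_sub' hd]
      congr 1
      linear_combination (-w) * hee
    rw [mul_add, h1]
    ring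
  have hcB' : Continuous (fun φ : ℝ => (starRingEnd ℂ) (- Complex.exp (2 * φ * Complex.I) +
      (1 - Complex.exp (2 * φ * Complex.I)) * (Complex.exp (2 * φ * Complex.I) * w /
        (1 - Complex.exp (2 * φ * Complex.I) * w)))) := Complex.continuous_conj.comp hcB
  rw [intervalIntegral.integral_congr (fun φ _ => hpt φ)]
  rw [intervalIntegral.integral_add (hcA.intervalIntegrable _ _)
    (hcB'.intervalIntegrable _ _)]
  rw [hA, intervalIntegral.intervalIntegral_conj, hB]
  simp

theorem norm_one_sub (φ : ℝ) (h0 : 0 ≤ Real.sin φ) :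
    ‖1 - (starRingEnd ℂ) (Complex.exp (2 * φ * Complex.I))‖ = 2 * Real.sin φ := by
  have h1 : 1 - (starRingEnd ℂ) (Complex.exp (2 * φ * Complex.I)) =
      (starRingEnd ℂ) (1 - Complex.exp (2 * φ * Complex.I)) := by simp
  rw [h1, RCLike.norm_conj]
  have h2 : 1 - Complex.exp (2 * φ * Complex.I) =
      Complex.exp (φ * Complex.I) * ((-2 * Complex.I) * Real.sin φ) := by
    rw [Complex.ofReal_sin, Complex.sin]
    have e1 : Complex.exp (2 * φ * Complex.I) = Complex.exp (φ * Complex.I) *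
      Complex.exp (φ * Complex.I) := by
      rw [← Complex.exp_add]; congr 1; ring
    have e2 : Complex.exp (φ * Complex.I) * Complex.exp (-φ * Complex.I) = 1 := by
      rw [← Complex.exp_add]
      have : (φ : ℂ) * Complex.I + -φ * Complex.I = 0 := by ring
      rw [this, Complex.exp_zero]
    have hI : Complex.I * Complex.I = -1 := Complex.I_mul_I
    rw [e1]
    linear_combination (-1 : ℂ) * e2 + (Complex.exp (φ * Complex.I) * (Complex.exp (-φ * Complex.I) -
      Complex.exp (φ * Complex.I))) * hI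
  rw [h2, norm_mul, Complex.norm_exp_ofReal_mul_I, norm_mul, norm_mul, Complex.norm_real,
    Real.norm_of_nonneg h0]
  simp

theorem sin_P {w : ℂ} (hw : ‖w‖ < 1) :
    Real.pi / 2 * ‖1 - w‖ ≤ ∫ φ in (0 : ℝ)..Real.pi, Real.sin φ * P w φ := by
  have h1 := intervalIntegral.norm_integral_le_integral_norm (μ := volume) (a := 0) (b := Real.pi)
    (f := fun φ : ℝ => (1 - (starRingEnd ℂ) (Complex.exp (2 * φ * Complex.I))) *
      ((P w φ : ℝ) : ℂ)) Real.pi_pos.le
  rw [int_P hw, norm_mul, Complex.norm_real, Real.norm_of_nonneg Real.pi_pos.le] at h1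
  have h2 : ∫ φ in (0 : ℝ)..Real.pi, ‖(1 - (starRingEnd ℂ) (Complex.exp (2 * φ * Complex.I))) *
      ((P w φ : ℝ) : ℂ)‖ = ∫ φ in (0 : ℝ)..Real.pi, 2 * (Real.sin φ * P w φ) := by
    apply intervalIntegral.integral_congr
    intro φ hφ
    rw [Set.uIcc_of_le Real.pi_pos.le] at hφ
    have hs : 0 ≤ Real.sin φ := Real.sin_nonneg_of_mem_Icc hφ
    simp only
    rw [norm_mul, norm_one_sub φ hs, Complex.norm_real, Real.norm_of_nonneg (P_pos hw φ).le]
    ring
  rw [h2, intervalIntegral.integral_const_mul] at h1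
  linarith

theorem re_hcd {c K : ℝ} {z : ℂ} (hz : ‖z ^ 2‖ < 1) (h : hcd c z = (K : ℂ) *
      (∫ φ in (0 : ℝ)..Real.pi, G c z φ)) :
    ((1 - z ^ 2) * hcd c z).re =
      K * ∫ φ in (0 : ℝ)..Real.pi, Real.exp (-(c * φ)) * Real.sin φ * P (z ^ 2) φ := by
  rw [h]
  have h1 : (1 - z ^ 2) * ((K : ℂ) * (∫ φ in (0 : ℝ)..Real.pi, G c z φ)) =
      (K : ℂ) * (∫ φ in (0 : ℝ)..Real.pi, (1 - z ^ 2) * G c z φ) := by
    rw [intervalIntegral.integral_const_mul]; ring
  rw [h1, Complex.re_ofReal_mul]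
  congr 1
  have hc : Continuous (fun φ : ℝ => (1 - z ^ 2) * G c z φ) := continuous_const.mul (G_cont c hz)
  have h2 := Complex.reCLM.intervalIntegral_comp_comm (hc.intervalIntegrable (μ := volume) 0 Real.pi)
  simp only [Complex.reCLM_apply] at h2
  rw [← h2]
  apply intervalIntegral.integral_congr
  intro φ _
  exact re_G c hz φ

end O4

open O4 in
/-- O4: `Re ((1 - z²) h'(z)) > 0`, `|h'|` is bounded below -/
theorem O4 (h3 : S_O3) : S_O4 := by
  intro c hc
  set K : ℝ := 4 * c / Real.pi / (1 + Real.exp (-(c * Real.pi))) with hK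
  have hKpos : 0 < K := by
    have := Real.pi_pos
    have := Real.exp_pos (-(c * Real.pi))
    positivity
  have hz2 : ∀ z : ℂ, ‖z‖ < 1 → ‖z ^ 2‖ < 1 := by
    intro z hz
    rw [norm_pow]
    have := norm_nonneg z
    nlinarith
  have hre : ∀ z : ℂ, ‖z‖ < 1 → ((1 - z ^ 2) * hcd c z).re =
      K * ∫ φ in (0 : ℝ)..Real.pi, Real.exp (-(c * φ)) * Real.sin φ * P (z ^ 2) φ := by
    intro z hz
    exact re_hcd (hz2 z hz) (h3 c hc z hz).2
  have hcont : ∀ z : ℂ, ‖z‖ < 1 →
      Continuous (fun φ : ℝ => Real.exp (-(c * φ)) * Real.sin φ * P (z ^ 2) φ) := by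
    intro z hz
    have := P_cont (hz2 z hz)
    fun_prop
  refine ⟨?_, K * (Real.exp (-(c * Real.pi)) * (Real.pi / 2)), ?_, ?_⟩
  · intro z hz
    rw [hre z hz]
    apply mul_pos hKpos
    apply intervalIntegral.intervalIntegral_pos_of_pos_on ((hcont z hz).intervalIntegrable _ _) _
      Real.pi_pos
    intro φ hφ
    have h1 := Real.sin_pos_of_mem_Ioo hφ
    have h2 := P_pos (hz2 z hz) φ
    have h3 := Real.exp_pos (-(c * φ))
    positivity
  · have := Real.pi_pos
    have := Real.exp_pos (-(c * Real.pi))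
    positivity
  · intro z hz
    have hw := hz2 z hz
    have h1 : Real.exp (-(c * Real.pi)) * (∫ φ in (0 : ℝ)..Real.pi, Real.sin φ * P (z ^ 2) φ) ≤
        ∫ φ in (0 : ℝ)..Real.pi, Real.exp (-(c * φ)) * Real.sin φ * P (z ^ 2) φ := by
      rw [← intervalIntegral.integral_const_mul]
      apply intervalIntegral.integral_mono_on Real.pi_pos.le
      · have := P_cont hw
        apply Continuous.intervalIntegrable
        fun_prop
      · exact (hcont z hz).intervalIntegrable _ _
      · intro φ hφ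
        have hs : 0 ≤ Real.sin φ := Real.sin_nonneg_of_mem_Icc hφ
        have hp := (P_pos hw φ).le
        have he : Real.exp (-(c * Real.pi)) ≤ Real.exp (-(c * φ)) := by
          apply Real.exp_le_exp.2
          have := hφ.2
          nlinarith
        rw [mul_assoc (Real.exp (-(c * φ)))]
        exact mul_le_mul_of_nonneg_right he (mul_nonneg hs hp)
    have h2 := sin_P hw
    have h4 : K * (Real.exp (-(c * Real.pi)) * (Real.pi / 2 * ‖1 - z ^ 2‖)) ≤
        ((1 - z ^ 2) * hcd c z).re := by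
      rw [hre z hz]
      apply mul_le_mul_of_nonneg_left _ hKpos.le
      exact (mul_le_mul_of_nonneg_left h2 (Real.exp_pos _).le).trans h1
    have h5 : ((1 - z ^ 2) * hcd c z).re ≤ ‖1 - z ^ 2‖ * ‖hcd c z‖ := by
      rw [← norm_mul]
      exact Complex.re_le_norm _
    have h6 : 0 < ‖1 - z ^ 2‖ := by
      apply norm_pos_iff.2
      have := den_ne hw 1 (by simp)
      simpa using this
    have h7 : K * (Real.exp (-(c * Real.pi)) * (Real.pi / 2)) * ‖1 - z ^ 2‖ ≤
        ‖hcd c z‖ * ‖1 - z ^ 2‖ := by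
      calc _ = K * (Real.exp (-(c * Real.pi)) * (Real.pi / 2 * ‖1 - z ^ 2‖)) := by ring
        _ ≤ _ := h4
        _ ≤ _ := h5
        _ = _ := by ring
    exact le_of_mul_le_mul_right h7 h6

end H363KF
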