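import Pool.Agent.H363R3.KF.FStm

set_option autoImplicit false
set_option linter.all false

noncomputable section

open MeasureTheory Filter Topology
open scoped BigOperators Matrix ENNReal

namespace H363KF

theorem O5aux_pos (c : ℝ) (hc : 0 < c) :
    (4 * c / Real.pi / (1 + Real.exp (-(c * Real.pi)))) *
      (Real.pi / 4 * ((1 - Real.exp (-(c * Real.pi))) / c)) = rr c := by
  unfold rr
  have h1 : (1 + Real.exp (-(c * Real.pi))) ≠ 0 := by positivity
  have h2 := Real.pi_ne_zero
  field_simp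

theorem O5aux_int (c : ℝ) (hc : 0 < c) :
    ∫ φ in (0 : ℝ)..Real.pi, Real.exp (-(c * φ)) * (Real.pi / 4) =
      Real.pi / 4 * ((1 - Real.exp (-(c * Real.pi))) / c) := by
  have h : ∀ x ∈ Set.uIcc (0 : ℝ) Real.pi, HasDerivAt
      (fun φ => - (Real.pi / 4) * (Real.exp (-(c * φ)) / c)) (Real.exp (-(c * x)) * (Real.pi / 4)) x := by
    intro x _
    have h1 : HasDerivAt (fun φ : ℝ => -(c * φ)) (-(c * 1)) x :=
      ((hasDerivAt_id x).const_mul c).neg
    have h2 := (h1.exp.div_const c).const_mul (- (Real.pi / 4))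
    refine h2.congr_deriv ?_
    field_simp
  rw [intervalIntegral.integral_eq_sub_of_hasDerivAt h]
  · simp only [mul_zero, neg_zero, Real.exp_zero]
    ring
  · apply Continuous.intervalIntegrable
    fun_prop

theorem O5aux_norm (φ : ℝ) (z : ℂ) : ‖Complex.exp (φ * Complex.I) * z‖ = ‖z‖ := by
  rw [norm_mul, Complex.norm_exp_ofReal_mul_I, one_mul]

theorem O5aux_cont (h2 : S_O2) (c : ℝ) (z : ℂ) (hz : ‖z‖ < 1) :
    Continuous (fun φ : ℝ => Real.exp (-(c * φ)) * (AT (Complex.exp (φ * Complex.I) * z)).im) := by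
  have h : Continuous (fun φ : ℝ => AT (Complex.exp (φ * Complex.I) * z)) := by
    rw [continuous_iff_continuousAt]
    intro φ
    have h3 : ContinuousAt AT (Complex.exp (φ * Complex.I) * z) :=
      (h2.1 _ (by rw [O5aux_norm]; exact hz)).continuousAt
    have h4 : ContinuousAt (fun φ : ℝ => Complex.exp (φ * Complex.I) * z) φ := by
      fun_prop
    exact ContinuousAt.comp (f := fun φ : ℝ => Complex.exp (φ * Complex.I) * z) h3 h4
  exact (by fun_prop : Continuous (fun φ : ℝ => Real.exp (-(c * φ)))).mul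
    (Complex.continuous_im.comp h)

theorem O5aux_re (h2 : S_O2) (h3 : S_O3) (c : ℝ) (hc0 : 0 < c) (z : ℂ) (hz : ‖z‖ < 1) :
    (hc c z).re = (4 * c / Real.pi / (1 + Real.exp (-(c * Real.pi)))) *
      ∫ φ in (0 : ℝ)..Real.pi, Real.exp (-(c * φ)) *
        (AT (Complex.exp (φ * Complex.I) * z)).im := by
  rw [(h3 c hc0 z hz).1, Complex.re_ofReal_mul]
  congr 1
  have h : Continuous (fun φ : ℝ => AT (Complex.exp (φ * Complex.I) * z)) := by
    rw [continuous_iff_continuousAt]
    intro φ
    have h3 : ContinuousAt AT (Complex.exp (φ * Complex.I) * z) :=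
      (h2.1 _ (by rw [O5aux_norm]; exact hz)).continuousAt
    have h4 : ContinuousAt (fun φ : ℝ => Complex.exp (φ * Complex.I) * z) φ := by
      fun_prop
    exact ContinuousAt.comp (f := fun φ : ℝ => Complex.exp (φ * Complex.I) * z) h3 h4
  have hi : IntervalIntegrable (fun φ : ℝ => (Real.exp (-(c * φ)) : ℂ) * (-Complex.I) *
        AT (Complex.exp (φ * Complex.I) * z)) volume 0 Real.pi := by
    apply Continuous.intervalIntegrable
    exact (by fun_prop : Continuous (fun φ : ℝ => (Real.exp (-(c * φ)) : ℂ) * (-Complex.I))).mul h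
  have h5 := Complex.reCLM.intervalIntegral_comp_comm hi
  simp only [Complex.reCLM_apply] at h5
  rw [← h5]
  apply intervalIntegral.integral_congr
  intro φ _
  simp only [Complex.mul_re, Complex.mul_im, Complex.neg_re, Complex.neg_im, Complex.I_re,
    Complex.I_im, Complex.ofReal_re, Complex.ofReal_im]
  ring

theorem O5aux_K (c : ℝ) (hc : 0 < c) : 0 < 4 * c / Real.pi / (1 + Real.exp (-(c * Real.pi))) := by
  have := Real.pi_pos
  positivity

theorem O5aux_bound (h2 : S_O2) (h3 : S_O3) (c : ℝ) (hc0 : 0 < c) (z : ℂ) (hz : ‖z‖ < 1) :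
    |(hc c z).re| < rr c := by
  rw [O5aux_re h2 h3 c hc0 z hz, abs_mul, abs_of_pos (O5aux_K c hc0), ← O5aux_pos c hc0]
  refine mul_lt_mul_of_pos_left ?_ (O5aux_K c hc0)
  rw [← O5aux_int c hc0]
  have hb : ∀ φ : ℝ, |(AT (Complex.exp (φ * Complex.I) * z)).im| < Real.pi / 4 := fun φ =>
    h2.2.1 _ (by rw [O5aux_norm]; exact hz)
  have hcont := O5aux_cont h2 c z hz
  have hcont2 : Continuous (fun φ : ℝ => Real.exp (-(c * φ)) * (Real.pi / 4)) := by fun_prop
  rw [abs_lt]
  constructor
  · have h4 : ∫ φ in (0 : ℝ)..Real.pi, -(Real.exp (-(c * φ)) * (Real.pi / 4)) <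
        ∫ φ in (0 : ℝ)..Real.pi, Real.exp (-(c * φ)) *
        (AT (Complex.exp (φ * Complex.I) * z)).im := by
      apply intervalIntegral.integral_lt_integral_of_continuousOn_of_le_of_exists_lt Real.pi_pos
      · exact hcont2.neg.continuousOn
      · exact hcont.continuousOn
      · intro φ _
        have := (abs_lt.mp (hb φ)).1
        nlinarith [Real.exp_pos (-(c * φ))]
      · refine ⟨0, ⟨le_rfl, Real.pi_pos.le⟩, ?_⟩
        have := (abs_lt.mp (hb 0)).1
        nlinarith [Real.exp_pos (-(c * 0))]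
    rw [intervalIntegral.integral_neg] at h4
    exact h4
  · apply intervalIntegral.integral_lt_integral_of_continuousOn_of_le_of_exists_lt Real.pi_pos
    · exact hcont.continuousOn
    · exact hcont2.continuousOn
    · intro φ _
      have := (abs_lt.mp (hb φ)).2
      nlinarith [Real.exp_pos (-(c * φ))]
    · refine ⟨0, ⟨le_rfl, Real.pi_pos.le⟩, ?_⟩
      have := (abs_lt.mp (hb 0)).2
      nlinarith [Real.exp_pos (-(c * 0))]

theorem O5aux_lim (h2 : S_O2) (h3 : S_O3) (c : ℝ) (hc0 : 0 < c) :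
    Tendsto (fun z : ℂ => (hc c z).re) (𝓝[Metric.ball 0 1] 1) (𝓝 (rr c)) := by
  have hev : ∀ᶠ z : ℂ in 𝓝[Metric.ball 0 1] 1, ‖z‖ < 1 := by
    filter_upwards [self_mem_nhdsWithin] with z hz
    simpa using hz
  have h4 : Tendsto (fun z : ℂ => (4 * c / Real.pi / (1 + Real.exp (-(c * Real.pi)))) *
      ∫ φ in (0 : ℝ)..Real.pi, Real.exp (-(c * φ)) *
        (AT (Complex.exp (φ * Complex.I) * z)).im) (𝓝[Metric.ball 0 1] 1) (𝓝 (rr c)) := by
    rw [← O5aux_pos c hc0, ← O5aux_int c hc0]
    refine Tendsto.const_mul _ ?_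
    refine intervalIntegral.tendsto_integral_filter_of_dominated_convergence
      (fun φ => Real.exp (-(c * φ)) * (Real.pi / 4)) ?_ ?_ ?_ ?_
    · filter_upwards [hev] with z hz
      exact (O5aux_cont h2 c z hz).aestronglyMeasurable
    · filter_upwards [hev] with z hz
      refine Eventually.of_forall (fun φ _ => ?_)
      have := h2.2.1 (Complex.exp (φ * Complex.I) * z) (by rw [O5aux_norm]; exact hz)
      rw [norm_mul, Real.norm_eq_abs, Real.norm_eq_abs, abs_of_pos (Real.exp_pos _)]
      exact mul_le_mul_of_nonneg_left this.le (Real.exp_pos _).le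
    · apply Continuous.intervalIntegrable
      fun_prop
    · have hne : ∀ᵐ φ : ℝ, φ ≠ Real.pi := by
        rw [ae_iff]
        simp
      filter_upwards [hne] with φ hφ hm
      rw [Set.uIoc_of_le Real.pi_pos.le] at hm
      have hs : 0 < Real.sin φ := Real.sin_pos_of_pos_of_lt_pi hm.1 (lt_of_le_of_ne hm.2 hφ)
      refine Tendsto.const_mul _ ?_
      refine (h2.2.2.2.2.1 φ hs).comp ?_
      rw [tendsto_nhdsWithin_iff]
      constructor
      · have : Continuous (fun z : ℂ => Complex.exp (φ * Complex.I) * z) := by fun_prop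
        have h5 := this.tendsto 1
        rw [mul_one] at h5
        exact h5.mono_left nhdsWithin_le_nhds
      · filter_upwards [hev] with z hz
        rw [Metric.mem_ball, dist_zero_right, O5aux_norm]
        exact hz
  refine h4.congr' ?_
  filter_upwards [hev] with z hz
  exact (O5aux_re h2 h3 c hc0 z hz).symm

theorem O5 (h1 : S_O1) (h2 : S_O2) (h3 : S_O3) : S_O5 := by
  intro c hc0
  refine ⟨fun z hz => O5aux_bound h2 h3 c hc0 z hz, O5aux_lim h2 h3 c hc0, ?_⟩
  have h4 : Tendsto (fun z : ℂ => -z) (𝓝[Metric.ball 0 1] (-1)) (𝓝[Metric.ball 0 1] 1) := by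
    rw [tendsto_nhdsWithin_iff]
    constructor
    · have h5 := (continuous_neg (G := ℂ)).tendsto (-1)
      rw [neg_neg] at h5
      exact h5.mono_left nhdsWithin_le_nhds
    · filter_upwards [self_mem_nhdsWithin] with z hz
      simpa using hz
  have h6 := ((O5aux_lim h2 h3 c hc0).comp h4).neg
  refine h6.congr (fun z => ?_)
  simp only [Function.comp]
  rw [(h1 c hc0).2.2.2.2.2 z]
  simp

end H363KF
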