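import Pool.Agent.H363R3.KF.FStm

/-!
# Task O6: difference quotients of `h ∘ tanh` (helper455)
-/

set_option autoImplicit false

noncomputable section

open MeasureTheory Filter Topology
open scoped BigOperators Matrix ENNReal

namespace H363KF

namespace O6aux

lemma cosh_ne (h2 : S_O2) (τ : ℂ) (hτ : |τ.im| < Real.pi / 4) : Complex.cosh τ ≠ 0 := by
  intro h0
  have h1 := (h2.2.2.2.1 τ hτ).2
  rw [Complex.tanh_eq_sinh_div_cosh, h0, div_zero] at h1
  have h3 : AT 0 = 0 := by simp [AT]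
  rw [h3] at h1
  rw [← h1, Complex.cosh_zero] at h0
  exact one_ne_zero h0

lemma tanh_deriv (h2 : S_O2) (τ : ℂ) (hτ : |τ.im| < Real.pi / 4) :
    HasDerivAt Complex.tanh (1 - Complex.tanh τ ^ 2) τ := by
  have hc := cosh_ne h2 τ hτ
  have h := (Complex.hasDerivAt_sinh τ).div (Complex.hasDerivAt_cosh τ) hc
  have e : Complex.tanh = Complex.sinh / Complex.cosh := by
    funext z
    rw [Complex.tanh_eq_sinh_div_cosh, Pi.div_apply]
  rw [e]
  refine h.congr_deriv ?_
  rw [Pi.div_apply]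
  field_simp

end O6aux

open O6aux in
/-- O6 -/
theorem O6 (h1 : S_O1) (h2 : S_O2) (h4 : S_O4) : S_O6 := by
  intro c hc0 z w hz hw hzw
  obtain ⟨hder, -, -, -, -, -⟩ := h1 c hc0
  obtain ⟨hpos, -⟩ := h4 c hc0
  obtain ⟨-, him, hinj, htanh, -, -⟩ := id h2
  set D : ℂ := AT w - AT z with hD
  have hD0 : D ≠ 0 := by
    intro h
    exact hzw (hinj z w hz hw (sub_eq_zero.1 h).symm)
  have hτ : ∀ s ∈ Set.Icc (0 : ℝ) 1, |(AT z + (s : ℂ) * D).im| < Real.pi / 4 := by
    intro s hs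
    have e : (AT z + (s : ℂ) * D).im = (1 - s) * (AT z).im + s * (AT w).im := by
      rw [hD]
      simp [Complex.mul_im]
      ring
    rw [e]
    have a1 := him z hz
    have a2 := him w hw
    rw [abs_lt] at a1 a2 ⊢
    obtain ⟨s0, s1⟩ := hs
    rcases eq_or_lt_of_le s0 with h | h
    · subst h
      constructor <;> linarith
    · constructor
      · nlinarith [a1.1, a2.1]
      · nlinarith [a1.2, a2.2]
  have hz0 : Complex.tanh (AT z) = z := by
    obtain ⟨b1, b2⟩ := htanh (AT z) (him z hz)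
    exact hinj _ _ b1 hz b2
  have hw0 : Complex.tanh (AT w) = w := by
    obtain ⟨b1, b2⟩ := htanh (AT w) (him w hw)
    exact hinj _ _ b1 hw b2
  have hf : ∀ s ∈ Set.Icc (0 : ℝ) 1, HasDerivAt
      (fun s : ℝ => (hc c (Complex.tanh (AT z + (s : ℂ) * D)) * (starRingEnd ℂ) D).re)
      ((hcd c (Complex.tanh (AT z + (s : ℂ) * D)) *
        ((1 - Complex.tanh (AT z + (s : ℂ) * D) ^ 2) * D) * (starRingEnd ℂ) D).re) s := by
    intro s hs
    have b1 : HasDerivAt (fun s : ℝ => AT z + (s : ℂ) * D) D s := by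
      have := ((hasDerivAt_id (s : ℂ)).comp_ofReal.mul_const D).const_add (AT z)
      simpa using this
    have b2 := (tanh_deriv h2 _ (hτ s hs)).comp_of_eq s b1 rfl
    have b3 := (hder _ (htanh _ (hτ s hs)).1).comp_of_eq s b2 rfl
    have b4 := b3.mul_const ((starRingEnd ℂ) D)
    exact Complex.reCLM.hasFDerivAt.comp_hasDerivAt s b4
  obtain ⟨s, hs, hslope⟩ := exists_hasDerivAt_eq_slope _ _ (one_pos : (0 : ℝ) < 1)
    (fun t ht => (hf t ht).continuousAt.continuousWithinAt)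
    (fun t ht => hf t (Set.Ioo_subset_Icc_self ht))
  have hs' := Set.Ioo_subset_Icc_self hs
  have e1 : (hcd c (Complex.tanh (AT z + (s : ℂ) * D)) *
        ((1 - Complex.tanh (AT z + (s : ℂ) * D) ^ 2) * D) * (starRingEnd ℂ) D).re =
      ‖D‖ ^ 2 * ((1 - Complex.tanh (AT z + (s : ℂ) * D) ^ 2) *
        hcd c (Complex.tanh (AT z + (s : ℂ) * D))).re := by
    rw [← Complex.re_ofReal_mul]
    congr 1
    have : ((‖D‖ ^ 2 : ℝ) : ℂ) = D * (starRingEnd ℂ) D := by
      rw [Complex.mul_conj, Complex.normSq_eq_norm_sq]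
    rw [this]
    ring
  have e2 := hpos _ (htanh _ (hτ s hs')).1
  have e3 : 0 < ‖D‖ ^ 2 := by
    have := norm_pos_iff.2 hD0
    positivity
  have e4 := mul_pos e3 e2
  rw [e1] at hslope
  rw [hslope] at e4
  have e5 : AT z + ((1 : ℝ) : ℂ) * D = AT w := by
    rw [hD]; push_cast; ring
  have e6 : AT z + ((0 : ℝ) : ℂ) * D = AT z := by
    push_cast; ring
  rw [e5, e6, hz0, hw0, sub_zero, div_one] at e4
  rw [sub_mul, Complex.sub_re]
  exact e4

end H363KF
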