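import Pool.Agent.H363R3.KF.FStm

/-! Task O7 (helper541): every horizontal line of the strip meets every vertical slice. -/

set_option autoImplicit false

noncomputable section

open MeasureTheory Filter Topology
open scoped BigOperators Matrix ENNReal

namespace H363KF

namespace TaskO7

theorem cosh_ne (h2 : S_O2) {τ : ℂ} (hτ : |τ.im| < Real.pi / 4) : Complex.cosh τ ≠ 0 := by
  intro h0
  have h := (h2.2.2.2.1 τ hτ).2
  rw [Complex.tanh_eq_sinh_div_cosh, h0, div_zero] at h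
  have h1 : AT 0 = 0 := by simp [AT]
  rw [h1] at h
  rw [← h] at h0
  simp at h0

theorem tanh_eq (τ : ℂ) (h : Complex.cosh τ ≠ 0) :
    Complex.tanh τ = (1 - Complex.exp (-(2 * τ))) / (1 + Complex.exp (-(2 * τ))) := by
  have he : Complex.exp τ ≠ 0 := Complex.exp_ne_zero τ
  have h1 : Complex.exp (-(2 * τ)) = Complex.exp (-τ) / Complex.exp τ := by
    rw [← Complex.exp_sub]
    congr 1
    ring
  have h2 : Complex.exp τ + Complex.exp (-τ) ≠ 0 := by
    intro h0
    apply h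
    rw [Complex.cosh, h0, zero_div]
  have h3 : 1 + Complex.exp (-τ) / Complex.exp τ ≠ 0 := by
    intro h0
    apply h2
    field_simp at h0
    simpa using h0
  rw [Complex.tanh_eq_sinh_div_cosh, Complex.sinh, Complex.cosh, h1]
  field_simp

theorem tendsto_exp (t : ℝ) :
    Tendsto (fun s : ℝ => Complex.exp (-(2 * (⟨s, t⟩ : ℂ)))) atTop (𝓝 0) := by
  rw [tendsto_zero_iff_norm_tendsto_zero]
  have : (fun s : ℝ => ‖Complex.exp (-(2 * (⟨s, t⟩ : ℂ)))‖) = fun s : ℝ => Real.exp (-(2 * s)) := by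
    funext s
    rw [Complex.norm_exp]
    congr 1
    simp
  rw [this]
  refine Real.tendsto_exp_atBot.comp ?_
  exact tendsto_neg_atTop_atBot.comp (tendsto_id.const_mul_atTop (by norm_num))

theorem tendsto_tanh (h2 : S_O2) {t : ℝ} (ht : |t| < Real.pi / 4) :
    Tendsto (fun s : ℝ => Complex.tanh (⟨s, t⟩ : ℂ)) atTop (𝓝[Metric.ball 0 1] 1) := by
  rw [tendsto_nhdsWithin_iff]
  constructor
  · have h1 : (fun s : ℝ => Complex.tanh (⟨s, t⟩ : ℂ)) = fun s : ℝ =>
        (1 - Complex.exp (-(2 * (⟨s, t⟩ : ℂ)))) / (1 + Complex.exp (-(2 * (⟨s, t⟩ : ℂ)))) := by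
      funext s
      exact tanh_eq _ (cosh_ne h2 ht)
    rw [h1]
    have h3 := tendsto_exp t
    have h4 : Tendsto (fun s : ℝ =>
        (1 - Complex.exp (-(2 * (⟨s, t⟩ : ℂ)))) / (1 + Complex.exp (-(2 * (⟨s, t⟩ : ℂ))))) atTop
        (𝓝 ((1 - 0) / (1 + 0))) :=
      (tendsto_const_nhds.sub h3).div (tendsto_const_nhds.add h3) (by norm_num)
    simpa using h4
  · refine Eventually.of_forall fun s => ?_
    rw [mem_ball_zero_iff]
    exact (h2.2.2.2.1 _ ht).1

theorem tendsto_tanh_neg (h2 : S_O2) {t : ℝ} (ht : |t| < Real.pi / 4) :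
    Tendsto (fun s : ℝ => Complex.tanh (⟨-s, t⟩ : ℂ)) atTop (𝓝[Metric.ball 0 1] (-1)) := by
  have h1 := tendsto_tanh h2 (t := -t) (by rwa [abs_neg])
  rw [tendsto_nhdsWithin_iff] at h1 ⊢
  have h3 : (fun s : ℝ => Complex.tanh (⟨-s, t⟩ : ℂ)) =
      fun s : ℝ => - Complex.tanh (⟨s, -t⟩ : ℂ) := by
    funext s
    rw [← Complex.tanh_neg]
    congr 1
    apply Complex.ext <;> simp
  constructor
  · rw [h3]
    exact h1.1.neg
  · refine Eventually.of_forall fun s => ?_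
    rw [mem_ball_zero_iff]
    exact (h2.2.2.2.1 _ ht).1

end TaskO7

open TaskO7 in
theorem O7 (h1 : S_O1) (h2 : S_O2) (h5 : S_O5) : S_O7 := by
  intro c hc0 x hx t ht
  obtain ⟨_, hlim1, hlim2⟩ := h5 c hc0
  have hcont : Continuous (fun s : ℝ => (hc c (Complex.tanh (⟨s, t⟩ : ℂ))).re) := by
    rw [continuous_iff_continuousAt]
    intro s
    have hline : ContinuousAt (fun s : ℝ => (⟨s, t⟩ : ℂ)) s := by
      have : (fun s : ℝ => (⟨s, t⟩ : ℂ)) = fun s : ℝ => (s : ℂ) + t * Complex.I := by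
        funext s
        apply Complex.ext <;> simp
      rw [this]
      fun_prop
    have htanh : ContinuousAt Complex.tanh (⟨s, t⟩ : ℂ) := by
      have h0 := cosh_ne h2 (τ := (⟨s, t⟩ : ℂ)) ht
      have : Complex.tanh = fun z => Complex.sinh z / Complex.cosh z := by
        funext z
        exact Complex.tanh_eq_sinh_div_cosh z
      rw [this]
      exact (Complex.continuous_sinh.continuousAt).div (Complex.continuous_cosh.continuousAt) h0
    have hh : ContinuousAt (hc c) (Complex.tanh (⟨s, t⟩ : ℂ)) :=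
      ((h1 c hc0).1 _ (h2.2.2.2.1 _ ht).1).continuousAt
    have hcomp : ContinuousAt (fun s : ℝ => hc c (Complex.tanh (⟨s, t⟩ : ℂ))) s :=
      ContinuousAt.comp (f := fun s : ℝ => Complex.tanh (⟨s, t⟩ : ℂ)) (g := hc c) hh
        (ContinuousAt.comp (f := fun s : ℝ => (⟨s, t⟩ : ℂ)) (g := Complex.tanh) htanh hline)
    exact Complex.continuous_re.continuousAt.comp hcomp
  rw [abs_lt] at hx
  have hhi : ∃ s : ℝ, x ≤ (hc c (Complex.tanh (⟨s, t⟩ : ℂ))).re := by
    have h := hlim1.comp (tendsto_tanh h2 ht)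
    obtain ⟨s, hs⟩ := (h.eventually (lt_mem_nhds hx.2)).exists
    exact ⟨s, hs.le⟩
  have hlo : ∃ s : ℝ, (hc c (Complex.tanh (⟨s, t⟩ : ℂ))).re ≤ x := by
    have h := hlim2.comp (tendsto_tanh_neg h2 ht)
    obtain ⟨s, hs⟩ := (h.eventually (gt_mem_nhds hx.1)).exists
    exact ⟨-s, hs.le⟩
  obtain ⟨s, hs⟩ := mem_range_of_exists_le_of_exists_ge hcont hlo hhi
  refine ⟨Complex.tanh (⟨s, t⟩ : ℂ), (h2.2.2.2.1 _ ht).1, ?_, hs⟩
  rw [(h2.2.2.2.1 _ ht).2]

end H363KF
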