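import Pool.Agent.H363R3.KF.FStm

/-! # Task O8 (helper157): the inverse of `h_c` and the lens -/

set_option autoImplicit false

noncomputable section

open MeasureTheory Filter Topology
open scoped BigOperators Matrix ENNReal

namespace H363KF

namespace O8aux

open Classical in
/-- inverse of `hc` -/
def et (c : ℝ) (p : ℂ) : ℂ :=
  if hp : ∃ z, z ∈ Metric.ball (0 : ℂ) 1 ∧ hc c z = p then Classical.choose hp else 1

/-- the constant -/
def uu (c : ℝ) : ℂ := hcd c 0 / (‖hcd c 0‖ : ℂ)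

/-- the image of the disc -/
def W (c : ℝ) : Set ℂ := hc c '' Metric.ball (0 : ℂ) 1

open Classical in
/-- the function of the lens -/
def ee (c : ℝ) (p : ℂ) : ℂ := if p ∈ W c then uu c * et c p else 1

variable {c : ℝ}

theorem et_spec {p : ℂ} (hp : p ∈ W c) : ‖et c p‖ < 1 ∧ hc c (et c p) = p := by
  have hp' : ∃ z, z ∈ Metric.ball (0 : ℂ) 1 ∧ hc c z = p := hp
  have h := Classical.choose_spec hp'
  have e : et c p = Classical.choose hp' := by
    unfold et
    rw [dif_pos hp']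
  rw [e]
  exact ⟨by simpa using h.1, h.2⟩

theorem ee_on {p : ℂ} (hp : p ∈ W c) : ee c p = uu c * et c p := by
  unfold ee; rw [if_pos hp]

theorem ee_off {p : ℂ} (hp : p ∉ W c) : ee c p = 1 := by
  unfold ee; rw [if_neg hp]

theorem hc_mem {z : ℂ} (hz : ‖z‖ < 1) : hc c z ∈ W c := ⟨z, by simpa using hz, rfl⟩

theorem hc_zero : hc c 0 = 0 := by
  unfold hc
  have : ∀ j : ℕ, (0 : ℂ) ^ (2 * j + 1) / (((2 * j + 1 : ℕ) : ℂ) *
      (((2 * j + 1 : ℕ) : ℂ) + (c : ℂ) * Complex.I)) = 0 := by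
    intro j
    rw [zero_pow (by omega), zero_div]
  simp_rw [this]
  simp

variable (hc0 : 0 < c) (h1 : S_O1) (h4 : S_O4) (h6 : S_O6)

include hc0 h1 in
theorem norm_uu : ‖uu c‖ = 1 := by
  obtain ⟨_, _, _, _, hne, _⟩ := h1 c hc0
  unfold uu
  rw [norm_div, Complex.norm_real, norm_norm]
  exact div_self (norm_ne_zero_iff.2 hne)

include hc0 h1 in
theorem norm_le_one (p : ℂ) : ‖ee c p‖ ≤ 1 := by
  by_cases hp : p ∈ W c
  · rw [ee_on hp, norm_mul, norm_uu hc0 h1, one_mul]
    exact (et_spec hp).1.le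
  · rw [ee_off hp, norm_one]

include hc0 h6 in
theorem inj {z w : ℂ} (hz : ‖z‖ < 1) (hw : ‖w‖ < 1) (h : hc c z = hc c w) : z = w := by
  by_contra hne
  have := h6 c hc0 z w hz hw hne
  rw [h, sub_self, zero_mul, Complex.zero_re] at this
  exact lt_irrefl _ this

include hc0 h6 in
theorem et_hc {z : ℂ} (hz : ‖z‖ < 1) : et c (hc c z) = z :=
  inj hc0 h6 (et_spec (hc_mem hz)).1 hz (et_spec (hc_mem hz)).2

include hc0 h6 in
theorem ee_hc {z : ℂ} (hz : ‖z‖ < 1) : ee c (hc c z) = uu c * z := by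
  rw [ee_on (hc_mem hz), et_hc hc0 h6 hz]

include hc0 h4 in
theorem hcd_ne {z : ℂ} (hz : ‖z‖ < 1) : hcd c z ≠ 0 := by
  intro h
  have h2 := (h4 c hc0).1 z hz
  rw [h, mul_zero, Complex.zero_re] at h2
  exact lt_irrefl _ h2

include hc0 h1 in
theorem diff_hc : DifferentiableOn ℂ (hc c) (Metric.ball 0 1) := by
  intro z hz
  exact ((h1 c hc0).1 z (by simpa using hz)).differentiableAt.differentiableWithinAt

include hc0 h1 h4 in
theorem map_nhds {z : ℂ} (hz : ‖z‖ < 1) : map (hc c) (𝓝 z) = 𝓝 (hc c z) := by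
  have hb : Metric.ball (0 : ℂ) 1 ∈ 𝓝 z := Metric.isOpen_ball.mem_nhds (by simpa using hz)
  have ha : AnalyticAt ℂ (hc c) z := (diff_hc hc0 h1).analyticAt hb
  have hs : HasStrictDerivAt (hc c) (deriv (hc c) z) z := ha.hasStrictDerivAt
  have hd' : deriv (hc c) z = hcd c z := ((h1 c hc0).1 z hz).deriv
  rw [hd'] at hs
  exact hs.map_nhds_eq (hcd_ne hc0 h4 hz)

include hc0 h1 h4 in
theorem open_W : IsOpen (W c) := by
  rw [isOpen_iff_mem_nhds]
  rintro p ⟨z, hz, rfl⟩
  have hz' : ‖z‖ < 1 := by simpa using hz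
  have hb : Metric.ball (0 : ℂ) 1 ∈ 𝓝 z := Metric.isOpen_ball.mem_nhds hz
  rw [← map_nhds hc0 h1 h4 hz']
  exact image_mem_map hb

include hc0 h1 h4 h6 in
theorem contAt_et {z : ℂ} (hz : ‖z‖ < 1) : ContinuousAt (et c) (hc c z) := by
  unfold ContinuousAt
  rw [et_hc hc0 h6 hz, ← map_nhds hc0 h1 h4 hz, tendsto_map'_iff]
  have hb : Metric.ball (0 : ℂ) 1 ∈ 𝓝 z := Metric.isOpen_ball.mem_nhds (by simpa using hz)
  refine Tendsto.congr' ?_ tendsto_id
  filter_upwards [hb] with w hw
  have hw' : ‖w‖ < 1 := by simpa using hw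
  simp only [id, Function.comp_apply]
  exact (et_hc hc0 h6 hw').symm

include hc0 h1 h4 h6 in
theorem deriv_et {z : ℂ} (hz : ‖z‖ < 1) : HasDerivAt (et c) (1 / hcd c z) (hc c z) := by
  rw [one_div]
  have hlt : ‖et c (hc c z)‖ < 1 := (et_spec (hc_mem hz)).1
  have e := et_hc hc0 h6 hz
  have hd : HasDerivAt (hc c) (hcd c z) (et c (hc c z)) := by
    rw [e]; exact (h1 c hc0).1 z hz
  refine HasDerivAt.of_local_left_inverse (contAt_et hc0 h1 h4 h6 hz) hd (hcd_ne hc0 h4 hz) ?_
  filter_upwards [(open_W hc0 h1 h4).mem_nhds (hc_mem hz)] with q hq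
  exact (et_spec hq).2

include hc0 h1 h4 h6 in
theorem deriv_ee {z : ℂ} (hz : ‖z‖ < 1) : HasDerivAt (ee c) (uu c / hcd c z) (hc c z) := by
  have h := (deriv_et hc0 h1 h4 h6 hz).const_mul (uu c)
  rw [mul_one_div] at h
  refine h.congr_of_eventuallyEq ?_
  filter_upwards [(open_W hc0 h1 h4).mem_nhds (hc_mem hz)] with q hq
  exact ee_on hq

include hc0 h1 h4 h6 in
theorem contAt_ee {p : ℂ} (hp : p ∈ W c) : ContinuousAt (ee c) p := by
  obtain ⟨z, hz, rfl⟩ := hp
  exact (deriv_ee hc0 h1 h4 h6 (by simpa using hz)).continuousAt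

include hc0 h1 h6 in
theorem level_eq {r : ℝ} (hr : r < 1) :
    {p : ℂ | ‖ee c p‖ ≤ r} = hc c '' Metric.closedBall 0 r := by
  ext p
  constructor
  · intro hp
    simp only [Set.mem_ofPred_eq] at hp
    have hpW : p ∈ W c := by
      by_contra h
      rw [ee_off h, norm_one] at hp
      linarith
    rw [ee_on hpW, norm_mul, norm_uu hc0 h1, one_mul] at hp
    exact ⟨et c p, by simpa using hp, (et_spec hpW).2⟩
  · rintro ⟨z, hz, rfl⟩
    have hz' : ‖z‖ ≤ r := by simpa using hz
    simp only [Set.mem_ofPred_eq]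
    rw [ee_hc hc0 h6 (lt_of_le_of_lt hz' hr), norm_mul, norm_uu hc0 h1, one_mul]
    exact hz'

include hc0 h1 h6 in
theorem level_compact {r : ℝ} (hr : r < 1) : IsCompact {p : ℂ | ‖ee c p‖ ≤ r} := by
  rw [level_eq hc0 h1 h6 hr]
  apply (isCompact_closedBall (0 : ℂ) r).image_of_continuousOn
  apply (diff_hc hc0 h1).continuousOn.mono
  exact Metric.closedBall_subset_ball hr

include hc0 h1 h4 h6 in
theorem cont_norm : Continuous (fun p => ‖ee c p‖) := by
  rw [continuous_iff_continuousAt]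
  intro p
  by_cases hp : p ∈ W c
  · exact (contAt_ee hc0 h1 h4 h6 hp).norm
  · rw [Metric.continuousAt_iff']
    intro ε hε
    have h2 : {q : ℂ | ‖ee c q‖ ≤ 1 - ε}ᶜ ∈ 𝓝 p := by
      apply (level_compact hc0 h1 h6 (by linarith : 1 - ε < 1)).isClosed.isOpen_compl.mem_nhds
      intro h
      simp only [Set.mem_ofPred_eq] at h
      rw [ee_off hp, norm_one] at h
      linarith
    filter_upwards [h2] with q hq
    have hq' : 1 - ε < ‖ee c q‖ := by
      by_contra h
      exact hq (not_lt.1 h)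
    rw [ee_off hp, norm_one, Real.dist_eq, abs_lt]
    have := norm_le_one hc0 h1 q
    constructor <;> linarith

include hc0 h1 h4 h6 in
theorem meas : Measurable (ee c) := by
  classical
  have e : ee c = (W c).piecewise (ee c) (fun _ => 1) := by
    funext p
    by_cases hp : p ∈ W c
    · rw [Set.piecewise_eq_of_mem _ _ _ hp]
    · rw [Set.piecewise_eq_of_notMem _ _ _ hp, ee_off hp]
  rw [e]
  have hco : ContinuousOn (ee c) (W c) := fun p hp =>
    (contAt_ee hc0 h1 h4 h6 hp).continuousWithinAt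
  exact hco.measurable_piecewise continuousOn_const (open_W hc0 h1 h4).measurableSet

end O8aux

open O8aux in
theorem O8 (h1 : S_O1) (h4 : S_O4) (h6 : S_O6) : S_O8 := by
  intro c hc0
  obtain ⟨C, hC0, hC⟩ := (h1 c hc0).2.2.2.1
  obtain ⟨b, hb0, hb⟩ := (h4 c hc0).2
  have hne : hcd c 0 ≠ 0 := (h1 c hc0).2.2.2.2.1
  let L : H712MA.Lens :=
    { W := W c
      e := ee c
      c0 := 1 / ‖hcd c 0‖
      C := C
      B := 1 / b
      isOpen := open_W hc0 h1 h4
      zero_mem := ⟨0, by simp, hc_zero⟩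
      diff := by
        rintro p ⟨z, hz, rfl⟩
        exact (deriv_ee hc0 h1 h4 h6
          (by simpa using hz)).differentiableAt.differentiableWithinAt
      lt := by
        intro p hp
        rw [ee_on hp, norm_mul, norm_uu hc0 h1, one_mul]
        exact (et_spec hp).1
      off := fun p hp => ee_off hp
      comp := fun r hr => level_compact hc0 h1 h6 hr
      e_zero := by
        have h2 := ee_hc hc0 h6 (z := 0) (by simp)
        rwa [hc_zero, mul_zero] at h2
      c0_pos := by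
        have := norm_pos_iff.2 hne
        positivity
      deriv_zero := by
        have h2 := (deriv_ee hc0 h1 h4 h6 (z := 0) (by simp)).deriv
        rw [hc_zero] at h2
        rw [h2]
        unfold uu
        have h3 : (‖hcd c 0‖ : ℂ) ≠ 0 := by exact_mod_cast norm_ne_zero_iff.2 hne
        push_cast
        field_simp
      hC := by
        intro p hp
        have h2 := hC (et c p) (et_spec hp).1
        rw [(et_spec hp).2] at h2
        rw [ee_on hp, norm_mul, norm_uu hc0 h1, one_mul]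
        exact h2
      hB := by
        rintro p ⟨z, hz, rfl⟩
        have hz' : ‖z‖ < 1 := by simpa using hz
        rw [(deriv_ee hc0 h1 h4 h6 hz').deriv, norm_div, norm_uu hc0 h1]
        exact one_div_le_one_div_of_le hb0 (hb z hz') }
  exact ⟨L, uu c, rfl, norm_uu hc0 h1, fun z hz => ee_hc hc0 h6 hz,
    fun z hz => deriv_ee hc0 h1 h4 h6 hz, meas hc0 h1 h4 h6, cont_norm hc0 h1 h4 h6⟩

end H363KF
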