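import Pool.Agent.H363R3.KF.FStm

/-!
SYMMETRIC FUNK-MAHLER INEQUALITY, task O9: vertical slices of the image of `h_c` are intervals and
`Im artanh` increases along them.
-/

set_option autoImplicit false

noncomputable section

open MeasureTheory Filter Topology
open scoped BigOperators Matrix ENNReal

namespace H363KF

/-- sign of the difference along a slice -/
theorem O9_sign (hO6 : S_O6) {c : ℝ} (hc0 : 0 < c) {z w : ℂ} (hz : ‖z‖ < 1) (hw : ‖w‖ < 1)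
    (hre : (hc c z).re = (hc c w).re) (hne : z ≠ w) :
    0 < ((hc c w).im - (hc c z).im) * ((AT w).im - (AT z).im) := by
  have h := hO6 c hc0 z w hz hw hne
  rw [Complex.mul_re, Complex.conj_re, Complex.conj_im, Complex.sub_re, Complex.sub_im,
    Complex.sub_re, Complex.sub_im, hre] at h
  linarith

theorem O9_lt (hO6 : S_O6) {c : ℝ} (hc0 : 0 < c) {z w : ℂ} (hz : ‖z‖ < 1) (hw : ‖w‖ < 1)
    (hre : (hc c z).re = (hc c w).re) (him : (hc c z).im < (hc c w).im) :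
    (AT z).im < (AT w).im := by
  have hne : z ≠ w := by
    rintro rfl
    exact lt_irrefl _ him
  have h := O9_sign hO6 hc0 hz hw hre hne
  have h1 : 0 ≤ (hc c w).im - (hc c z).im := (sub_pos.mpr him).le
  have h2 := pos_of_mul_pos_right h h1
  linarith

theorem O9 (hO2 : S_O2) (hO5 : S_O5) (hO6 : S_O6) (hO7 : S_O7) (hO8 : S_O8) : S_O9 := by
  intro c hc0 z w hz hw hre him
  refine ⟨O9_lt hO6 hc0 hz hw hre him, ?_⟩
  intro y hy1 hy2
  obtain ⟨x, hx⟩ : ∃ x : ℝ, x = (hc c z).re := ⟨_, rfl⟩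
  rw [← hx]
  by_contra hno
  push Not at hno
  -- openness of the image
  obtain ⟨L, u, hL⟩ := hO8 c hc0
  have hopen : IsOpen (hc c '' Metric.ball (0 : ℂ) 1) := by
    rw [← hL.1]
    exact L.isOpen
  have hslice : ∀ ζ : ℂ, ‖ζ‖ < 1 → (hc c ζ).re = x → ∃ ε : ℝ, 0 < ε ∧
      ∀ y' : ℝ, |y' - (hc c ζ).im| < ε → ∃ ξ : ℂ, ‖ξ‖ < 1 ∧ hc c ξ = ⟨x, y'⟩ := by
    intro ζ hζ hζx
    obtain ⟨ε, hε, hb⟩ := Metric.isOpen_iff.mp hopen (hc c ζ)
      ⟨ζ, by rwa [mem_ball_zero_iff], rfl⟩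
    refine ⟨ε, hε, fun y' hy' => ?_⟩
    have h1 : (⟨x, y'⟩ : ℂ) ∈ Metric.ball (hc c ζ) ε := by
      rw [Metric.mem_ball, Complex.dist_eq]
      have h2 : (⟨x, y'⟩ : ℂ) - hc c ζ = ((y' - (hc c ζ).im : ℝ) : ℂ) * Complex.I := by
        apply Complex.ext
        · simp [hζx]
        · simp
      rw [h2, norm_mul, Complex.norm_I, mul_one, Complex.norm_real]
      exact hy'
    obtain ⟨ξ, hξ, hξe⟩ := hb h1
    exact ⟨ξ, by rwa [mem_ball_zero_iff] at hξ, hξe⟩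
  -- the set of parameters below `y`
  set T : Set ℝ := {t : ℝ | ∃ ξ : ℂ, ‖ξ‖ < 1 ∧ (hc c ξ).re = x ∧ (AT ξ).im = t ∧ (hc c ξ).im < y}
    with hT
  have hzy : (hc c z).im < y := by
    refine lt_of_le_of_ne hy1 fun h => hno z hz ?_
    rw [← h, hx]
  have hyw : y < (hc c w).im := by
    refine lt_of_le_of_ne hy2 fun h => hno w hw ?_
    rw [h, hx, hre]
  have hTz : (AT z).im ∈ T := ⟨z, hz, hx.symm, rfl, hzy⟩
  have hTub : ∀ t ∈ T, t ≤ (AT w).im := by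
    rintro t ⟨ξ, hξ, hξx, rfl, hξy⟩
    exact (O9_lt hO6 hc0 hξ hw (by rw [hξx, hx, hre]) (hξy.trans hyw)).le
  have hTb : BddAbove T := ⟨_, hTub⟩
  obtain ⟨s, hs⟩ : ∃ s : ℝ, s = sSup T := ⟨_, rfl⟩
  have hs1 : (AT z).im ≤ s := by rw [hs]; exact le_csSup hTb hTz
  have hs2 : s ≤ (AT w).im := by rw [hs]; exact csSup_le ⟨_, hTz⟩ hTub
  have hsabs : |s| < Real.pi / 4 := by
    have h1 := abs_lt.mp (hO2.2.1 z hz)
    have h2 := abs_lt.mp (hO2.2.1 w hw)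
    exact abs_lt.mpr ⟨by linarith [h1.1], by linarith [h2.2]⟩
  have hxr : |x| < rr c := by
    rw [hx]
    exact (hO5 c hc0).1 z hz
  obtain ⟨ζ, hζ, hζs, hζx⟩ := hO7 c hc0 x hxr s hsabs
  obtain ⟨ε, hε, hsl⟩ := hslice ζ hζ hζx
  rcases lt_trichotomy (hc c ζ).im y with hlt | heq | hgt
  · -- `y* < y`
    obtain ⟨y', h1, h2⟩ := exists_between (lt_min hlt (lt_add_of_pos_right _ hε))
    have h3 : y' < y := h2.trans_le (min_le_left _ _)
    have h4 : y' < (hc c ζ).im + ε := h2.trans_le (min_le_right _ _)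
    obtain ⟨ξ, hξ, hξe⟩ := hsl y' (abs_lt.mpr ⟨by linarith, by linarith⟩)
    have h5 : (AT ζ).im < (AT ξ).im :=
      O9_lt hO6 hc0 hζ hξ (by rw [hζx, hξe]) (by rw [hξe]; exact h1)
    have h6 : (AT ξ).im ∈ T := ⟨ξ, hξ, by rw [hξe], rfl, by rw [hξe]; exact h3⟩
    have h7 := le_csSup hTb h6
    rw [← hs] at h7
    linarith
  · refine hno ζ hζ ?_
    apply Complex.ext
    · exact hζx
    · exact heq
  · -- `y* > y`
    obtain ⟨y', h1, h2⟩ := exists_between (max_lt hgt (sub_lt_self _ hε))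
    have h3 : y < y' := (le_max_left _ _).trans_lt h1
    have h4 : (hc c ζ).im - ε < y' := (le_max_right _ _).trans_lt h1
    obtain ⟨ξ, hξ, hξe⟩ := hsl y' (abs_lt.mpr ⟨by linarith, by linarith⟩)
    have h5 : (AT ξ).im < (AT ζ).im :=
      O9_lt hO6 hc0 hξ hζ (by rw [hζx, hξe]) (by rw [hξe]; exact h2)
    rw [hζs, hs] at h5
    obtain ⟨t, ⟨ξ', hξ', hξx', rfl, hξy'⟩, ht⟩ := exists_lt_of_lt_csSup ⟨_, hTz⟩ h5
    have h6 : (AT ξ').im < (AT ξ).im :=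
      O9_lt hO6 hc0 hξ' hξ (by rw [hξx', hξe]) (by rw [hξe]; exact hξy'.trans h3)
    linarith

end H363KF
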