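import Pool.Agent.H363R3.KF.FStm

/-!
R2F (helper666): the real side of the symmetric Funk-Mahler inequality, integrated over `x`.
-/

set_option autoImplicit false

noncomputable section

open MeasureTheory Filter Topology
open scoped BigOperators Matrix ENNReal

namespace H363KF

open H712MA (Lens gf gd af VV DS pk Spans E2)

/-- `pk v` is measurable. -/
theorem R2F_measurable_pk {n : ℕ} (v : Fin n → ℝ) : Measurable (fun z : E2 n => pk v z) := by
  have h1 : Measurable (fun z : E2 n => ((v ⬝ᵥ z.1 : ℝ) : ℂ) + ((v ⬝ᵥ z.2 : ℝ) : ℂ) * Complex.I) := by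
    have a : Continuous (fun z : E2 n => v ⬝ᵥ z.1) := by
      unfold dotProduct; fun_prop
    have b : Continuous (fun z : E2 n => v ⬝ᵥ z.2) := by
      unfold dotProduct; fun_prop
    exact ((Complex.continuous_ofReal.comp a).add
      ((Complex.continuous_ofReal.comp b).mul continuous_const)).measurable
  have h2 : (fun z : E2 n => pk v z) =
      fun z : E2 n => ((v ⬝ᵥ z.1 : ℝ) : ℂ) + ((v ⬝ᵥ z.2 : ℝ) : ℂ) * Complex.I := by
    funext z
    exact Complex.mk_eq_add_mul_I _ _
  rw [h2]; exact h1

theorem R2F_measurable_gd (L : Lens) (hm : Measurable L.e) (m : ℕ) : Measurable (gd L m) := by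
  classical
  have e : gd L m = fun p => if p ∈ L.W then (m : ℂ) * L.e p ^ (m - 1) * deriv L.e p else 0 := by
    funext p; unfold gd; split_ifs <;> rfl
  rw [e]
  exact Measurable.ite L.isOpen.measurableSet
    (((hm.pow_const _).const_mul _).mul (measurable_deriv _)) measurable_const

theorem R2F_measurable_af (L : Lens) (hm : Measurable L.e) (m : ℕ) : Measurable (af L m) :=
  ((R2F_measurable_gd L hm m).norm).pow_const 2

theorem R2F_measurable_VV {κ : Type} [Fintype κ] {n : ℕ} (L : Lens) (hm : Measurable L.e) (m : ℕ)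
    (l : κ → Fin n → ℝ) : Measurable (VV L m l) := by
  unfold VV gf
  exact Finset.measurable_sum _ fun k _ =>
    (((hm.comp (R2F_measurable_pk (l k))).pow_const m).norm).pow_const 2

theorem R2F_measurable_DS {κ : Type} [Fintype κ] {n : ℕ} (l : κ → Fin n → ℝ)
    (a : κ → E2 n → ℝ) (ha : ∀ k, Measurable (a k)) :
    Measurable (fun z : E2 n => DS l (fun k => a k z)) := by
  unfold DS
  exact Finset.measurable_sum _ fun f _ =>
    (Finset.measurable_prod _ fun i _ => ha (f i)).mul_const _

/-- R2F: the real side, integrated over `x`. -/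
theorem R2F (h1 : S_R1F) : S_R2F := by
  intro r hr0 hr1 Λ κ _ n m hm l hl
  have hqm : Measurable Λ.q := Λ.meas_q
  have heL : Measurable Λ.L.e := Λ.meas_e
  have haf : Measurable (af Λ.L m) := R2F_measurable_af Λ.L heL m
  have hVV : Measurable (VV Λ.L m l) := R2F_measurable_VV Λ.L heL m l
  set f : E2 n → ℝ≥0∞ := fun z : E2 n => ENNReal.ofReal (DS l
      (fun k => 2 * cc r * Λ.q (pk (l k) z) * af Λ.L m (pk (l k) z))) with hfdef
  have hf : Measurable f := by
    refine ENNReal.measurable_ofReal.comp ?_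
    refine R2F_measurable_DS l
      (fun k z => 2 * cc r * Λ.q (pk (l k) z) * af Λ.L m (pk (l k) z)) fun k => ?_
    exact ((hqm.comp (R2F_measurable_pk (l k))).const_mul _).mul
      (haf.comp (R2F_measurable_pk (l k)))
  set A : Set (E2 n) := {z | VV Λ.L m l z < 1} with hAdef
  have hA : MeasurableSet A := measurableSet_lt hVV measurable_const
  set Bd : Set (Fin n → ℝ) := {x : Fin n → ℝ | ∀ k, |l k ⬝ᵥ x| ≤ r} with hBddef
  have hBd : MeasurableSet Bd := by
    have hcl : IsClosed Bd := by
      have e : Bd = ⋂ k, {x | |l k ⬝ᵥ x| ≤ r} := by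
        ext x; simp [hBddef]
      rw [e]
      refine isClosed_iInter fun k => isClosed_le ?_ continuous_const
      unfold dotProduct; fun_prop
    exact hcl.measurableSet
  -- if `V(x,u) < 1` then `x` is in the polytope
  have hin : ∀ x u : Fin n → ℝ, (x, u) ∈ A → x ∈ Bd := by
    intro x u hxu k
    have hV : VV Λ.L m l (x, u) < 1 := hxu
    have hk : ‖gf Λ.L m (pk (l k) (x, u))‖ ^ 2 < 1 := by
      refine lt_of_le_of_lt ?_ hV
      unfold VV
      exact Finset.single_le_sum (f := fun k => ‖gf Λ.L m (pk (l k) (x, u))‖ ^ 2)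
        (fun i _ => by positivity) (Finset.mem_univ k)
    have hp : pk (l k) (x, u) ∈ Λ.L.W := by
      by_contra hno
      have : Λ.L.e (pk (l k) (x, u)) = 1 := Λ.L.off _ hno
      unfold gf at hk
      rw [this] at hk
      simp at hk
    have hre := Λ.re_lt _ hp
    have : (pk (l k) (x, u)).re = l k ⬝ᵥ x := rfl
    rw [this] at hre
    exact hre.le
  have hc : (n.factorial : ℝ≥0∞) * (m : ℝ≥0∞) ^ n ≠ ⊤ :=
    ENNReal.mul_ne_top (ENNReal.natCast_ne_top _) (ENNReal.pow_ne_top (ENNReal.natCast_ne_top _))
  calc ∫⁻ z in A, f z = ∫⁻ z, A.indicator f z := (lintegral_indicator hA f).symm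
    _ = ∫⁻ x, ∫⁻ u, A.indicator f (x, u) := by
        rw [Measure.volume_eq_prod, lintegral_prod _ (hf.indicator hA).aemeasurable]
    _ ≤ ∫⁻ x, Bd.indicator
          (fun x => (n.factorial : ℝ≥0∞) * (m : ℝ≥0∞) ^ n * volume (PK l x)) x := by
        apply lintegral_mono; intro x
        by_cases hx : x ∈ Bd
        · rw [Set.indicator_of_mem hx]
          refine le_trans (le_of_eq ?_) (h1 r hr0 hr1 Λ κ n m hm l hl x)
          rw [← lintegral_indicator]
          · rfl
          · exact measurableSet_lt (hVV.comp measurable_prodMk_left) measurable_const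
        · rw [Set.indicator_of_notMem hx]
          have h0 : ∀ u, A.indicator f (x, u) = 0 := fun u =>
            Set.indicator_of_notMem (fun h => hx (hin x u h)) _
          simp [h0]
    _ = (n.factorial : ℝ≥0∞) * (m : ℝ≥0∞) ^ n * ∫⁻ x in Bd, volume (PK l x) := by
        rw [lintegral_indicator hBd, lintegral_const_mul' _ _ hc]

end H363KF
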