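import Pool.Agent.H363R3.KF.Flag
import Pool.Agent.H363R3.KF.EF
import Pool.Agent.H363R3.KF.FL
import Pool.Agent.H363R3.KF.FMA
import Pool.Agent.H363R3.KF.O1
import Pool.Agent.H363R3.KF.O2
import Pool.Agent.H363R3.KF.O3
import Pool.Agent.H363R3.KF.O4
import Pool.Agent.H363R3.KF.O5
import Pool.Agent.H363R3.KF.O6
import Pool.Agent.H363R3.KF.O7
import Pool.Agent.H363R3.KF.O8
import Pool.Agent.H363R3.KF.O9
import Pool.Agent.H363R3.KF.O10
import Pool.Agent.H363R3.KF.O11
import Pool.Agent.H363R3.KF.R1F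
import Pool.Agent.H363R3.KF.R2F
import Pool.Agent.H712R2.MA.A1
import Pool.Agent.H712R2.MA.A2
import Pool.Agent.H712R2.MA.A3
import Pool.Agent.H712R2.MA.A4
import Pool.Agent.H712R2.MA.P
import Pool.Agent.H712R2.MA.C0
import Pool.Agent.H712R2.MA.C1
import Pool.Agent.H712R2.MA.C2
import Pool.Agent.H712R2.MA.C3
import Pool.Agent.H712R2.MA.C4
import Pool.Agent.H712R2.MA.C5
import Pool.Agent.H712R2.MA.C6
import Pool.Agent.H712R2.MA.F
import Pool.Agent.H712R2.MA.S

/-!
Final assembly: the symmetric Funk-Mahler inequality and Kalai's flag conjecture.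
-/

set_option autoImplicit false

noncomputable section

namespace H363KF

/-- the complex side, from the finished modules of the Mahler project -/
theorem complex_side : H712MA.S_C6 := by
  have hC1 : H712MA.S_C1 := H712MA.C1 H712MA.P H712MA.C0 H712MA.A4
  exact H712MA.C6 (H712MA.C2 H712MA.P hC1 H712MA.A1) H712MA.C3
    (H712MA.C4 H712MA.C0 H712MA.A2 H712MA.A4) H712MA.C5

/-- the Funk lens exists for every radius -/
theorem funk_lens : S_FL := by
  have h1 : S_O1 := O1
  have h2 : S_O2 := O2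
  have h3 : S_O3 := O3
  have h4 : S_O4 := O4 h3
  have h5 : S_O5 := O5 h1 h2 h3
  have h6 : S_O6 := O6 h1 h2 h4
  have h7 : S_O7 := O7 h1 h2 h5
  have h8 : S_O8 := O8 h1 h4 h6
  have h9 : S_O9 := O9 h2 h5 h6 h7 h8
  exact FL h8 (O10 h1 h2 h4 h5 h9) (O11 h1 h2 h4 h5 h6)

/-- the symmetric Funk-Mahler inequality for polytopes -/
theorem funk_mahler : S_FM :=
  FMA complex_side H712MA.S (R2F (R1F H712MA.A3)) (EF H712MA.F) funk_lens

/-- Kalai's flag conjecture -/
theorem kalai_flags : S_Z := flags_of_FM funk_mahler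

end H363KF
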