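import Pool.Agent.H363R3.KF.Stm

/-!
KALAI'S FLAG CONJECTURE, task K1: a nonempty exposed face of the convex hull of a finite set is the
convex hull of the points of the set in it.
-/

set_option autoImplicit false

noncomputable section

open MeasureTheory Filter Topology
open scoped BigOperators Matrix ENNReal

namespace H363KF

theorem K1 : S_K1 := by
  classical
  intro d S F hF
  obtain ⟨hne, hexp⟩ := hF
  have hcP : IsCompact (PP S) := S.finite_toSet.isCompact_convexHull (𝕜 := ℝ)
  have hconvP : Convex ℝ (PP S) := convex_convexHull ℝ _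
  have hsub : F ⊆ PP S := hexp.subset
  have hconv : Convex ℝ F := hexp.convex hconvP
  have hcomp : IsCompact F := hexp.isCompact hcP
  have hle : convexHull ℝ ((S : Set (EE d)) ∩ F) ⊆ F :=
    convexHull_min Set.inter_subset_right hconv
  have hge : F ⊆ convexHull ℝ ((S : Set (EE d)) ∩ F) := by
    intro x hx
    obtain ⟨φ, hφ⟩ := hexp hne
    have hxP := hsub hx
    have hx' := hx
    rw [hφ] at hx'
    unfold PP at hxP
    rw [Finset.mem_convexHull'] at hxP
    obtain ⟨w, hw0, hw1, hwx⟩ := hxP
    have hφs : ∀ s ∈ S, φ s ≤ φ x := fun s hs => hx'.2 s (subset_convexHull ℝ _ hs)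
    have hsum : ∑ s ∈ S, w s * (φ x - φ s) = 0 := by
      have h1 : φ x = ∑ s ∈ S, w s * φ s := by
        conv_lhs => rw [← hwx]
        rw [map_sum]
        refine Finset.sum_congr rfl fun s _ => ?_
        rw [map_smul, smul_eq_mul]
      simp only [mul_sub]
      rw [Finset.sum_sub_distrib, ← Finset.sum_mul, hw1, one_mul, ← h1, sub_self]
    have hzero : ∀ s ∈ S, w s * (φ x - φ s) = 0 :=
      (Finset.sum_eq_zero_iff_of_nonneg fun s hs =>
        mul_nonneg (hw0 s hs) (sub_nonneg.2 (hφs s hs))).1 hsum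
    have hmem : ∀ s ∈ S, s ∉ F → w s = 0 := by
      intro s hs hsF
      by_contra hcon
      rcases mul_eq_zero.1 (hzero s hs) with h | h
      · exact hcon h
      · apply hsF
        rw [hφ]
        refine ⟨subset_convexHull ℝ _ hs, fun y hy => ?_⟩
        have := hx'.2 y hy
        linarith
    have hfil : ((S.filter (fun s => s ∈ F) : Finset (EE d)) : Set (EE d)) =
        (S : Set (EE d)) ∩ F := by
      ext s
      simp
    rw [← hfil, Finset.mem_convexHull']
    refine ⟨w, fun s hs => hw0 s (Finset.mem_filter.1 hs).1, ?_, ?_⟩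
    · rw [← hw1]
      refine Finset.sum_subset (Finset.filter_subset _ _) fun s hs hsn => ?_
      exact hmem s hs fun h => hsn (Finset.mem_filter.2 ⟨hs, h⟩)
    · rw [← hwx]
      refine Finset.sum_subset (Finset.filter_subset _ _) fun s hs hsn => ?_
      rw [hmem s hs fun h => hsn (Finset.mem_filter.2 ⟨hs, h⟩), zero_smul]
  have heq : F = convexHull ℝ ((S : Set (EE d)) ∩ F) := Set.Subset.antisymm hge hle
  have hne' : ((S : Set (EE d)) ∩ F).Nonempty := by
    rw [heq] at hne
    exact convexHull_nonempty_iff.1 hne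
  refine ⟨heq, hne', hcomp, hconv, hsub, ?_⟩
  have hcard : (0 : ℝ) < ((S.filter (fun s => s ∈ F)).card : ℝ) := by
    obtain ⟨s, hs⟩ := hne'
    exact_mod_cast Finset.card_pos.2 ⟨s, Finset.mem_filter.2 ⟨hs.1, hs.2⟩⟩
  unfold cen
  rw [Finset.smul_sum]
  refine hconv.sum_mem (fun _ _ => inv_nonneg.2 hcard.le) ?_ (fun s hs => (Finset.mem_filter.1 hs).2)
  rw [Finset.sum_const, nsmul_eq_mul]
  exact mul_inv_cancel₀ hcard.ne'

end H363KF
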