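import Pool.Agent.H363R3.KF.Stm

set_option autoImplicit false

noncomputable section

namespace H363KF

open Classical in
/-- maximum of a functional over the convex hull of a finite set -/
theorem K2_le {d : ℕ} (T : Set (EE d)) (θ : EE d →L[ℝ] ℝ) (m : ℝ) (h : ∀ s ∈ T, θ s ≤ m) :
    ∀ x ∈ convexHull ℝ T, θ x ≤ m := by
  intro x hx
  have h1 : convexHull ℝ T ⊆ {y | θ y ≤ m} :=
    convexHull_min h (convex_halfSpace_le θ.toLinearMap.isLinear m)
  exact h1 hx

open Classical in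
theorem K2 (hK1 : S_K1) : S_K2 := by
  intro d S G hG θ
  obtain ⟨hGhull, ⟨s0, hs0⟩, hGc, hGconv, hGP, -⟩ := hK1 d S G hG
  obtain ⟨φ, hφ⟩ := hG.2 hG.1
  -- maximum of φ
  obtain ⟨g0, hg0⟩ := hG.1
  set M := φ g0 with hM
  have hφG : ∀ x ∈ G, φ x = M := by
    intro x hx
    have h1 := hx
    have h2 := hg0
    rw [hφ] at h1 h2
    exact le_antisymm (h2.2 x h1.1) (h1.2 g0 h2.1)
  have hφP : ∀ x ∈ PP S, φ x ≤ M := by
    intro x hx
    have h2 := hg0
    rw [hφ] at h2
    exact h2.2 x hx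
  have hmemG : ∀ x ∈ PP S, φ x = M → x ∈ G := by
    intro x hx hxM
    rw [hφ]
    refine ⟨hx, fun y hy => ?_⟩
    rw [hxM]
    exact hφP y hy
  -- maximum of θ on G
  obtain ⟨h0, hh0, hh0max⟩ := hGc.exists_isMaxOn ⟨g0, hg0⟩ θ.continuous.continuousOn
  set m := θ h0 with hm
  have hθG : ∀ x ∈ G, θ x ≤ m := fun x hx => hh0max hx
  set H : Set (EE d) := {x ∈ G | ∀ y ∈ G, θ y ≤ θ x} with hH
  have hHiff : ∀ x, x ∈ H ↔ x ∈ G ∧ θ x = m := by
    intro x
    rw [hH]
    constructor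
    · rintro ⟨h1, h2⟩
      exact ⟨h1, le_antisymm (hθG x h1) (h2 h0 hh0)⟩
    · rintro ⟨h1, h2⟩
      exact ⟨h1, fun y hy => by rw [h2]; exact hθG y hy⟩
  have hHne : H.Nonempty := ⟨h0, (hHiff h0).2 ⟨hh0, rfl⟩⟩
  refine ⟨hHne, fun _ => ?_⟩
  -- large t
  obtain ⟨t, ht⟩ : ∃ t : ℝ, ∀ s ∈ S, s ∉ G → θ s + t * φ s < m + t * M := by
    have hex : ∀ s ∈ S, ∃ ts : ℝ, s ∉ G → ∀ t, ts ≤ t → θ s + t * φ s < m + t * M := by
      intro s hs
      by_cases hsG : s ∈ G
      · exact ⟨0, fun h => absurd hsG h⟩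
      · have hsP : s ∈ PP S := subset_convexHull ℝ _ (Finset.mem_coe.2 hs)
        have hlt : φ s < M := lt_of_le_of_ne (hφP s hsP) fun h => hsG (hmemG s hsP h)
        have hpos : 0 < M - φ s := sub_pos.2 hlt
        refine ⟨(θ s - m) / (M - φ s) + 1, fun _ t ht => ?_⟩
        have h1 : (θ s - m) / (M - φ s) < t := by linarith
        rw [div_lt_iff₀ hpos] at h1
        nlinarith
    choose! ts hts using hex
    refine ⟨∑ s ∈ S, |ts s|, fun s hs hsG => hts s hs hsG _ ?_⟩
    exact (le_abs_self _).trans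
      (Finset.single_le_sum (f := fun s => |ts s|) (fun _ _ => abs_nonneg _) hs)
  set ψ : EE d →L[ℝ] ℝ := θ + t • φ with hψ
  have hψa : ∀ x, ψ x = θ x + t * φ x := by
    intro x
    simp [hψ]
  have hSle : ∀ s ∈ S, ψ s ≤ m + t * M := by
    intro s hs
    rw [hψa]
    by_cases hsG : s ∈ G
    · rw [hφG s hsG]
      have := hθG s hsG
      linarith
    · exact (ht s hs hsG).le
  have hPle : ∀ x ∈ PP S, ψ x ≤ m + t * M := K2_le _ ψ _ hSle
  refine ⟨ψ, ?_⟩
  have hψH : ∀ x ∈ H, ψ x = m + t * M := by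
    intro x hx
    obtain ⟨h1, h2⟩ := (hHiff x).1 hx
    rw [hψa, h2, hφG x h1]
  apply Set.Subset.antisymm
  · intro x hx
    refine ⟨hGP ((hHiff x).1 hx).1, fun y hy => ?_⟩
    rw [hψH x hx]
    exact hPle y hy
  · rintro x ⟨hxP, hxmax⟩
    have hxval : ψ x = m + t * M := by
      refine le_antisymm (hPle x hxP) ?_
      have := hxmax h0 (hGP hh0)
      rwa [hψH h0 ((hHiff h0).2 ⟨hh0, rfl⟩)] at this
    have hxP' := hxP
    rw [PP, Finset.mem_convexHull'] at hxP'
    obtain ⟨w, hw0, hw1, hwx⟩ := hxP'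
    have hz : ∑ s ∈ S, w s * ((m + t * M) - ψ s) = 0 := by
      have h1 : ψ x = ∑ s ∈ S, w s * ψ s := by
        conv_lhs => rw [← hwx]
        simp
      calc ∑ s ∈ S, w s * ((m + t * M) - ψ s)
          = (∑ s ∈ S, w s) * (m + t * M) - ∑ s ∈ S, w s * ψ s := by
            rw [Finset.sum_mul, ← Finset.sum_sub_distrib]
            exact Finset.sum_congr rfl fun s _ => by ring
        _ = 0 := by rw [hw1, ← h1, hxval]; ring
    have hz' := (Finset.sum_eq_zero_iff_of_nonneg (fun s hs =>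
      mul_nonneg (hw0 s hs) (sub_nonneg.2 (hSle s hs)))).1 hz
    have hsG : ∀ s ∈ S, w s ≠ 0 → s ∈ G := by
      intro s hs hws
      by_contra hsG
      have h1 := ht s hs hsG
      rw [← hψa] at h1
      rcases mul_eq_zero.1 (hz' s hs) with h | h
      · exact hws h
      · linarith
    have hsum : ∑ s ∈ S.filter (fun s => s ∈ G), w s • s = x := by
      rw [← hwx, Finset.sum_filter]
      refine Finset.sum_congr rfl fun s hs => ?_
      split_ifs with h
      · rfl
      · have : w s = 0 := by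
          by_contra h'
          exact h (hsG s hs h')
        simp [this]
    have hsum1 : ∑ s ∈ S.filter (fun s => s ∈ G), w s = 1 := by
      rw [← hw1, Finset.sum_filter]
      refine Finset.sum_congr rfl fun s hs => ?_
      split_ifs with h
      · rfl
      · by_contra h'
        exact h (hsG s hs (fun h'' => h' h''.symm))
    have hxG : x ∈ G := by
      rw [← hsum]
      refine hGconv.sum_mem ?_ hsum1 ?_
      · intro s hs
        exact hw0 s (Finset.mem_filter.1 hs).1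
      · intro s hs
        exact (Finset.mem_filter.1 hs).2
    rw [hHiff]
    refine ⟨hxG, ?_⟩
    rw [hψa, hφG x hxG] at hxval
    linarith

end H363KF
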