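import Pool.Agent.H363R3.KF.Stm

/-! # Task K3: proper subfaces (helper215) -/

set_option autoImplicit false

noncomputable section

open MeasureTheory Filter Topology
open scoped BigOperators Matrix ENNReal

namespace H363KF

namespace TK3

variable {d : ℕ}

/-- a linear functional vanishing on the differences of `H` is constant on `H` -/
theorem vectorSpan_le_ker {H : Set (EE d)} (f : EE d →ₗ[ℝ] ℝ) (h : ∀ x ∈ H, ∀ y ∈ H, f x = f y) :
    vectorSpan ℝ H ≤ LinearMap.ker f := by
  unfold vectorSpan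
  rw [Submodule.span_le]
  rintro _ ⟨x, hx, y, hy, rfl⟩
  rw [SetLike.mem_coe, LinearMap.mem_ker]
  have e : f (x - y) = 0 := by rw [map_sub, h x hx y hy, sub_self]
  exact e

theorem finrank_ker_ge (f : EE d →ₗ[ℝ] ℝ) :
    Module.finrank ℝ (EE d) ≤ Module.finrank ℝ (LinearMap.ker f) + 1 := by
  have h1 := LinearMap.finrank_range_add_finrank_ker f
  have h2 : Module.finrank ℝ (LinearMap.range f) ≤ Module.finrank ℝ ℝ :=
    Submodule.finrank_le _
  rw [Module.finrank_self] at h2
  omega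

end TK3

open TK3 in
theorem K3 (hK1 : S_K1) (hK2 : S_K2) : S_K3 := by
  classical
  intro d S G H hG hH hHG hne
  obtain ⟨g1, g2, g3, g4, g5, g6⟩ := hK1 d S G hG
  obtain ⟨k1, k2, k3, k4, k5, k6⟩ := hK1 d S H hH
  obtain ⟨l, hl⟩ := hH.2 hH.1
  obtain ⟨h, hh⟩ := hH.1
  have hM : ∀ x ∈ PP S, l x ≤ l h := by
    intro x hx
    have := hh
    rw [hl] at this
    exact this.2 x hx
  have hHl : ∀ x ∈ H, l x = l h := by
    intro x hx
    apply le_antisymm (hM x (k5 hx))
    rw [hl] at hx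
    exact hx.2 h (k5 hh)
  have hmem : ∀ x ∈ G, l x = l h → x ∈ H := by
    intro x hx he
    rw [hl]
    exact ⟨g5 hx, fun y hy => he ▸ hM y hy⟩
  obtain ⟨g, hg, hgH⟩ : ∃ g ∈ G, g ∉ H := by
    by_contra hcon
    push Not at hcon
    exact hne (Set.Subset.antisymm hHG hcon)
  have hgl : l g < l h := lt_of_le_of_ne (hM g (g5 hg)) fun he => hgH (hmem g hg he)
  set L : EE d →ₗ[ℝ] ℝ := l.toLinearMap with hL
  have hker : vectorSpan ℝ H ≤ LinearMap.ker L :=
    vectorSpan_le_ker L fun x hx y hy => (hHl x hx).trans (hHl y hy).symm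
  have hle : vectorSpan ℝ H ≤ vectorSpan ℝ G := vectorSpan_mono ℝ hHG
  have hlt : vectorSpan ℝ H < vectorSpan ℝ G := by
    refine lt_of_le_of_ne hle fun he => ?_
    have h1 : g - h ∈ vectorSpan ℝ G := vsub_mem_vectorSpan ℝ hg (hHG hh)
    rw [← he] at h1
    have h2 := hker h1
    rw [LinearMap.mem_ker, map_sub] at h2
    have h3 : l g - l h = 0 := h2
    linarith
  refine ⟨Submodule.finrank_lt_finrank_of_lt hlt, fun hgap => ?_⟩
  -- a direction in `vectorSpan G ∩ ker l` outside `vectorSpan H`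
  obtain ⟨e, heD, heH⟩ : ∃ e ∈ vectorSpan ℝ G ⊓ LinearMap.ker L, e ∉ vectorSpan ℝ H := by
    by_contra hcon
    push Not at hcon
    have h1 : vectorSpan ℝ G ⊓ LinearMap.ker L ≤ vectorSpan ℝ H := hcon
    have h2 := Submodule.finrank_mono h1
    have h3 := Submodule.finrank_sup_add_finrank_inf_eq (vectorSpan ℝ G) (LinearMap.ker L)
    have h4 : Module.finrank ℝ (vectorSpan ℝ G ⊔ LinearMap.ker L : Submodule ℝ (EE d)) ≤
      Module.finrank ℝ (EE d) := Submodule.finrank_le _
    have h5 := finrank_ker_ge L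
    unfold dm at hgap
    omega
  obtain ⟨ψ₀, hψe, hψH⟩ := Submodule.exists_le_ker_of_notMem heH
  set ψ : EE d → ℝ := fun x => ψ₀ (x - h) with hψ
  have hψH' : ∀ x ∈ H, ψ x = 0 := by
    intro x hx
    exact hψH (vsub_mem_vectorSpan ℝ hx hh)
  set T : Finset (EE d) := S.filter (fun s => s ∈ G ∧ s ∉ H) with hT
  have hTpos : ∀ s ∈ T, 0 < l h - l s := by
    intro s hs
    rw [hT, Finset.mem_filter] at hs
    have := hM s (g5 hs.2.1)
    have h2 : l s ≠ l h := fun he => hs.2.2 (hmem s hs.2.1 he)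
    have := lt_of_le_of_ne this h2
    linarith
  have hTne : T.Nonempty := by
    by_contra hcon
    rw [Finset.not_nonempty_iff_eq_empty] at hcon
    have h1 : (S : Set (EE d)) ∩ G ⊆ H := by
      rintro s ⟨hs, hsG⟩
      by_contra hsH
      have : s ∈ T := by
        rw [hT, Finset.mem_filter]
        exact ⟨hs, hsG, hsH⟩
      rw [hcon] at this
      simp at this
    have h2 : G ⊆ H := by
      rw [g1]
      exact convexHull_min h1 k4
    exact hne (Set.Subset.antisymm hHG h2)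
  obtain ⟨s1, hs1, hmax⟩ := Finset.exists_max_image T (fun s => ψ s / (l h - l s)) hTne
  set r : ℝ := ψ s1 / (l h - l s1) with hr
  have hs1eq : ψ s1 = r * (l h - l s1) := by
    rw [hr, div_mul_cancel₀]
    exact (hTpos s1 hs1).ne'
  have hs1G : s1 ∈ G := by
    rw [hT, Finset.mem_filter] at hs1
    exact hs1.2.1
  have hs1H : s1 ∉ H := by
    rw [hT, Finset.mem_filter] at hs1
    exact hs1.2.2
  set θ : EE d →L[ℝ] ℝ := LinearMap.toContinuousLinearMap (ψ₀ + r • L) with hθ
  have hθa : ∀ x, θ x = ψ₀ x + r * l x := fun x => rfl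
  have hθd : ∀ x, θ x - θ h = ψ x - r * (l h - l x) := by
    intro x
    rw [hθa, hθa, hψ]
    simp only [map_sub]
    ring
  have hSle : ∀ s ∈ (S : Set (EE d)) ∩ G, θ s ≤ θ h := by
    rintro s ⟨hs, hsG⟩
    by_cases hsH : s ∈ H
    · have h1 := hθd s
      rw [hψH' s hsH, hHl s hsH] at h1
      linarith
    · have hsT : s ∈ T := by
        rw [hT, Finset.mem_filter]
        exact ⟨hs, hsG, hsH⟩
      have h1 := hmax s hsT
      have h2 := hTpos s hsT
      rw [div_le_iff₀ h2] at h1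
      have h3 := hθd s
      linarith
  have hGle : ∀ x ∈ G, θ x ≤ θ h := by
    intro x hx
    rw [g1] at hx
    have h1 : convexHull ℝ ((S : Set (EE d)) ∩ G) ⊆ {x | θ x ≤ θ h} := by
      apply convexHull_min
      · exact hSle
      · exact convex_halfSpace_le θ.toLinearMap.isLinear _
    exact h1 hx
  -- the functional is not constant on the vertices
  obtain ⟨s2, hs2, hs2lt⟩ : ∃ s2 ∈ (S : Set (EE d)) ∩ G, θ s2 < θ h := by
    by_contra hcon
    push Not at hcon
    have h1 : ∀ s ∈ (S : Set (EE d)) ∩ G, θ s = θ h := fun s hs =>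
      le_antisymm (hSle s hs) (hcon s hs)
    have h2 : G ⊆ {x | θ x = θ h} := by
      rw [g1]
      apply convexHull_min h1
      exact convex_hyperplane θ.toLinearMap.isLinear _
    have h3 := vectorSpan_le_ker (H := G) θ.toLinearMap (fun x hx y hy => by
      have e1 := h2 hx
      have e2 := h2 hy
      exact e1.trans e2.symm)
    have h4 := h3 heD.1
    rw [LinearMap.mem_ker] at h4
    have h5 : θ e = 0 := h4
    have h6 : l e = 0 := heD.2
    rw [hθa, h6, mul_zero, add_zero] at h5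
    exact hψe h5
  have hH'mem : ∀ x, x ∈ {x ∈ G | ∀ y ∈ G, θ y ≤ θ x} ↔ x ∈ G ∧ θ x = θ h := by
    intro x
    constructor
    · rintro ⟨h1, h2⟩
      exact ⟨h1, le_antisymm (hGle x h1) (h2 h (hHG hh))⟩
    · rintro ⟨h1, h2⟩
      exact ⟨h1, fun y hy => h2 ▸ hGle y hy⟩
  refine ⟨{x ∈ G | ∀ y ∈ G, θ y ≤ θ x}, hK2 d S G hG θ, ?_, ?_, ?_, ?_⟩
  · intro x hx
    rw [hH'mem]
    refine ⟨hHG hx, ?_⟩
    have h1 := hθd x
    rw [hψH' x hx, hHl x hx] at h1
    linarith
  · intro he
    have h1 : s1 ∈ {x ∈ G | ∀ y ∈ G, θ y ≤ θ x} := by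
      rw [hH'mem]
      refine ⟨hs1G, ?_⟩
      have h2 := hθd s1
      linarith
    rw [← he] at h1
    exact hs1H h1
  · exact fun x hx => hx.1
  · intro he
    have h1 : s2 ∈ {x ∈ G | ∀ y ∈ G, θ y ≤ θ x} := by
      rw [he]
      exact hs2.2
    rw [hH'mem] at h1
    linarith [h1.2]

end H363KF
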