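import Pool.Agent.H363R3.KF.Stm

/-!
K4: exit point of a ray and a nonconstant supporting functional there.
-/

set_option autoImplicit false

noncomputable section

open MeasureTheory Filter Topology
open scoped BigOperators Matrix ENNReal RealInnerProductSpace

namespace H363KF

/-- the supporting functional at a boundary point (relative to the affine span) -/
theorem K4_aux {d : ℕ} (G : Set (EE d)) (hG : IsCompact G) (hconv : Convex ℝ G)
    (c w : EE d) (hc : c ∈ G) (hw : w ∈ G)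
    (hout : ∀ ε : ℝ, 0 < ε → w + ε • (w - c) ∉ G) :
    ∃ θ : EE d →L[ℝ] ℝ, (∀ y ∈ G, θ y ≤ θ w) ∧ ∃ y ∈ G, θ y < θ w := by
  classical
  set D : Submodule ℝ (EE d) := vectorSpan ℝ G with hD
  have hcomplete : IsComplete G := hG.isComplete
  -- the outer points
  let W : ℕ → EE d := fun n => w + (1 / ((n : ℝ) + 1)) • (w - c)
  have hWtend : Tendsto W atTop (𝓝 w) := by
    have h1 : Tendsto (fun n : ℕ => (1 / ((n : ℝ) + 1)) • (w - c)) atTop (𝓝 ((0 : ℝ) • (w - c))) :=
      tendsto_one_div_add_atTop_nhds_zero_nat.smul_const _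
    have h2 := h1.const_add w
    simpa [W] using h2
  have hproj : ∀ n, ∃ p ∈ G, ∀ y ∈ G, ⟪W n - p, y - p⟫ ≤ 0 := by
    intro n
    obtain ⟨p, hp, hpe⟩ := exists_norm_eq_iInf_of_complete_convex ⟨c, hc⟩ hcomplete hconv (W n)
    exact ⟨p, hp, (norm_eq_iInf_iff_real_inner_le_zero hconv hp).1 hpe⟩
  choose p hp hpy using hproj
  have hv : ∀ n, W n - p n ≠ 0 := by
    intro n h
    have h1 : W n = p n := sub_eq_zero.mp h
    have h2 : W n ∈ G := h1 ▸ hp n
    exact hout (1 / ((n : ℝ) + 1)) (by positivity) h2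
  have hvD : ∀ n, W n - p n ∈ D := by
    intro n
    have h1 : W n - p n = (w - p n) + (1 / ((n : ℝ) + 1)) • (w - c) := by
      simp only [W]; abel
    rw [h1]
    apply D.add_mem
    · exact vsub_mem_vectorSpan ℝ hw (hp n)
    · exact D.smul_mem _ (vsub_mem_vectorSpan ℝ hw hc)
  let u : ℕ → EE d := fun n => (‖W n - p n‖)⁻¹ • (W n - p n)
  have hu1 : ∀ n, ‖u n‖ = 1 := by
    intro n
    simp only [u]
    rw [norm_smul, norm_inv, norm_norm]
    exact inv_mul_cancel₀ (norm_ne_zero_iff.mpr (hv n))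
  have hcompactK : IsCompact (Metric.sphere (0 : EE d) 1 ∩ (D : Set (EE d))) :=
    (isCompact_sphere 0 1).inter_right D.closed_of_finiteDimensional
  have humem : ∀ n, u n ∈ Metric.sphere (0 : EE d) 1 ∩ (D : Set (EE d)) := by
    intro n
    refine ⟨by simpa using hu1 n, D.smul_mem _ (hvD n)⟩
  obtain ⟨u0, ⟨hu0s, hu0D⟩, φ, hφ, hlim⟩ := hcompactK.tendsto_subseq humem
  have hineq : ∀ n, ∀ y ∈ G, ⟪u n, y⟫ ≤ ⟪u n, W n⟫ := by
    intro n y hy
    have h1 : ⟪W n - p n, y⟫ ≤ ⟪W n - p n, W n⟫ := by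
      have h2 := hpy n y hy
      have h3 : 0 ≤ ⟪W n - p n, W n - p n⟫ := real_inner_self_nonneg
      rw [inner_sub_right] at h2 h3
      linarith
    simp only [u, real_inner_smul_left]
    exact mul_le_mul_of_nonneg_left h1 (by positivity)
  have hle : ∀ y ∈ G, ⟪u0, y⟫ ≤ ⟪u0, w⟫ := by
    intro y hy
    have h1 : Tendsto (fun n => ⟪u (φ n), y⟫) atTop (𝓝 ⟪u0, y⟫) :=
      (hlim.inner tendsto_const_nhds)
    have h2 : Tendsto (fun n => ⟪u (φ n), W (φ n)⟫) atTop (𝓝 ⟪u0, w⟫) :=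
      hlim.inner (hWtend.comp hφ.tendsto_atTop)
    exact le_of_tendsto_of_tendsto' h1 h2 (fun n => hineq (φ n) y hy)
  refine ⟨innerSL ℝ u0, fun y hy => by simpa using hle y hy, ?_⟩
  by_contra hcon
  push Not at hcon
  have heq : ∀ y ∈ G, ⟪u0, y⟫ = ⟪u0, w⟫ := by
    intro y hy
    apply le_antisymm (hle y hy)
    simpa using hcon y hy
  have hperp : ∀ v ∈ D, ⟪u0, v⟫ = 0 := by
    intro v hvm
    rw [hD, vectorSpan_def] at hvm
    induction hvm using Submodule.span_induction with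
    | mem x hx =>
      obtain ⟨a, ha, b, hb, rfl⟩ := Set.mem_vsub.mp hx
      rw [vsub_eq_sub, inner_sub_right, heq a ha, heq b hb, sub_self]
    | zero => simp
    | add x y _ _ hx hy => rw [inner_add_right, hx, hy, add_zero]
    | smul a x _ hx => rw [real_inner_smul_right, hx, mul_zero]
  have h0 := hperp u0 hu0D
  rw [real_inner_self_eq_norm_sq] at h0
  have h1 : ‖u0‖ = 1 := by simpa using hu0s
  rw [h1] at h0
  norm_num at h0

theorem K4 : S_K4 := by
  intro d G hG hconv c hc z hz hne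
  have hzc : 0 < ‖z - c‖ := by
    rw [norm_pos_iff]
    exact sub_ne_zero.mpr (Ne.symm hne)
  set T : Set ℝ := {t : ℝ | 1 ≤ t ∧ c + t • (z - c) ∈ G} with hT
  obtain ⟨R, hR⟩ := hG.isBounded.exists_norm_le
  have hTclosed : IsClosed T := by
    have h1 : Continuous (fun t : ℝ => c + t • (z - c)) := by fun_prop
    exact isClosed_Ici.inter (hG.isClosed.preimage h1)
  have hTsub : T ⊆ Set.Icc 1 ((R + ‖c‖) / ‖z - c‖) := by
    rintro t ⟨ht1, ht2⟩
    refine ⟨ht1, ?_⟩
    rw [le_div_iff₀ hzc]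
    have h1 : ‖c + t • (z - c)‖ ≤ R := hR _ ht2
    have h2 : ‖t • (z - c)‖ = t * ‖z - c‖ := by
      rw [norm_smul, Real.norm_of_nonneg (by linarith)]
    have h3 : ‖t • (z - c)‖ ≤ ‖c + t • (z - c)‖ + ‖c‖ := by
      have := norm_sub_le (c + t • (z - c)) c
      simpa using this
    linarith
  have hTcomp : IsCompact T := isCompact_Icc.of_isClosed_subset hTclosed hTsub
  have hTne : T.Nonempty := ⟨1, le_refl _, by simpa using hz⟩
  obtain ⟨τ, ⟨hτ1, hτG⟩, hτmax⟩ := hTcomp.exists_isGreatest hTne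
  have hτ0 : 0 < τ := by linarith
  refine ⟨c + τ • (z - c), hτG, ?_, ?_⟩
  · refine ⟨1 - 1 / τ, 1 / τ, ?_, by positivity, by ring, ?_⟩
    · rw [sub_nonneg, div_le_one hτ0]
      exact hτ1
    · rw [smul_add, smul_smul, one_div, inv_mul_cancel₀ hτ0.ne', one_smul, sub_smul, one_smul]
      abel
  · apply K4_aux G hG hconv c (c + τ • (z - c)) hc hτG
    intro ε hε hmem
    have h1 : c + τ • (z - c) + ε • (c + τ • (z - c) - c) = c + ((1 + ε) * τ) • (z - c) := by
      rw [add_sub_cancel_left, smul_smul, add_assoc, ← add_smul]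
      congr 2
      ring
    rw [h1] at hmem
    have h2 : (1 + ε) * τ ≤ τ := hτmax ⟨by nlinarith, hmem⟩
    nlinarith

end H363KF
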