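import Pool.Agent.H363R3.KF.Stm

/-!
K5: one step down.
-/

set_option autoImplicit false

noncomputable section

open MeasureTheory Filter Topology
open scoped BigOperators Matrix ENNReal

namespace H363KF

theorem K5 (h1 : S_K1) (h2 : S_K2) (h3 : S_K3) (h4 : S_K4) : S_K5 := by
  classical
  intro d S G k hG hdim c hc z hz
  obtain ⟨z', hz', hne, himp⟩ : ∃ z' ∈ G, c ≠ z' ∧
      ∀ w : EE d, z' ∈ segment ℝ c w → z ∈ segment ℝ c w := by
    by_cases hzc : c = z
    · have : ∃ z' ∈ G, c ≠ z' := by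
        by_contra hcon
        push Not at hcon
        have hGc : G = {c} := by
          apply Set.eq_singleton_iff_unique_mem.mpr
          exact ⟨hc, fun x hx => (hcon x hx).symm⟩
        have h0 : dm G = 0 := by
          unfold dm
          rw [hGc, vectorSpan_singleton]
          simp
        omega
      obtain ⟨z', hz', hne⟩ := this
      exact ⟨z', hz', hne, fun w _ => hzc ▸ left_mem_segment ℝ c w⟩
    · exact ⟨z, hz, hzc, fun w h => h⟩
  obtain ⟨-, -, hcomp, hconv, -, -⟩ := h1 d S G hG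
  obtain ⟨w, hw, hseg, θ, hθ, y, hy, hθy⟩ := h4 d G hcomp hconv c hc z' hz' hne
  set H0 : Set (EE d) := {x ∈ G | ∀ y ∈ G, θ y ≤ θ x} with hH0
  have hF0 : Fc S H0 := h2 d S G hG θ
  have hw0 : w ∈ H0 := ⟨hw, hθ⟩
  have hsub0 : H0 ⊆ G := fun x hx => hx.1
  have hne0 : H0 ≠ G := by
    intro h
    have : y ∈ H0 := h ▸ hy
    exact absurd (this.2 w hw) (not_le.mpr hθy)
  let P : ℕ → Prop := fun n => ∃ H : Set (EE d), Fc S H ∧ w ∈ H ∧ H ⊆ G ∧ H ≠ G ∧ dm H = n
  have hPlt : ∀ n, P n → n ≤ k := by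
    rintro n ⟨H, hH, -, hs, hn, rfl⟩
    have := (h3 d S G H hG hH hs hn).1
    omega
  have hP0 : P (dm H0) := ⟨H0, hF0, hw0, hsub0, hne0, rfl⟩
  have hspec : P (Nat.findGreatest P k) := Nat.findGreatest_spec (hPlt _ hP0) hP0
  have hgr : ∀ n, Nat.findGreatest P k < n → n ≤ k → ¬ P n := fun n h h' =>
    Nat.findGreatest_is_greatest h h'
  generalize Nat.findGreatest P k = m at hspec hgr
  have hm := hPlt m hspec
  obtain ⟨H, hH, hwH, hs, hn, hdH⟩ := hspec
  refine ⟨H, hH, hs, ?_, w, hwH, himp w hseg⟩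
  by_contra hk
  have hlt : dm H + 1 < dm G := by omega
  obtain ⟨H', hF', hHH', hneHH', hH'G, hH'neG⟩ := (h3 d S G H hG hH hs hn).2 hlt
  have ha := (h3 d S H' H hF' hH hHH' hneHH').1
  have hb := (h3 d S G H' hG hF' hH'G hH'neG).1
  exact hgr (dm H') (by omega) (by omega) ⟨H', hF', hHH' hwH, hH'G, hH'neG, rfl⟩

end H363KF
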