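import Pool.Agent.H363R3.KF.Stm

/-! Task K6: barycentric subdivision of a face. -/

set_option autoImplicit false

noncomputable section

open MeasureTheory Filter Topology
open scoped BigOperators Matrix ENNReal

namespace H363KF

theorem K6 (h1 : S_K1) (h5 : S_K5) : S_K6 := by
  intro d S k
  induction k with
  | zero =>
    intro G hG hdm z hz
    have hsub : G.Subsingleton := by
      have h : vectorSpan ℝ G = ⊥ := Submodule.finrank_eq_zero.1 hdm
      exact (vectorSpan_eq_bot_iff_subsingleton ℝ).1 h
    have hc : z = cen S G := hsub hz (h1 d S G hG).2.2.2.2.2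
    refine ⟨fun _ => G, rfl, ?_, fun _ _ _ _ => le_rfl, fun i => if i = 0 then 1 else 0, ?_, ?_, ?_⟩
    · intro i hi
      have : i = 0 := by omega
      subst this
      exact ⟨hG, hdm⟩
    · intro i
      dsimp only
      split_ifs <;> norm_num
    · simp
    · simp [← hc]
  | succ k ih =>
    intro G hG hdm z hz
    obtain ⟨H, hH, hHG, hdH, w, hw, hseg⟩ := h5 d S G k hG hdm (cen S G)
      (h1 d S G hG).2.2.2.2.2 z hz
    obtain ⟨s, t, hs, ht, hst, rfl⟩ := hseg
    obtain ⟨f, hfk, hf, hmono, a, ha, hsum, hwe⟩ := ih H hH hdH w hw
    refine ⟨fun i => if i ≤ k then f i else G, ?_, ?_, ?_,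
      fun i => if i ≤ k then t * a i else if i = k + 1 then s else 0, ?_, ?_, ?_⟩
    · simp
    · intro i hi
      by_cases h : i ≤ k
      · simp only [h, if_true]
        exact hf i h
      · have : i = k + 1 := by omega
        subst this
        simp only [h, if_false]
        exact ⟨hG, hdm⟩
    · intro i j hij hj
      by_cases h : j ≤ k
      · simp only [h, if_true, show i ≤ k by omega]
        exact hmono i j hij h
      · by_cases h' : i ≤ k
        · simp only [h, h', if_true, if_false]
          have := hmono i k h' le_rfl
          rw [hfk] at this
          exact this.trans hHG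
        · simp only [h, h', if_false]
          exact le_rfl
    · intro i
      dsimp only
      split_ifs
      · exact mul_nonneg ht (ha i)
      · exact hs
      · exact le_rfl
    · rw [Finset.sum_range_succ]
      have e1 : ∑ i ∈ Finset.range (k + 1),
          (if i ≤ k then t * a i else if i = k + 1 then s else 0) =
          ∑ i ∈ Finset.range (k + 1), t * a i := by
        refine Finset.sum_congr rfl fun i hi => ?_
        rw [Finset.mem_range] at hi
        rw [if_pos (by omega)]
      rw [e1, ← Finset.mul_sum, hsum]
      simp only [show ¬ (k + 1 ≤ k) by omega, if_false, if_true]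
      linarith
    · rw [Finset.sum_range_succ]
      have e1 : ∑ i ∈ Finset.range (k + 1),
          (if i ≤ k then t * a i else if i = k + 1 then s else 0) •
            cen S (if i ≤ k then f i else G) =
          ∑ i ∈ Finset.range (k + 1), t • (a i • cen S (f i)) := by
        refine Finset.sum_congr rfl fun i hi => ?_
        rw [Finset.mem_range] at hi
        have hik : i ≤ k := by omega
        simp only [hik, if_true, smul_smul]
      rw [e1, ← Finset.smul_sum, ← hwe]
      simp only [show ¬ (k + 1 ≤ k) by omega, if_false, if_true]
      rw [add_comm]

end H363KF
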