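import Pool.Agent.H363R3.KF.Stm

/-! Task K7: cover of the polytope by the simplices with apex `0` over the flags. -/

set_option autoImplicit false

noncomputable section

open MeasureTheory Filter Topology
open scoped BigOperators Matrix ENNReal

namespace H363KF

theorem K7 (h5 : S_K5) (h6 : S_K6) : S_K7 := by
  intro d S hint h0 z hz
  rcases d with _ | k
  · refine ⟨fun i => i.elim0, ⟨fun i => i.elim0, fun i => i.elim0⟩, fun i => i.elim0,
      fun i => i.elim0, by simp, Subsingleton.elim _ _⟩
  · have hF : Fc S (PP S) := ⟨⟨0, h0⟩, IsExposed.refl _⟩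
    have hdm : dm (PP S) = k + 1 := by
      unfold dm
      have h1 : affineSpan ℝ (PP S) = ⊤ := by
        have h2 : affineSpan ℝ (interior (PP S)) = ⊤ := isOpen_interior.affineSpan_eq_top hint
        exact top_le_iff.1 (h2 ▸ affineSpan_mono ℝ interior_subset)
      rw [← direction_affineSpan, h1, AffineSubspace.direction_top, finrank_top]
      simp
    obtain ⟨H, hH, hHG, hdH, w, hw, hseg⟩ := h5 (k + 1) S (PP S) k hF hdm 0 h0 z hz
    obtain ⟨s, t, hs, ht, hst, rfl⟩ := hseg
    obtain ⟨f, hfk, hf, hmono, a, ha, hsum, hwe⟩ := h6 (k + 1) S k H hH hdH w hw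
    refine ⟨fun i : Fin (k + 1) => f i, ⟨?_, ?_⟩, fun i : Fin (k + 1) => t * a i, ?_, ?_, ?_⟩
    · intro i j hij
      exact hmono i j hij (by omega)
    · intro i
      have := hf i (by omega)
      exact ⟨this.1.1, this.1.2, this.2⟩
    · intro i
      exact mul_nonneg ht (ha _)
    · rw [← Finset.mul_sum, Fin.sum_univ_eq_sum_range (fun i => a i) (k + 1), hsum]
      linarith
    · rw [smul_zero, zero_add, hwe, Finset.smul_sum,
        Fin.sum_univ_eq_sum_range (fun i => (t * a i) • cen S (f i)) (k + 1)]
      refine Finset.sum_congr rfl fun i _ => ?_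
      rw [smul_smul]

end H363KF
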