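import Pool.Agent.H363R3.KF.Stm

set_option autoImplicit false

noncomputable section

namespace H363KF

open Classical in
theorem K8 (hK1 : S_K1) : S_K8 := by
  intro d S F G hF hG hFG
  obtain ⟨-, ⟨s0, hs0⟩, -, -, -, -⟩ := hK1 d S F hF
  set A := S.filter (fun s => s ∈ F) with hA
  set B := S.filter (fun s => s ∈ G) with hB
  have hAB : A ⊆ B := by
    intro s hs
    rw [hA, Finset.mem_filter] at hs
    rw [hB, Finset.mem_filter]
    exact ⟨hs.1, hFG hs.2⟩
  have hA0 : 0 < A.card := Finset.card_pos.2 ⟨s0, Finset.mem_filter.2 ⟨hs0.1, hs0.2⟩⟩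
  have hB0 : 0 < B.card := lt_of_lt_of_le hA0 (Finset.card_le_card hAB)
  have hA0' : (0 : ℝ) < A.card := by exact_mod_cast hA0
  have hB0' : (0 : ℝ) < B.card := by exact_mod_cast hB0
  have hAB' : (A.card : ℝ) ≤ B.card := by exact_mod_cast Finset.card_le_card hAB
  have hcF : cen S F = (A.card : ℝ)⁻¹ • ∑ s ∈ A, s := by
    rw [cen, hA]
  have hcG : cen S G = (B.card : ℝ)⁻¹ • ∑ s ∈ B, s := by
    rw [cen, hB]
  refine ⟨(A.card : ℝ) / B.card, div_pos hA0' hB0', (div_le_one hB0').2 hAB', ?_⟩
  by_cases hEq : A = B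
  · refine ⟨s0, subset_convexHull ℝ _ hs0.1, ?_⟩
    rw [hcF, hcG, hEq, div_self hB0'.ne']
    simp
  · have hss : (B \ A).Nonempty := by
      rw [Finset.sdiff_nonempty]
      intro h
      exact hEq (Finset.Subset.antisymm hAB h)
    have hc0 : 0 < (B \ A).card := Finset.card_pos.2 hss
    have hc0' : (0 : ℝ) < (B \ A).card := by exact_mod_cast hc0
    have hcard : ((B \ A).card : ℝ) = B.card - A.card := by
      have := Finset.card_sdiff_add_card_eq_card hAB
      have h2 : (((B \ A).card + A.card : ℕ) : ℝ) = B.card := by exact_mod_cast this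
      push_cast at h2
      linarith
    refine ⟨((B \ A).card : ℝ)⁻¹ • ∑ s ∈ B \ A, s, ?_, ?_⟩
    · rw [Finset.smul_sum]
      refine (convex_convexHull ℝ _).sum_mem ?_ ?_ ?_
      · intro s _
        positivity
      · rw [Finset.sum_const, nsmul_eq_mul]
        exact mul_inv_cancel₀ hc0'.ne'
      · intro s hs
        exact subset_convexHull ℝ _ (Finset.mem_coe.2
          (Finset.mem_filter.1 (Finset.mem_sdiff.1 hs).1).1)
    · rw [hcF, hcG, ← Finset.sum_sdiff hAB, smul_add, smul_smul, smul_smul, add_comm]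
      congr 1
      · congr 1
        field_simp
      · congr 1
        have h3 : (1 - (A.card : ℝ) / B.card) = ((B \ A).card : ℝ) / B.card := by
          rw [hcard]
          field_simp
        rw [h3]
        field_simp

end H363KF
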