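import Pool.Agent.H363R3.KF.Stm

/-!
Kalai's flag conjecture, task KA: assembly of the integral side.
-/

set_option autoImplicit false

noncomputable section

open MeasureTheory Filter Topology
open scoped BigOperators Matrix ENNReal

namespace H363KF

theorem ka_cont {n : ℕ} (v : Fin n → ℝ) : Continuous (fun x : Fin n → ℝ => v ⬝ᵥ x) := by
  unfold dotProduct
  fun_prop

theorem ka_meas {κ : Type} [Fintype κ] {n : ℕ} (l : κ → Fin n → ℝ) (r : ℝ) :
    MeasurableSet {x : Fin n → ℝ | ∀ k, |l k ⬝ᵥ x| ≤ r} := by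
  rw [Set.ofPred_forall]
  apply MeasurableSet.iInter
  intro k
  apply IsClosed.measurableSet
  exact isClosed_le (ka_cont (l k)).abs continuous_const

theorem KA (hFM : S_FM) (h2 : S_A2) (h3 : S_A3) (h5 : S_A5) : S_KA := by
  intro κ _ n N l c hsp hc hcov hp
  choose p hp0 hpp using hp
  have h3' := fun j => h3 κ n l (c j) (p j) (hp0 j) (hc j) (hpp j)
  choose C hC0 hC using h3'
  have hfac : (0:ℝ) < n.factorial := by exact_mod_cast n.factorial_pos
  refine h5 n N (∑ j, C j) (Finset.sum_nonneg (fun j _ => hC0 j)) ?_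
  intro r hr0 hr1
  have hlog : 0 ≤ Real.log (1 / (1 - r)) := by
    apply Real.log_nonneg
    rw [le_div_iff₀ (by linarith)]
    linarith
  have hCj : ∀ j, C j ≤ ∑ j, C j := fun j =>
    Finset.single_le_sum (fun i _ => hC0 i) (Finset.mem_univ j)
  have hsum0 : 0 ≤ ∑ j, C j := Finset.sum_nonneg (fun j _ => hC0 j)
  have hB : 0 ≤ (N : ℝ) * ((Real.log (1 / (1 - r)) + ∑ j, C j) ^ n / n.factorial) := by
    have : 0 ≤ Real.log (1 / (1 - r)) + ∑ j, C j := by linarith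
    positivity
  rw [← ENNReal.ofReal_le_ofReal_iff hB]
  refine (hFM κ n l hsp r hr0 hr1).trans ?_
  have step1 : ∫⁻ x in {x : Fin n → ℝ | ∀ k, |l k ⬝ᵥ x| ≤ r}, volume (PK l x) ≤
      ∫⁻ x in {x : Fin n → ℝ | ∀ k, |l k ⬝ᵥ x| ≤ r}, ∑ j, ENNReal.ofReal
        (|Matrix.det (Matrix.of (c j))| / n.factorial * ∏ i, (1 - c j i ⬝ᵥ x)⁻¹) :=
    setLIntegral_mono' (ka_meas l r) (fun x hx => h2 κ n N l c hc hcov r hr0 hr1 x hx)
  have hmeas : ∀ j, Measurable (fun x : Fin n → ℝ => ENNReal.ofReal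
        (|Matrix.det (Matrix.of (c j))| / n.factorial * ∏ i, (1 - c j i ⬝ᵥ x)⁻¹)) := by
    intro j
    apply ENNReal.measurable_ofReal.comp
    apply Measurable.const_mul
    apply Finset.measurable_fun_prod
    intro i _
    exact (measurable_const.sub (ka_cont (c j i)).measurable).inv
  have step2 : ∫⁻ x in {x : Fin n → ℝ | ∀ k, |l k ⬝ᵥ x| ≤ r}, ∑ j, ENNReal.ofReal
        (|Matrix.det (Matrix.of (c j))| / n.factorial * ∏ i, (1 - c j i ⬝ᵥ x)⁻¹) =
      ∑ j, ∫⁻ x in {x : Fin n → ℝ | ∀ k, |l k ⬝ᵥ x| ≤ r}, ENNReal.ofReal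
        (|Matrix.det (Matrix.of (c j))| / n.factorial * ∏ i, (1 - c j i ⬝ᵥ x)⁻¹) :=
    lintegral_finsetSum _ (fun j _ => hmeas j)
  have step3 : ∀ j, (n.factorial : ℝ≥0∞) *
      ∫⁻ x in {x : Fin n → ℝ | ∀ k, |l k ⬝ᵥ x| ≤ r}, ENNReal.ofReal
        (|Matrix.det (Matrix.of (c j))| / n.factorial * ∏ i, (1 - c j i ⬝ᵥ x)⁻¹) ≤
      ENNReal.ofReal ((Real.log (1 / (1 - r)) + ∑ j, C j) ^ n / n.factorial) := by
    intro j
    rw [← lintegral_const_mul' _ _ (ENNReal.natCast_ne_top _)]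
    have e : ∀ x : Fin n → ℝ, (n.factorial : ℝ≥0∞) * ENNReal.ofReal
        (|Matrix.det (Matrix.of (c j))| / n.factorial * ∏ i, (1 - c j i ⬝ᵥ x)⁻¹) =
        ENNReal.ofReal (|Matrix.det (Matrix.of (c j))| * ∏ i, (1 - c j i ⬝ᵥ x)⁻¹) := by
      intro x
      rw [← ENNReal.ofReal_natCast, ← ENNReal.ofReal_mul hfac.le]
      congr 1
      field_simp
    simp only [e]
    refine (hC j r hr0 hr1).trans ?_
    apply ENNReal.ofReal_le_ofReal
    have h1 : 0 ≤ Real.log (1 / (1 - r)) + C j := by linarith [hC0 j]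
    have h2 : Real.log (1 / (1 - r)) + C j ≤ Real.log (1 / (1 - r)) + ∑ j, C j := by
      linarith [hCj j]
    gcongr
  calc (n.factorial : ℝ≥0∞) * ∫⁻ x in {x : Fin n → ℝ | ∀ k, |l k ⬝ᵥ x| ≤ r}, volume (PK l x)
      ≤ (n.factorial : ℝ≥0∞) * ∑ j, ∫⁻ x in {x : Fin n → ℝ | ∀ k, |l k ⬝ᵥ x| ≤ r},
          ENNReal.ofReal (|Matrix.det (Matrix.of (c j))| / n.factorial *
            ∏ i, (1 - c j i ⬝ᵥ x)⁻¹) := by
        rw [← step2]
        gcongr
    _ = ∑ j, (n.factorial : ℝ≥0∞) * ∫⁻ x in {x : Fin n → ℝ | ∀ k, |l k ⬝ᵥ x| ≤ r},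
          ENNReal.ofReal (|Matrix.det (Matrix.of (c j))| / n.factorial *
            ∏ i, (1 - c j i ⬝ᵥ x)⁻¹) := by rw [Finset.mul_sum]
    _ ≤ ∑ _j : Fin N, ENNReal.ofReal ((Real.log (1 / (1 - r)) + ∑ j, C j) ^ n / n.factorial) :=
        Finset.sum_le_sum (fun j _ => step3 j)
    _ = ENNReal.ofReal (N * ((Real.log (1 / (1 - r)) + ∑ j, C j) ^ n / n.factorial)) := by
        rw [Finset.sum_const, Finset.card_univ, Fintype.card_fin, nsmul_eq_mul,
          ENNReal.ofReal_mul (Nat.cast_nonneg N), ENNReal.ofReal_natCast]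

end H363KF
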