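import Pool.Agent.H363R3.KF.A1
import Pool.Agent.H363R3.KF.A2
import Pool.Agent.H363R3.KF.A3
import Pool.Agent.H363R3.KF.A4
import Pool.Agent.H363R3.KF.A5
import Pool.Agent.H363R3.KF.B
import Pool.Agent.H363R3.KF.K1
import Pool.Agent.H363R3.KF.K2
import Pool.Agent.H363R3.KF.K3
import Pool.Agent.H363R3.KF.K4
import Pool.Agent.H363R3.KF.K5
import Pool.Agent.H363R3.KF.K6
import Pool.Agent.H363R3.KF.K7
import Pool.Agent.H363R3.KF.K8
import Pool.Agent.H363R3.KF.KA
import Pool.Agent.H363R3.KF.Z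

/-!
Kalai's flag conjecture from the symmetric Funk-Mahler inequality.
-/

set_option autoImplicit false

noncomputable section

namespace H363KF

/-- the flag side: the symmetric Funk-Mahler inequality implies Kalai's flag conjecture -/
theorem flags_of_FM (hFM : S_FM) : S_Z := by
  have hK2 : S_K2 := K2 K1
  have hK3 : S_K3 := K3 K1 hK2
  have hK5 : S_K5 := K5 K1 hK2 hK3 K4
  have hK6 : S_K6 := K6 K1 hK5
  exact Z (KA hFM (A2 A1) (A3 A4) A5) K1 (K7 hK5 hK6) (K8 K1) B

end H363KF
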