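import Pool.Agent.H363R3.KF.FStm

/-!
# Task R1F: real side of the Funk-Mahler inequality for fixed `x` (helper455, after helper398)
-/

set_option autoImplicit false

noncomputable section

open MeasureTheory Filter Topology
open scoped BigOperators Matrix ENNReal Pointwise

namespace H363KF

open H712MA (Lens gf gd af VV DS pk Spans E2)

namespace R1Faux

variable {κ : Type} [Fintype κ] {n : ℕ} {r : ℝ}

lemma spans_inj {κ : Type} {n : ℕ} (l : κ → Fin n → ℝ) (h : Spans l) (v : Fin n → ℝ)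
    (hv : ∀ k, l k ⬝ᵥ v = 0) : v = 0 := by
  obtain ⟨f, hf⟩ := h
  apply Matrix.eq_zero_of_mulVec_eq_zero hf
  funext i
  simp only [Matrix.mulVec, Matrix.of_apply, Pi.zero_apply]
  exact hv (f i)

lemma cc_nonneg (h0 : 0 < r) (h1 : r < 1) : 0 ≤ cc r := by
  unfold cc
  refine div_nonneg (Real.log_nonneg ?_) Real.pi_pos.le
  rw [le_div_iff₀ (by linarith)]
  linarith

/-- the slice function -/
def FF (Λ : FLens r) (m : ℕ) (x y : ℝ) : ℝ := Λ.w ⟨x, y⟩ * ‖gf Λ.L m ⟨x, y⟩‖ ^ 2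

/-- the map `T` -/
def TT (Λ : FLens r) (m : ℕ) (l : κ → Fin n → ℝ) (x u : Fin n → ℝ) : Fin n → ℝ :=
  ∑ k, ((m : ℝ) * FF Λ m (l k ⬝ᵥ x) (l k ⬝ᵥ u)) • l k

/-- the good set -/
def GU (Λ : FLens r) (m : ℕ) (l : κ → Fin n → ℝ) (x : Fin n → ℝ) : Set (Fin n → ℝ) :=
  {u | VV Λ.L m l (x, u) < 1} ∩ ⋂ k, {u | l k ≠ 0 → l k ⬝ᵥ u ≠ Λ.y0 (l k ⬝ᵥ x)}

lemma mem_W_of_VV (L : Lens) (m : ℕ)
    (l : κ → Fin n → ℝ) (z : E2 n) (h : VV L m l z < 1) (k : κ) : pk (l k) z ∈ L.W := by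
  by_contra hk
  have h1 : ‖gf L m (pk (l k) z)‖ ^ 2 = 1 := by
    have h2 := L.off (pk (l k) z) hk
    unfold gf
    rw [h2]; simp
  have h3 : ‖gf L m (pk (l k) z)‖ ^ 2 ≤ VV L m l z := by
    unfold VV
    exact Finset.single_le_sum (f := fun k => ‖gf L m (pk (l k) z)‖ ^ 2)
      (fun i _ => by positivity) (Finset.mem_univ k)
  linarith

lemma measurable_GU (Λ : FLens r) (m : ℕ)
    (l : κ → Fin n → ℝ) (x : Fin n → ℝ) : MeasurableSet (GU Λ m l x) := by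
  have hc : Continuous (fun p => ‖Λ.L.e p‖) := Λ.cont
  have hV : Continuous (fun u : Fin n → ℝ => VV Λ.L m l (x, u)) := by
    unfold VV
    refine continuous_finsetSum _ fun k _ => ?_
    have : (fun u : Fin n → ℝ => ‖gf Λ.L m (pk (l k) (x, u))‖ ^ 2) =
        fun u => (‖Λ.L.e (pk (l k) (x, u))‖) ^ (m * 2) := by
      funext u
      unfold gf
      rw [norm_pow, ← pow_mul]
    rw [this]
    refine Continuous.pow ?_ _
    refine hc.comp ?_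
    have : (fun u : Fin n → ℝ => pk (l k) (x, u)) =
        fun u => ((l k ⬝ᵥ x : ℝ) : ℂ) + ((l k ⬝ᵥ u : ℝ) : ℂ) * Complex.I := by
      funext u
      apply Complex.ext <;> simp [pk]
    rw [this]
    have : Continuous fun u : Fin n → ℝ => l k ⬝ᵥ u := by
      unfold dotProduct
      fun_prop
    fun_prop
  refine MeasurableSet.inter ?_ ?_
  · exact (isOpen_lt hV continuous_const).measurableSet
  · refine MeasurableSet.iInter fun k => ?_
    by_cases hk : l k = 0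
    · have : {u : Fin n → ℝ | l k ≠ 0 → l k ⬝ᵥ u ≠ Λ.y0 (l k ⬝ᵥ x)} = Set.univ := by
        ext u; simp [hk]
      rw [this]; exact MeasurableSet.univ
    · have hd : Continuous fun u : Fin n → ℝ => l k ⬝ᵥ u := by
        unfold dotProduct
        fun_prop
      have : {u : Fin n → ℝ | l k ≠ 0 → l k ⬝ᵥ u ≠ Λ.y0 (l k ⬝ᵥ x)} =
          {u | l k ⬝ᵥ u ≠ Λ.y0 (l k ⬝ᵥ x)} := by
        ext u; simp [hk]
      rw [this]
      exact (isOpen_ne_fun hd continuous_const).measurableSet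

lemma TT_inj (Λ : FLens r) (m : ℕ) (hm : 1 ≤ m)
    (l : κ → Fin n → ℝ) (hl : Spans l) (x : Fin n → ℝ) :
    Set.InjOn (TT Λ m l x) (GU Λ m l x) := by
  intro u hu u' hu' h
  have key : ∀ k, 0 ≤ (FF Λ m (l k ⬝ᵥ x) (l k ⬝ᵥ u) - FF Λ m (l k ⬝ᵥ x) (l k ⬝ᵥ u')) *
      (l k ⬝ᵥ u - l k ⬝ᵥ u') ∧
      ((FF Λ m (l k ⬝ᵥ x) (l k ⬝ᵥ u) - FF Λ m (l k ⬝ᵥ x) (l k ⬝ᵥ u')) *
      (l k ⬝ᵥ u - l k ⬝ᵥ u') = 0 → l k ⬝ᵥ u = l k ⬝ᵥ u') := by
    intro k
    have m1 := mem_W_of_VV Λ.L m l (x, u) hu.1 k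
    have m2 := mem_W_of_VV Λ.L m l (x, u') hu'.1 k
    simp only [pk] at m1 m2
    rcases lt_trichotomy (l k ⬝ᵥ u) (l k ⬝ᵥ u') with h1 | h1 | h1
    · have := Λ.mono m hm _ _ _ m1 m2 h1
      have : 0 < (FF Λ m (l k ⬝ᵥ x) (l k ⬝ᵥ u) - FF Λ m (l k ⬝ᵥ x) (l k ⬝ᵥ u')) *
          (l k ⬝ᵥ u - l k ⬝ᵥ u') := by
        unfold FF
        exact mul_pos_of_neg_of_neg (by linarith) (by linarith)
      exact ⟨this.le, fun h => by linarith⟩
    · exact ⟨by rw [h1]; simp, fun _ => h1⟩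
    · have := Λ.mono m hm _ _ _ m2 m1 h1
      have : 0 < (FF Λ m (l k ⬝ᵥ x) (l k ⬝ᵥ u) - FF Λ m (l k ⬝ᵥ x) (l k ⬝ᵥ u')) *
          (l k ⬝ᵥ u - l k ⬝ᵥ u') := by
        unfold FF
        exact mul_pos (by linarith) (by linarith)
      exact ⟨this.le, fun h => by linarith⟩
  have hsum : ∑ k, (FF Λ m (l k ⬝ᵥ x) (l k ⬝ᵥ u) - FF Λ m (l k ⬝ᵥ x) (l k ⬝ᵥ u')) *
      (l k ⬝ᵥ u - l k ⬝ᵥ u') = 0 := by
    have e1 : (TT Λ m l x u - TT Λ m l x u') ⬝ᵥ (u - u') = 0 := by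
      rw [h]; simp
    have e2 : (TT Λ m l x u - TT Λ m l x u') ⬝ᵥ (u - u') =
        (m : ℝ) * ∑ k, (FF Λ m (l k ⬝ᵥ x) (l k ⬝ᵥ u) - FF Λ m (l k ⬝ᵥ x) (l k ⬝ᵥ u')) *
      (l k ⬝ᵥ u - l k ⬝ᵥ u') := by
      unfold TT
      rw [← Finset.sum_sub_distrib, sum_dotProduct, Finset.mul_sum]
      refine Finset.sum_congr rfl fun k _ => ?_
      rw [← sub_smul, smul_dotProduct, dotProduct_sub, smul_eq_mul]
      ring
    rw [e2] at e1
    have hm0 : (m : ℝ) ≠ 0 := by positivity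
    exact (mul_eq_zero.mp e1).resolve_left hm0
  have hz := (Finset.sum_eq_zero_iff_of_nonneg (fun k _ => (key k).1)).mp hsum
  have : u - u' = 0 := by
    apply spans_inj l hl
    intro k
    rw [dotProduct_sub, (key k).2 (hz k (Finset.mem_univ k)), sub_self]
  exact sub_eq_zero.mp this

lemma w_le (Λ : FLens r) (h1 : r < 1) (p : ℂ) (hp : p ∈ Λ.L.W) (v : ℝ) (hv : |v| ≤ 1) :
    Λ.w p * (v - p.re) ≤ 1 := by
  have hr := Λ.re_lt p hp
  rw [abs_lt] at hr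
  rw [abs_le] at hv
  rcases Λ.w_eq p hp with h | h
  · rw [h, one_div, inv_mul_le_iff₀ (by linarith)]
    linarith [hv.2]
  · rw [h]
    have e : -(1 / (1 + p.re)) * (v - p.re) = (1 + p.re)⁻¹ * (p.re - v) := by ring
    rw [e, inv_mul_le_iff₀ (by linarith)]
    linarith [hv.1]

lemma TT_mem (Λ : FLens r) (h1 : r < 1) (m : ℕ) (hm : 1 ≤ m)
    (l : κ → Fin n → ℝ) (x : Fin n → ℝ) :
    TT Λ m l x '' (GU Λ m l x) ⊆ (m : ℝ) • PK l x := by
  rintro _ ⟨u, hu, rfl⟩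
  have hm0 : (m : ℝ) ≠ 0 := by positivity
  rw [Set.mem_smul_set_iff_inv_smul_mem₀ hm0]
  intro x' hx'
  have hV := hu.1
  simp only [Set.mem_ofPred_eq, VV] at hV
  have e : (x' - x) ⬝ᵥ ((m : ℝ)⁻¹ • TT Λ m l x u) =
      ∑ k, FF Λ m (l k ⬝ᵥ x) (l k ⬝ᵥ u) * (l k ⬝ᵥ x' - l k ⬝ᵥ x) := by
    unfold TT
    rw [dotProduct_smul, dotProduct_sum, smul_eq_mul, Finset.mul_sum]
    refine Finset.sum_congr rfl fun k _ => ?_
    rw [dotProduct_smul, smul_eq_mul, dotProduct_comm (x' - x) (l k), dotProduct_sub]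
    field_simp
  rw [e]
  refine le_trans (Finset.sum_le_sum (g := fun k => ‖gf Λ.L m (pk (l k) (x, u))‖ ^ 2) ?_) hV.le
  intro k _
  have hmem := mem_W_of_VV Λ.L m l (x, u) hu.1 k
  have h2 := w_le Λ h1 _ hmem (l k ⬝ᵥ x') (hx' k)
  have h4 : 0 ≤ ‖gf Λ.L m (pk (l k) (x, u))‖ ^ 2 := by positivity
  calc FF Λ m (l k ⬝ᵥ x) (l k ⬝ᵥ u) * (l k ⬝ᵥ x' - l k ⬝ᵥ x)
      = ‖gf Λ.L m (pk (l k) (x, u))‖ ^ 2 *
          (Λ.w (pk (l k) (x, u)) * (l k ⬝ᵥ x' - (pk (l k) (x, u)).re)) := by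
        unfold FF
        simp only [pk]
        ring
    _ ≤ ‖gf Λ.L m (pk (l k) (x, u))‖ ^ 2 * 1 := mul_le_mul_of_nonneg_left h2 h4
    _ = _ := mul_one _

/-- the weights -/
def bb (Λ : FLens r) (m : ℕ) (l : κ → Fin n → ℝ) (x u : Fin n → ℝ) (k : κ) : ℝ :=
  2 * cc r * Λ.q (pk (l k) (x, u)) * af Λ.L m (pk (l k) (x, u))

/-- the derivative of `T` -/
def TD (Λ : FLens r) (m : ℕ) (l : κ → Fin n → ℝ) (x u : Fin n → ℝ) :
    (Fin n → ℝ) →L[ℝ] (Fin n → ℝ) :=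
  LinearMap.toContinuousLinearMap
    (Matrix.toLin' (∑ k, bb Λ m l x u k • Matrix.vecMulVec (l k) (l k)))

omit [Fintype κ] in
lemma bb_nonneg (h0 : 0 < r) (h1 : r < 1) (Λ : FLens r) (m : ℕ) (l : κ → Fin n → ℝ)
    (x u : Fin n → ℝ) (k : κ) : 0 ≤ bb Λ m l x u k := by
  unfold bb af
  have a1 := cc_nonneg h0 h1
  have a2 := Λ.q_nonneg (pk (l k) (x, u))
  positivity

/-- the linear functional `u ↦ v ⬝ᵥ u` -/
def lf (v : Fin n → ℝ) : (Fin n → ℝ) →L[ℝ] ℝ :=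
  LinearMap.toContinuousLinearMap (dotProductBilin ℝ ℝ v)

lemma term_deriv (Λ : FLens r)
    (m : ℕ) (hm : 1 ≤ m) (l : κ → Fin n → ℝ) (x u : Fin n → ℝ) (hu : u ∈ GU Λ m l x) (k : κ) :
    HasFDerivAt (fun v : Fin n → ℝ => ((m : ℝ) * FF Λ m (l k ⬝ᵥ x) (l k ⬝ᵥ v)) • l k)
      (bb Λ m l x u k • (lf (l k)).smulRight (l k)) u := by
  by_cases hk : l k = 0
  · have e1 : (fun v : Fin n → ℝ => ((m : ℝ) * FF Λ m (l k ⬝ᵥ x) (l k ⬝ᵥ v)) • l k) =
        fun _ => (0 : Fin n → ℝ) := by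
      funext v; rw [hk, smul_zero]
    have e2 : bb Λ m l x u k • (lf (l k)).smulRight (l k) = 0 := by
      ext v; simp [hk]
    rw [e1, e2]
    exact hasFDerivAt_const _ _
  have hmem := mem_W_of_VV Λ.L m l (x, u) hu.1 k
  have hy : l k ⬝ᵥ u ≠ Λ.y0 (l k ⬝ᵥ x) := (Set.mem_iInter.mp hu.2 k) hk
  have hd3 : HasDerivAt (fun t : ℝ => FF Λ m (l k ⬝ᵥ x) t)
      (2 / m * (cc r * Λ.q ⟨l k ⬝ᵥ x, l k ⬝ᵥ u⟩ * af Λ.L m ⟨l k ⬝ᵥ x, l k ⬝ᵥ u⟩)) (l k ⬝ᵥ u) :=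
    Λ.der m hm (l k ⬝ᵥ x) (l k ⬝ᵥ u) hmem hy
  have e3 : 2 / m * (cc r * Λ.q ⟨l k ⬝ᵥ x, l k ⬝ᵥ u⟩ * af Λ.L m ⟨l k ⬝ᵥ x, l k ⬝ᵥ u⟩) =
      (1 / m) * bb Λ m l x u k := by
    unfold bb pk
    ring
  rw [e3] at hd3
  have hlin : HasFDerivAt (fun v : Fin n → ℝ => l k ⬝ᵥ v) (lf (l k)) u := (lf (l k)).hasFDerivAt
  have hc := hd3.comp_hasFDerivAt u hlin
  have hc2 := (hc.const_mul (m : ℝ)).smul_const (l k)
  have hfin : bb Λ m l x u k • (lf (l k)).smulRight (l k) =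
      ((m : ℝ) • ((1 / (m : ℝ) * bb Λ m l x u k) • lf (l k))).smulRight (l k) := by
    have hm0 : (m : ℝ) ≠ 0 := by positivity
    ext v i
    simp only [ContinuousLinearMap.smulRight_apply, smul_apply, Pi.smul_apply, smul_eq_mul]
    field_simp
  rw [hfin]
  exact hc2

lemma TT_deriv (Λ : FLens r)
    (m : ℕ) (hm : 1 ≤ m) (l : κ → Fin n → ℝ) (x u : Fin n → ℝ) (hu : u ∈ GU Λ m l x) :
    HasFDerivAt (TT Λ m l x) (TD Λ m l x u) u := by
  have h := HasFDerivAt.fun_sum (u := (Finset.univ : Finset κ))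
    (fun k _ => term_deriv Λ m hm l x u hu k)
  have e : TD Λ m l x u = ∑ k, bb Λ m l x u k • (lf (l k)).smulRight (l k) := by
    ext v i
    simp only [TD, LinearMap.coe_toContinuousLinearMap', Matrix.toLin'_apply,
      Matrix.sum_mulVec, Matrix.smul_mulVec, Finset.sum_apply, Pi.smul_apply, smul_eq_mul,
      sum_apply, smul_apply,
      ContinuousLinearMap.smulRight_apply]
    refine Finset.sum_congr rfl fun k _ => ?_
    congr 1
    rw [Matrix.vecMulVec_mulVec]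
    simp [lf, mul_comm]
  rw [e]
  exact h

lemma TD_det (ha3 : H712MA.S_A3) (Λ : FLens r) (m : ℕ) (l : κ → Fin n → ℝ) (x u : Fin n → ℝ) :
    (n.factorial : ℝ) * (TD Λ m l x u).det = DS l (bb Λ m l x u) := by
  rw [← ha3]
  congr 1
  unfold TD
  rw [LinearMap.det_toContinuousLinearMap, LinearMap.det_toLin']

lemma DS_nonneg (l : κ → Fin n → ℝ) (a : κ → ℝ) (ha : ∀ k, 0 ≤ a k) : 0 ≤ DS l a := by
  unfold DS
  exact Finset.sum_nonneg fun f _ => mul_nonneg (Finset.prod_nonneg fun i _ => ha _) (sq_nonneg _)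

lemma null_hyper (v : Fin n → ℝ) (hv : v ≠ 0) : volume {u : Fin n → ℝ | v ⬝ᵥ u = 0} = 0 := by
  have h := Measure.addHaar_submodule (volume : Measure (Fin n → ℝ)) (LinearMap.ker (lf v).toLinearMap) ?_
  · convert h using 2
    ext u
    simp [lf]
  · intro htop
    rw [LinearMap.ker_eq_top] at htop
    have : v ⬝ᵥ v = 0 := by
      have := congrArg (fun f => f v) htop
      simpa [lf] using this
    exact hv (dotProduct_self_eq_zero.mp this)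

lemma null_hyper' (v : Fin n → ℝ) (hv : v ≠ 0) (c : ℝ) :
    volume {u : Fin n → ℝ | v ⬝ᵥ u = c} = 0 := by
  have hvv : v ⬝ᵥ v ≠ 0 := fun h => hv (dotProduct_self_eq_zero.mp h)
  have h := measure_preimage_add_right (volume : Measure (Fin n → ℝ)) (-((c / (v ⬝ᵥ v)) • v))
    {u : Fin n → ℝ | v ⬝ᵥ u = 0}
  rw [null_hyper v hv] at h
  rw [← h]
  congr 1
  ext u
  simp only [Set.mem_ofPred_eq, Set.mem_preimage, dotProduct_add, dotProduct_neg, dotProduct_smul,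
    smul_eq_mul]
  rw [div_mul_cancel₀ _ hvv]
  constructor
  · intro h; rw [h]; ring
  · intro h; linarith

end R1Faux

open R1Faux

/-- R1F: the real side for fixed `x` -/
theorem R1F (hA3 : H712MA.S_A3) : S_R1F := by
  intro r h0 h1 Λ κ _ n m hm l hl x
  have hsub : ∫⁻ u in {u : Fin n → ℝ | VV Λ.L m l (x, u) < 1},
        ENNReal.ofReal (DS l (fun k => 2 * cc r * Λ.q (pk (l k) (x, u)) *
          af Λ.L m (pk (l k) (x, u)))) ≤
      ∫⁻ u in GU Λ m l x, ENNReal.ofReal (DS l (bb Λ m l x u)) := by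
    refine lintegral_mono_set' ?_
    have hall : ∀ᵐ u : Fin n → ℝ, ∀ k, l k ≠ 0 → l k ⬝ᵥ u ≠ Λ.y0 (l k ⬝ᵥ x) := by
      rw [ae_all_iff]
      intro k
      by_cases hk : l k = 0
      · exact Eventually.of_forall fun u h => absurd hk h
      · rw [ae_iff]
        refine measure_mono_null ?_ (null_hyper' (l k) hk (Λ.y0 (l k ⬝ᵥ x)))
        intro u hu
        simp only [Set.mem_ofPred_eq, not_forall] at hu ⊢
        obtain ⟨_, hu⟩ := hu
        exact not_not.mp hu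
    filter_upwards [hall] with u hu hV
    exact ⟨hV, Set.mem_iInter.mpr fun k => hu k⟩
  refine hsub.trans ?_
  have hint : ∫⁻ u in GU Λ m l x, ENNReal.ofReal (DS l (bb Λ m l x u)) =
      (n.factorial : ℝ≥0∞) * ∫⁻ u in GU Λ m l x, ENNReal.ofReal |(TD Λ m l x u).det| := by
    rw [← lintegral_const_mul' _ _ (ENNReal.natCast_ne_top _)]
    refine lintegral_congr fun u => ?_
    have h1' := TD_det hA3 Λ m l x u
    have h5 := DS_nonneg l (bb Λ m l x u) (bb_nonneg h0 h1 Λ m l x u)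
    have hn : (0 : ℝ) < n.factorial := by positivity
    have h6 : 0 ≤ (TD Λ m l x u).det := by
      by_contra hneg
      push Not at hneg
      have := mul_neg_of_pos_of_neg hn hneg
      linarith
    rw [abs_of_nonneg h6, ← h1', ENNReal.ofReal_mul hn.le, ENNReal.ofReal_natCast]
  rw [hint, mul_assoc]
  refine mul_le_mul_right ?_ _
  rw [lintegral_abs_det_fderiv_eq_addHaar_image volume (measurable_GU Λ m l x)
    (fun u hu => (TT_deriv Λ m hm l x u hu).hasFDerivWithinAt)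
    (TT_inj Λ m hm l hl x)]
  refine (measure_mono (TT_mem Λ h1 m hm l x)).trans ?_
  rw [Measure.addHaar_smul]
  simp only [Module.finrank_fintype_fun_eq_card, Fintype.card_fin]
  rw [abs_of_nonneg (by positivity), ENNReal.ofReal_pow (by positivity), ENNReal.ofReal_natCast]

end H363KF
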