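import Pool.Agent.H712R2.MA.Stm

/-!
KALAI'S FLAG CONJECTURE (frozen statement S07265): statements (as `Prop`s) of the tasks of the
flag side.  `S_FM` is the symmetric Funk-Mahler inequality (the analytic side).
Task `X` proves `theorem X : S_X` (or `theorem X (h : S_Y) ... : S_X`) in
`Pool/Agent/H363R3/KF/X.lean`, importing this file only.
-/

set_option autoImplicit false

noncomputable section

open MeasureTheory Filter Topology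
open scoped BigOperators Matrix ENNReal

namespace H363KF

/-! ### the analytic input -/

/-- polar of `K - x`, `K = {v : |l_k(v)| ≤ 1}` -/
def PK {κ : Type} {n : ℕ} (l : κ → Fin n → ℝ) (x : Fin n → ℝ) : Set (Fin n → ℝ) :=
  {y | ∀ v, (∀ k, |l k ⬝ᵥ v| ≤ 1) → (v - x) ⬝ᵥ y ≤ 1}

/-- the symmetric Funk-Mahler inequality for polytopes -/
def S_FM : Prop :=
  ∀ (κ : Type) [Fintype κ] (n : ℕ) (l : κ → Fin n → ℝ), H712MA.Spans l → ∀ r : ℝ, 0 < r → r < 1 →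
    ENNReal.ofReal ((2 * Real.log ((1 + r) / (1 - r))) ^ n) ≤
      (n.factorial : ℝ≥0∞) * ∫⁻ x in {x : Fin n → ℝ | ∀ k, |l k ⬝ᵥ x| ≤ r}, volume (PK l x)

/-! ### faces of polytopes -/

/-- the space of the frozen statement -/
abbrev EE (d : ℕ) := EuclideanSpace ℝ (Fin d)

/-- the polytope -/
def PP {d : ℕ} (S : Finset (EE d)) : Set (EE d) := convexHull ℝ (S : Set (EE d))

/-- nonempty exposed faces (the polytope itself is one of them) -/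
def Fc {d : ℕ} (S : Finset (EE d)) (F : Set (EE d)) : Prop :=
  F.Nonempty ∧ IsExposed ℝ (PP S) F

/-- dimension -/
def dm {d : ℕ} (F : Set (EE d)) : ℕ := Module.finrank ℝ (vectorSpan ℝ F)

open Classical in
/-- average of the points of `S` in the face `F` -/
def cen {d : ℕ} (S : Finset (EE d)) (F : Set (EE d)) : EE d :=
  ((S.filter (fun s => s ∈ F)).card : ℝ)⁻¹ • ∑ s ∈ S.filter (fun s => s ∈ F), s

/-- complete flags, exactly as in the frozen statement -/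
def Flags {d : ℕ} (S : Finset (EuclideanSpace ℝ (Fin d))) :
    Set (Fin d → Set (EuclideanSpace ℝ (Fin d))) :=
  {f : Fin d → Set (EuclideanSpace ℝ (Fin d)) |
          Monotone f ∧ ∀ i : Fin d, (f i).Nonempty ∧
            IsExposed ℝ (convexHull ℝ (S : Set (EuclideanSpace ℝ (Fin d)))) (f i) ∧
            Module.finrank ℝ (vectorSpan ℝ (f i)) = (i : ℕ)}

/-- K1: a face is the convex hull of the points of `S` in it -/
def S_K1 : Prop :=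
  ∀ (d : ℕ) (S : Finset (EE d)) (F : Set (EE d)), Fc S F →
    F = convexHull ℝ ((S : Set (EE d)) ∩ F) ∧ ((S : Set (EE d)) ∩ F).Nonempty ∧
    IsCompact F ∧ Convex ℝ F ∧ F ⊆ PP S ∧ cen S F ∈ F

/-- K2: exposed faces of faces are faces (finite `S`) -/
def S_K2 : Prop :=
  ∀ (d : ℕ) (S : Finset (EE d)) (G : Set (EE d)), Fc S G → ∀ θ : EE d →L[ℝ] ℝ,
    Fc S {x ∈ G | ∀ y ∈ G, θ y ≤ θ x}

/-- K3: a proper subface has smaller dimension; between faces whose dimensions differ by at least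
two there is another face -/
def S_K3 : Prop :=
  ∀ (d : ℕ) (S : Finset (EE d)) (G H : Set (EE d)), Fc S G → Fc S H → H ⊆ G → H ≠ G →
    dm H < dm G ∧
    (dm H + 1 < dm G → ∃ H' : Set (EE d), Fc S H' ∧ H ⊆ H' ∧ H ≠ H' ∧ H' ⊆ G ∧ H' ≠ G)

/-- K4: exit point of a ray and a nonconstant supporting functional there -/
def S_K4 : Prop :=
  ∀ (d : ℕ) (G : Set (EE d)), IsCompact G → Convex ℝ G → ∀ c ∈ G, ∀ z ∈ G, c ≠ z →
    ∃ w ∈ G, z ∈ segment ℝ c w ∧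
      ∃ θ : EE d →L[ℝ] ℝ, (∀ y ∈ G, θ y ≤ θ w) ∧ ∃ y ∈ G, θ y < θ w

/-- K5: one step down -/
def S_K5 : Prop :=
  ∀ (d : ℕ) (S : Finset (EE d)) (G : Set (EE d)) (k : ℕ), Fc S G → dm G = k + 1 →
    ∀ c ∈ G, ∀ z ∈ G, ∃ H : Set (EE d), Fc S H ∧ H ⊆ G ∧ dm H = k ∧ ∃ w ∈ H, z ∈ segment ℝ c w

/-- K6: barycentric subdivision of a face -/
def S_K6 : Prop :=
  ∀ (d : ℕ) (S : Finset (EE d)) (k : ℕ) (G : Set (EE d)), Fc S G → dm G = k → ∀ z ∈ G,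
    ∃ f : ℕ → Set (EE d), f k = G ∧ (∀ i, i ≤ k → Fc S (f i) ∧ dm (f i) = i) ∧
      (∀ i j, i ≤ j → j ≤ k → f i ⊆ f j) ∧
      ∃ a : ℕ → ℝ, (∀ i, 0 ≤ a i) ∧ ∑ i ∈ Finset.range (k + 1), a i = 1 ∧
        z = ∑ i ∈ Finset.range (k + 1), a i • cen S (f i)

/-- K7: the polytope is covered by the simplices with apex `0` over the flags -/
def S_K7 : Prop :=
  ∀ (d : ℕ) (S : Finset (EE d)), (interior (PP S)).Nonempty → (0 : EE d) ∈ PP S → ∀ z ∈ PP S,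
    ∃ f ∈ Flags S, ∃ a : Fin d → ℝ, (∀ i, 0 ≤ a i) ∧ ∑ i, a i ≤ 1 ∧ z = ∑ i, a i • cen S (f i)

/-- K8: centres of nested faces -/
def S_K8 : Prop :=
  ∀ (d : ℕ) (S : Finset (EE d)) (F G : Set (EE d)), Fc S F → Fc S G → F ⊆ G →
    ∃ p : ℝ, 0 < p ∧ p ≤ 1 ∧ ∃ q ∈ PP S, cen S G = p • cen S F + (1 - p) • q

/-! ### integrals -/

/-- the simplices `conv(0, c j 0, ..., c j (n-1))` cover the polar of `{|l_k| ≤ 1}` -/
def Cov {κ : Type} {n N : ℕ} (l : κ → Fin n → ℝ) (c : Fin N → Fin n → Fin n → ℝ) : Prop :=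
  ∀ z : Fin n → ℝ, (∀ x : Fin n → ℝ, (∀ k, |l k ⬝ᵥ x| ≤ 1) → z ⬝ᵥ x ≤ 1) →
    ∃ (j : Fin N) (a : Fin n → ℝ), (∀ i, 0 ≤ a i) ∧ ∑ i, a i ≤ 1 ∧ z = ∑ i, a i • c j i

/-- A1: volume of a simplex -/
def S_A1 : Prop :=
  ∀ (n : ℕ) (y : Fin n → Fin n → ℝ),
    volume {z : Fin n → ℝ | ∃ a : Fin n → ℝ, (∀ i, 0 ≤ a i) ∧ ∑ i, a i ≤ 1 ∧ z = ∑ i, a i • y i} ≤
      ENNReal.ofReal (|Matrix.det (Matrix.of y)| / n.factorial)

/-- A2: the polar of `K - x` is covered by projective images of the simplices -/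
def S_A2 : Prop :=
  ∀ (κ : Type) [Fintype κ] (n N : ℕ) (l : κ → Fin n → ℝ) (c : Fin N → Fin n → Fin n → ℝ),
    (∀ j i (x : Fin n → ℝ), (∀ k, |l k ⬝ᵥ x| ≤ 1) → c j i ⬝ᵥ x ≤ 1) → Cov l c →
    ∀ (r : ℝ), 0 < r → r < 1 → ∀ x : Fin n → ℝ, (∀ k, |l k ⬝ᵥ x| ≤ r) →
      volume (PK l x) ≤
        ∑ j, ENNReal.ofReal (|Matrix.det (Matrix.of (c j))| / n.factorial * ∏ i, (1 - c j i ⬝ᵥ x)⁻¹)

/-- A4: volume of the set of monotone sequences -/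
def S_A4 : Prop :=
  ∀ (n : ℕ) (a b : ℝ), a ≤ b →
    volume {t : Fin n → ℝ | (∀ i j, i ≤ j → t j ≤ t i) ∧ ∀ i, a ≤ t i ∧ t i ≤ b} ≤
      ENNReal.ofReal ((b - a) ^ n / n.factorial)

/-- A3: the integral over one simplex -/
def S_A3 : Prop :=
  ∀ (κ : Type) [Fintype κ] (n : ℕ) (l : κ → Fin n → ℝ) (c : Fin n → Fin n → ℝ) (p : ℝ), 0 < p →
    (∀ i (x : Fin n → ℝ), (∀ k, |l k ⬝ᵥ x| ≤ 1) → c i ⬝ᵥ x ≤ 1) →
    (∀ x : Fin n → ℝ, (∀ k, |l k ⬝ᵥ x| ≤ 1) → ∀ i i' : Fin n, (i : ℕ) + 1 = i' →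
      p * (1 - c i ⬝ᵥ x) ≤ 1 - c i' ⬝ᵥ x) →
    ∃ C : ℝ, 0 ≤ C ∧ ∀ r : ℝ, 0 < r → r < 1 →
      ∫⁻ x in {x : Fin n → ℝ | ∀ k, |l k ⬝ᵥ x| ≤ r},
          ENNReal.ofReal (|Matrix.det (Matrix.of c)| * ∏ i, (1 - c i ⬝ᵥ x)⁻¹) ≤
        ENNReal.ofReal ((Real.log (1 / (1 - r)) + C) ^ n / n.factorial)

/-- A5: the limit `r → 1` -/
def S_A5 : Prop :=
  ∀ (n N : ℕ) (C : ℝ), 0 ≤ C →
    (∀ r : ℝ, 0 < r → r < 1 → (2 * Real.log ((1 + r) / (1 - r))) ^ n ≤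
      N * ((Real.log (1 / (1 - r)) + C) ^ n / n.factorial)) →
    2 ^ n * n.factorial ≤ N

/-- KA: the analytic side for a covering by simplices with nested vertices -/
def S_KA : Prop :=
  ∀ (κ : Type) [Fintype κ] (n N : ℕ) (l : κ → Fin n → ℝ) (c : Fin N → Fin n → Fin n → ℝ),
    H712MA.Spans l →
    (∀ j i (x : Fin n → ℝ), (∀ k, |l k ⬝ᵥ x| ≤ 1) → c j i ⬝ᵥ x ≤ 1) → Cov l c →
    (∀ j, ∃ p : ℝ, 0 < p ∧ ∀ x : Fin n → ℝ, (∀ k, |l k ⬝ᵥ x| ≤ 1) → ∀ i i' : Fin n,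
      (i : ℕ) + 1 = i' → p * (1 - c j i ⬝ᵥ x) ≤ 1 - c j i' ⬝ᵥ x) →
    2 ^ n * n.factorial ≤ N

/-- B: the polar of the polar, in coordinates -/
def S_B : Prop :=
  ∀ (d : ℕ) (S : Finset (EE d)), (interior (PP S)).Nonempty → (∀ x ∈ PP S, -x ∈ PP S) →
    (0 : EE d) ∈ PP S ∧
    H712MA.Spans (fun s : {s // s ∈ S} => (s.1.ofLp : Fin d → ℝ)) ∧
    (∀ z : EE d, (∀ x : Fin d → ℝ, (∀ s : {s // s ∈ S}, |(s.1.ofLp : Fin d → ℝ) ⬝ᵥ x| ≤ 1) →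
      (z.ofLp : Fin d → ℝ) ⬝ᵥ x ≤ 1) → z ∈ PP S) ∧
    (∀ z ∈ PP S, ∀ x : Fin d → ℝ, (∀ s : {s // s ∈ S}, |(s.1.ofLp : Fin d → ℝ) ⬝ᵥ x| ≤ 1) →
      (z.ofLp : Fin d → ℝ) ⬝ᵥ x ≤ 1)

/-- Z: Kalai's flag conjecture (the frozen statement) -/
def S_Z : Prop :=
  ∀ (d : ℕ) (S : Finset (EuclideanSpace ℝ (Fin d))),
      (interior (convexHull ℝ (S : Set (EuclideanSpace ℝ (Fin d))))).Nonempty →
      (∀ x ∈ convexHull ℝ (S : Set (EuclideanSpace ℝ (Fin d))),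
          -x ∈ convexHull ℝ (S : Set (EuclideanSpace ℝ (Fin d)))) →
      (((2 ^ d * d.factorial : ℕ)) : ℕ∞) ≤ (Flags S).encard

end H363KF
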