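import Pool.Agent.H363R3.KF.Stm

/-!
KALAI'S FLAG CONJECTURE, task Z: final assembly.
-/

set_option autoImplicit false

noncomputable section

open MeasureTheory Filter Topology
open scoped BigOperators Matrix ENNReal

namespace H363KF

/-- finitely many positive numbers have a positive lower bound -/
theorem Z_min {ι : Type} [Finite ι] (P : ι → ℝ) (hP : ∀ i, 0 < P i) :
    ∃ p : ℝ, 0 < p ∧ ∀ i, p ≤ P i := by
  haveI := Fintype.ofFinite ι
  have key : ∀ s : Finset ι, ∃ p : ℝ, 0 < p ∧ ∀ i ∈ s, p ≤ P i := by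
    classical
    intro s
    induction s using Finset.induction_on with
    | empty => exact ⟨1, one_pos, by simp⟩
    | insert a s ha ih =>
      obtain ⟨p, hp, hps⟩ := ih
      refine ⟨min p (P a), lt_min hp (hP a), fun i hi => ?_⟩
      rcases Finset.mem_insert.mp hi with rfl | h
      · exact min_le_right _ _
      · exact (min_le_left _ _).trans (hps i h)
  obtain ⟨p, hp, h⟩ := key Finset.univ
  exact ⟨p, hp, fun i => h i (Finset.mem_univ i)⟩

theorem Z (hKA : S_KA) (hK1 : S_K1) (hK7 : S_K7) (hK8 : S_K8) (hB : S_B) : S_Z := by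
  intro d S hint hsym
  by_cases hfin : (Flags S).Finite
  swap
  · have h1 : (Flags S).encard = ⊤ := Set.Infinite.encard_eq hfin
    rw [h1]; exact le_top
  obtain ⟨h0, hsp, hpol, hpol'⟩ := hB d S hint hsym
  haveI : Finite (Flags S) := hfin
  let N := Nat.card (Flags S)
  let e : Flags S ≃ Fin N := Finite.equivFin _
  let l : {s // s ∈ S} → Fin d → ℝ := fun s => s.1.ofLp
  let c : Fin N → Fin d → Fin d → ℝ := fun j i => (cen S ((e.symm j).1 i)).ofLp
  have hFc : ∀ j i, Fc S ((e.symm j).1 i) := fun j i =>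
    ⟨((e.symm j).2.2 i).1, ((e.symm j).2.2 i).2.1⟩
  have hc : ∀ (j : Fin N) (i : Fin d) (x : Fin d → ℝ), (∀ k, |l k ⬝ᵥ x| ≤ 1) →
      c j i ⬝ᵥ x ≤ 1 := by
    intro j i x hx
    obtain ⟨-, -, -, -, hsub, hcen⟩ := hK1 d S _ (hFc j i)
    exact hpol' _ (hsub hcen) x hx
  have hcov : Cov l c := by
    intro z hz
    obtain ⟨f, hf, a, ha0, ha1, hza⟩ := hK7 d S hint h0 (WithLp.toLp 2 z)
      (hpol _ (fun x hx => hz x hx))
    refine ⟨e ⟨f, hf⟩, a, ha0, ha1, ?_⟩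
    have h1 : z = (∑ i, a i • cen S (f i)).ofLp := by
      rw [← hza]
    rw [h1, WithLp.ofLp_sum]
    refine Finset.sum_congr rfl fun i _ => ?_
    simp only [c, Equiv.symm_apply_apply, WithLp.ofLp_smul]
  have hp : ∀ j, ∃ p : ℝ, 0 < p ∧ ∀ x : Fin d → ℝ, (∀ k, |l k ⬝ᵥ x| ≤ 1) →
      ∀ i i' : Fin d, (i : ℕ) + 1 = i' → p * (1 - c j i ⬝ᵥ x) ≤ 1 - c j i' ⬝ᵥ x := by
    intro j
    have h1 : ∀ q : Fin d × Fin d, ∃ p : ℝ, 0 < p ∧ ((q.1 : ℕ) + 1 = q.2 →
        ∀ x : Fin d → ℝ, (∀ k, |l k ⬝ᵥ x| ≤ 1) →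
          p * (1 - c j q.1 ⬝ᵥ x) ≤ 1 - c j q.2 ⬝ᵥ x) := by
      rintro ⟨i, i'⟩
      by_cases hii : (i : ℕ) + 1 = i'
      swap
      · exact ⟨1, one_pos, fun h => absurd h hii⟩
      have hle : i ≤ i' := by
        rw [Fin.le_def]; omega
      obtain ⟨p, hp0, hp1, q, hq, hcq⟩ := hK8 d S _ _ (hFc j i) (hFc j i')
        ((e.symm j).2.1 hle)
      refine ⟨p, hp0, fun _ x hx => ?_⟩
      have h2 : c j i' = p • c j i + (1 - p) • q.ofLp := by
        show (cen S ((e.symm j).1 i')).ofLp = _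
        rw [hcq]
        rfl
      have h3 : q.ofLp ⬝ᵥ x ≤ 1 := hpol' q hq x hx
      show p * (1 - c j i ⬝ᵥ x) ≤ 1 - c j i' ⬝ᵥ x
      rw [h2, add_dotProduct, smul_dotProduct, smul_dotProduct, smul_eq_mul, smul_eq_mul]
      nlinarith
    choose P hP0 hP using h1
    obtain ⟨p, hp0, hpP⟩ := Z_min P hP0
    refine ⟨p, hp0, fun x hx i i' hii => ?_⟩
    have h4 := hP (i, i') hii x hx
    have h5 : 0 ≤ 1 - c j i ⬝ᵥ x := by
      have := hc j i x hx
      linarith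
    have h6 := mul_le_mul_of_nonneg_right (hpP (i, i')) h5
    exact h6.trans h4
  have hN : 2 ^ d * d.factorial ≤ N := hKA {s // s ∈ S} d N l c hsp hc hcov hp
  have hcard : (Flags S).encard = (N : ℕ∞) := by
    rw [← hfin.cast_ncard_eq, ← Nat.card_coe_set_eq]
  rw [hcard]
  exact_mod_cast hN

end H363KF
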